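import Mathlib

set_option autoImplicit false

namespace Pool.Agent.CubeHom

/-- vertices of the cube -/
abbrev V (n : ℕ) := Fin n → Bool

/-- the cube graph -/
abbrev Q (n : ℕ) : SimpleGraph (V n) := SimpleGraph.fromRel fun x y : V n => hammingDist x y = 1

/-- change one coordinate -/
def flip {n : ℕ} (x : V n) (i : Fin n) : V n := Function.update x i (!x i)

variable {n : ℕ}

@[simp] theorem flip_same (x : V n) (i : Fin n) : flip x i i = !x i := by simp [flip]

theorem flip_of_ne (x : V n) {i j : Fin n} (h : j ≠ i) : flip x i j = x j := by
  simp [flip, Function.update_of_ne h]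

@[simp] theorem flip_flip (x : V n) (i : Fin n) : flip (flip x i) i = x := by
  funext j
  by_cases h : j = i
  · subst h; simp
  · rw [flip_of_ne _ h, flip_of_ne _ h]

theorem flip_comm (x : V n) (i j : Fin n) : flip (flip x i) j = flip (flip x j) i := by
  by_cases hij : i = j
  · subst hij; rfl
  funext k
  by_cases hi : k = i
  · subst hi
    rw [flip_of_ne _ hij, flip_same, flip_same, flip_of_ne _ hij]
  · by_cases hj : k = j
    · subst hj
      rw [flip_same, flip_of_ne _ hi, flip_of_ne _ hi, flip_same]
    · rw [flip_of_ne _ hj, flip_of_ne _ hi, flip_of_ne _ hi, flip_of_ne _ hj]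

theorem flip_ne (x : V n) (i : Fin n) : flip x i ≠ x := by
  intro h
  have := congrFun h i
  simp at this

theorem flip_inj (x : V n) {i j : Fin n} (h : flip x i = flip x j) : i = j := by
  by_contra hij
  have := congrFun h i
  rw [flip_same, flip_of_ne _ hij] at this
  simp at this

theorem flip_left_inj {x y : V n} {i : Fin n} (h : flip x i = flip y i) : x = y := by
  rw [← flip_flip x i, h, flip_flip]

theorem hammingDist_flip (x : V n) (i : Fin n) : hammingDist x (flip x i) = 1 := by
  unfold hammingDist
  rw [Finset.card_eq_one]
  refine ⟨i, ?_⟩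
  ext j
  simp only [Finset.mem_filter, Finset.mem_univ, true_and, Finset.mem_singleton]
  by_cases h : j = i
  · subst h; simp
  · rw [flip_of_ne _ h]; simp [h]

theorem hammingDist_eq_one {x y : V n} (h : hammingDist x y = 1) : ∃ i, y = flip x i := by
  unfold hammingDist at h
  rw [Finset.card_eq_one] at h
  obtain ⟨i, hi⟩ := h
  refine ⟨i, ?_⟩
  funext j
  have hj := Finset.ext_iff.1 hi j
  simp only [Finset.mem_filter, Finset.mem_univ, true_and, Finset.mem_singleton] at hj
  by_cases h : j = i
  · subst h
    have : x j ≠ y j := hj.2 rfl
    rw [flip_same]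
    cases hx : x j <;> cases hy : y j <;> simp_all
  · rw [flip_of_ne _ h]
    by_contra hne
    exact h (hj.1 fun he => hne he.symm)

theorem adj_iff (x y : V n) : (Q n).Adj x y ↔ ∃ i, y = flip x i := by
  rw [SimpleGraph.fromRel_adj]
  constructor
  · rintro ⟨_, h | h⟩
    · exact hammingDist_eq_one h
    · rw [hammingDist_comm] at h
      exact hammingDist_eq_one h
  · rintro ⟨i, rfl⟩
    exact ⟨(flip_ne x i).symm, Or.inl (hammingDist_flip x i)⟩

theorem adj_flip (x : V n) (i : Fin n) : (Q n).Adj x (flip x i) := (adj_iff _ _).2 ⟨i, rfl⟩

/-- closure principle : a set of vertices closed under flips and non-empty is everything -/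
theorem closed_univ {P : V n → Prop} (hP : ∀ x i, P x → P (flip x i)) {x y : V n} (hx : P x) :
    P y := by
  classical
  -- induct on the number of differing coordinates
  suffices H : ∀ m : ℕ, ∀ x : V n, hammingDist x y = m → P x → P y from H _ x rfl hx
  intro m
  induction m with
  | zero =>
    intro x h hx
    rw [hammingDist_eq_zero] at h
    exact h ▸ hx
  | succ m ih =>
    intro x h hx
    have hne : x ≠ y := by
      rintro rfl
      simp at h
    obtain ⟨i, hi⟩ : ∃ i, x i ≠ y i := by
      by_contra hcon
      push Not at hcon
      exact hne (funext hcon)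
    refine ih (flip x i) ?_ (hP x i hx)
    have h2 : (Finset.univ.filter fun j => x j ≠ y j)
        = insert i (Finset.univ.filter fun j => flip x i j ≠ y j) := by
      ext j
      simp only [Finset.mem_filter, Finset.mem_univ, true_and, Finset.mem_insert]
      by_cases hj : j = i
      · subst hj
        simp [hi]
      · rw [flip_of_ne _ hj]
        simp [hj]
    have h3 : i ∉ (Finset.univ.filter fun j => flip x i j ≠ y j) := by
      simp only [Finset.mem_filter, Finset.mem_univ, true_and, flip_same, not_not]
      cases hx : x i <;> cases hy : y i <;> simp_all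
    have h4 : hammingDist x y = hammingDist (flip x i) y + 1 := by
      unfold hammingDist
      rw [h2, Finset.card_insert_of_notMem h3]
    omega

/-- exactness of closed cochains of the cube -/
theorem exists_potential : ∀ (n : ℕ) (w : V n → Fin n → ℤ)
    (_ : ∀ x i, w (flip x i) i = - w x i)
    (_ : ∀ x i j, w x i + w (flip x i) j = w x j + w (flip x j) i),
    ∃ F : V n → ℤ, ∀ x i, F (flip x i) = F x + w x i := by
  intro n
  induction n with
  | zero => intro w _ _; exact ⟨fun _ => 0, fun x i => i.elim0⟩
  | succ n ih =>
    intro w hanti hcl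
    -- flips of cons
    have f0 : ∀ (b : Bool) (y : V n), flip (Fin.cons b y : V (n+1)) 0 = Fin.cons (!b) y := by
      intro b y
      funext j
      refine Fin.cases ?_ (fun j => ?_) j
      · simp
      · rw [flip_of_ne _ (Fin.succ_ne_zero j)]; simp
    have fs : ∀ (b : Bool) (y : V n) (j : Fin n),
        flip (Fin.cons b y : V (n+1)) j.succ = Fin.cons b (flip y j) := by
      intro b y j
      funext k
      refine Fin.cases ?_ (fun k => ?_) k
      · rw [flip_of_ne _ (Fin.succ_ne_zero j).symm]; simp
      · by_cases hk : k = j
        · subst hk; simp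
        · rw [flip_of_ne _ (fun h => hk (Fin.succ_injective _ h))]
          simp [flip_of_ne _ hk]
    obtain ⟨F', hF'⟩ := ih (fun y j => w (Fin.cons false y) j.succ)
      (fun y j => by
        have := hanti (Fin.cons false y) j.succ
        rwa [fs] at this)
      (fun y i j => by
        have := hcl (Fin.cons false y) i.succ j.succ
        rwa [fs, fs] at this)
    refine ⟨fun x => F' (Fin.tail x) + if x 0 then w (Fin.cons false (Fin.tail x)) 0 else 0, ?_⟩
    intro x i
    obtain ⟨b, y, rfl⟩ : ∃ b y, x = (Fin.cons b y : V (n+1)) :=
      ⟨x 0, Fin.tail x, (Fin.cons_self_tail x).symm⟩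
    refine Fin.cases ?_ (fun i => ?_) i
    · rw [f0]
      cases b
      · simp
      · have := hanti (Fin.cons false y) 0
        rw [f0] at this
        simp at this
        simp [this]
    · rw [fs]
      cases b
      · simp [hF']
      · have h1 := hcl (Fin.cons false y) 0 i.succ
        rw [f0, fs] at h1
        simp only [Bool.not_false] at h1
        simp only [Fin.tail_cons, hF', Fin.cons_zero, if_true]
        linarith

end Pool.Agent.CubeHom
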