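import Pool.Agent.Lib_MP_a0ec0b_co.Mono

set_option autoImplicit false

namespace Pool.Agent.CubeHom

variable {n : ℕ} {c : Sym2 (V n) → Bool}

/-- joined by a walk with at most `m` colour changes, the last block having colour `k` -/
def RK (c : Sym2 (V n) → Bool) : ℕ → Bool → V n → V n → Prop
  | 0, k, x, y => Comp c k x y
  | (m + 1), k, x, y => ∃ z, RK c m (!k) x z ∧ Comp c k z y

theorem RK.comp {m : ℕ} {k : Bool} {x y z : V n} (h : RK c m k x y) (h' : Comp c k y z) :
    RK c m k x z := by
  cases m with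
  | zero => exact Comp.trans h h'
  | succ m =>
    obtain ⟨w, h1, h2⟩ := h
    exact ⟨w, h1, h2.trans h'⟩

theorem RK.succ {m : ℕ} {k : Bool} {x y : V n} (h : RK c m k x y) :
    RK c (m + 1) (!k) x y :=
  ⟨y, by rwa [Bool.not_not], Comp.refl _⟩

theorem RK.mono {m : ℕ} {k : Bool} {x y : V n} (h : RK c m k x y) (j : ℕ) :
    ∃ k', RK c (m + j) k' x y := by
  induction j with
  | zero => exact ⟨k, h⟩
  | succ j ih => obtain ⟨k', h'⟩ := ih; exact ⟨_, h'.succ⟩

theorem RK.edge {m : ℕ} {k : Bool} {x y : V n} (h : RK c m k x y) (i : Fin n) :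
    ∃ k', RK c (m + 1) k' x (flip y i) := by
  by_cases hc : col c y i = k
  · exact ⟨_, (h.comp (comp_flip hc)).succ⟩
  · refine ⟨!k, h.succ.comp (comp_flip ?_)⟩
    cases k <;> cases hh : col c y i <;> simp_all

theorem hammingDist_flip_left {x y : V n} {i : Fin n} (hi : x i ≠ y i) :
    hammingDist x y = hammingDist (flip x i) y + 1 := by
  classical
  have h2 : (Finset.univ.filter fun j => x j ≠ y j)
      = insert i (Finset.univ.filter fun j => flip x i j ≠ y j) := by
    ext j
    simp only [Finset.mem_filter, Finset.mem_univ, true_and, Finset.mem_insert]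
    by_cases hj : j = i
    · subst hj
      simp [hi]
    · rw [flip_of_ne _ hj]
      simp [hj]
  have h3 : i ∉ (Finset.univ.filter fun j => flip x i j ≠ y j) := by
    simp only [Finset.mem_filter, Finset.mem_univ, true_and, flip_same, not_not]
    cases hx : x i <;> cases hy : y i <;> simp_all
  unfold hammingDist
  rw [h2, Finset.card_insert_of_notMem h3]

theorem exists_ne_of_hammingDist {x y : V n} {m : ℕ} (h : hammingDist x y = m + 1) :
    ∃ i, x i ≠ y i := by
  by_contra hcon
  push Not at hcon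
  have : x = y := funext hcon
  subst this
  simp at h

theorem RK.extend (y : V n) : ∀ (j m : ℕ) (k : Bool) (x z : V n), RK c m k x z →
    hammingDist z y = j → ∃ k', RK c (m + j) k' x y := by
  intro j
  induction j with
  | zero =>
    intro m k x z h hd
    rw [hammingDist_eq_zero] at hd
    subst hd
    exact ⟨k, h⟩
  | succ j ih =>
    intro m k x z h hd
    obtain ⟨i, hi⟩ := exists_ne_of_hammingDist hd
    obtain ⟨k', h'⟩ := h.edge i
    have := hammingDist_flip_left hi
    obtain ⟨k'', h''⟩ := ih (m + 1) k' x (flip z i) h' (by omega)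
    exact ⟨k'', by rwa [show m + (j + 1) = m + 1 + j by ring]⟩

section disp

variable (φ : V n → V n) (π : Equiv.Perm (Fin n)) (hπ : ∀ x i, φ (flip x i) = flip (φ x) (π i))
  (k : ℕ) (hk3 : 3 ≤ k) (hmin : ∀ x, k ≤ hammingDist x (φ x))

/-- directions in which `u` and `φ u` differ -/
def D (φ : V n → V n) (u : V n) : Finset (Fin n) := Finset.univ.filter fun i => u i ≠ φ u i

theorem mem_D {u : V n} {i : Fin n} : i ∈ D φ u ↔ u i ≠ φ u i := by simp [D]

theorem card_D (u : V n) : (D φ u).card = hammingDist u (φ u) := rfl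

include hπ in
theorem mem_D_flip (u : V n) (a b : Fin n) :
    b ∈ D φ (flip u a) ↔ Xor (Xor (b ∈ D φ u) (b = a)) (b = π a) := by
  rw [mem_D, mem_D, hπ]
  by_cases h1 : b = a <;> by_cases h2 : b = π a
  · subst h1
    rw [flip_same, ← h2, flip_same]
    unfold Xor
    cases u b <;> cases φ u b <;> simp
  · subst h1
    rw [flip_same, flip_of_ne _ h2]
    unfold Xor
    cases u b <;> cases φ u b <;> simp [h2]
  · rw [flip_of_ne _ h1, h2, flip_same]
    unfold Xor
    rw [← h2]
    cases u b <;> cases φ u b <;> simp [h1]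
  · rw [flip_of_ne _ h1, flip_of_ne _ h2]
    unfold Xor
    cases u b <;> cases φ u b <;> simp [h1, h2]

/-- forward move -/
theorem fwd (hmin : ∀ x, k ≤ hammingDist x (φ x)) (hπ : ∀ x i, φ (flip x i) = flip (φ x) (π i))
    {u : V n} (hu : hammingDist u (φ u) = k) {a : Fin n} (ha : a ∈ D φ u) :
    hammingDist (flip u a) (φ (flip u a)) = k ∧ π a ∈ D φ (flip u a) ∧
      (∀ b ∈ D φ u, b ≠ a → b ∈ D φ (flip u a) ∧ b ≠ π a) := by
  classical
  by_cases h : π a ∈ (D φ u).erase a
  · exfalso
    have hne : π a ≠ a := Finset.ne_of_mem_erase h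
    have e : D φ (flip u a) = ((D φ u).erase a).erase (π a) := by
      ext b
      rw [mem_D_flip φ π hπ, Finset.mem_erase, Finset.mem_erase]
      have h' := Finset.mem_of_mem_erase h
      unfold Xor
      by_cases h1 : b = a
      · subst h1; simp [ha, hne.symm]
      · by_cases h2 : b = π a
        · subst h2; simp [h', hne]
        · simp [h1, h2]
    have := hmin (flip u a)
    rw [← card_D, e, Finset.card_erase_of_mem h, Finset.card_erase_of_mem ha, card_D, hu] at this
    have : 0 < k := by
      rw [← hu, ← card_D]; exact Finset.card_pos.2 ⟨a, ha⟩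
    omega
  · have e : D φ (flip u a) = insert (π a) ((D φ u).erase a) := by
      ext b
      rw [mem_D_flip φ π hπ, Finset.mem_insert, Finset.mem_erase]
      have h' : π a ∈ D φ u → π a = a := by
        intro h1; by_contra h2; exact h (Finset.mem_erase.2 ⟨h2, h1⟩)
      unfold Xor
      by_cases h1 : b = a
      · subst h1
        by_cases h2 : b = π b
        · simp [← h2, ha]
        · simp [ha, h2]
      · by_cases h2 : b = π a
        · subst h2
          have : π a ∉ D φ u := fun h3 => h1 (h' h3)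
          simp [this, h1]
        · simp [h1, h2]
    refine ⟨?_, ?_, ?_⟩
    · rw [← card_D, e, Finset.card_insert_of_notMem h, Finset.card_erase_of_mem ha, card_D, hu]
      have : 0 < k := by
        rw [← hu, ← card_D]; exact Finset.card_pos.2 ⟨a, ha⟩
      omega
    · rw [e]; exact Finset.mem_insert_self _ _
    · intro b hb hba
      refine ⟨?_, ?_⟩
      · rw [e]; exact Finset.mem_insert_of_mem (Finset.mem_erase.2 ⟨hba, hb⟩)
      · rintro rfl
        exact h (Finset.mem_erase.2 ⟨hba, hb⟩)

/-- backward move -/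
theorem bwd (hmin : ∀ x, k ≤ hammingDist x (φ x)) (hπ : ∀ x i, φ (flip x i) = flip (φ x) (π i))
    {u : V n} (hu : hammingDist u (φ u) = k) {p : Fin n} (hp : π p ∈ D φ u) :
    hammingDist (flip u p) (φ (flip u p)) = k ∧ p ∈ D φ (flip u p) ∧
      (∀ b ∈ D φ u, b ≠ π p → b ∈ D φ (flip u p) ∧ b ≠ p) := by
  classical
  by_cases h : p ∈ (D φ u).erase (π p)
  · exfalso
    have hne : p ≠ π p := Finset.ne_of_mem_erase h
    have e : D φ (flip u p) = ((D φ u).erase (π p)).erase p := by
      ext b
      rw [mem_D_flip φ π hπ, Finset.mem_erase, Finset.mem_erase]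
      have h' := Finset.mem_of_mem_erase h
      unfold Xor
      by_cases h1 : b = p
      · subst h1; simp [h', hne]
      · by_cases h2 : b = π p
        · subst h2; simp [hp, hne.symm]
        · simp [h1, h2]
    have := hmin (flip u p)
    rw [← card_D, e, Finset.card_erase_of_mem h, Finset.card_erase_of_mem hp, card_D, hu] at this
    have : 0 < k := by
      rw [← hu, ← card_D]; exact Finset.card_pos.2 ⟨_, hp⟩
    omega
  · have e : D φ (flip u p) = insert p ((D φ u).erase (π p)) := by
      ext b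
      rw [mem_D_flip φ π hπ, Finset.mem_insert, Finset.mem_erase]
      have h' : p ∈ D φ u → p = π p := by
        intro h1; by_contra h2; exact h (Finset.mem_erase.2 ⟨h2, h1⟩)
      unfold Xor
      by_cases h1 : b = p
      · subst h1
        by_cases h2 : b = π b
        · rw [← h2] at hp
          simp [← h2, hp]
        · have : b ∉ D φ u := fun h3 => h2 (h' h3)
          simp [this, h2]
      · by_cases h2 : b = π p
        · subst h2
          simp [hp, h1]
        · simp [h1, h2]
    refine ⟨?_, ?_, ?_⟩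
    · rw [← card_D, e, Finset.card_insert_of_notMem h, Finset.card_erase_of_mem hp, card_D, hu]
      have : 0 < k := by
        rw [← hu, ← card_D]; exact Finset.card_pos.2 ⟨_, hp⟩
      omega
    · rw [e]; exact Finset.mem_insert_self _ _
    · intro b hb hba
      refine ⟨?_, ?_⟩
      · rw [e]; exact Finset.mem_insert_of_mem (Finset.mem_erase.2 ⟨hba, hb⟩)
      · rintro rfl
        exact h (Finset.mem_erase.2 ⟨hba, hb⟩)

end disp

/-- Main theorem on displacement -/
theorem disp_core (φ : V n → V n) (π : Equiv.Perm (Fin n))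
    (hπ : ∀ x i, φ (flip x i) = flip (φ x) (π i)) (k : ℕ) (hk3 : 3 ≤ k)
    (hmin : ∀ x, k ≤ hammingDist x (φ x)) (u₀ : V n) (hu₀ : hammingDist u₀ (φ u₀) = k) :
    ∃ (u : V n) (κ : Bool), RK c (k - 2) κ u (φ u) := by
  classical
  by_contra hcon
  push Not at hcon
  have FW := @fwd n φ π k hmin hπ
  have BW := @bwd n φ π k hmin hπ
  -- three distinct elements
  have hthree : ∀ u : V n, hammingDist u (φ u) = k → ∀ a b, ∃ d ∈ D φ u, d ≠ a ∧ d ≠ b := by
    intro u hu a b
    have h1 : 0 < (((D φ u).erase a).erase b).card := by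
      have h2 := Finset.pred_card_le_card_erase (s := D φ u) (a := a)
      have h3 := Finset.pred_card_le_card_erase (s := (D φ u).erase a) (a := b)
      rw [card_D, hu] at h2
      omega
    obtain ⟨d, hd⟩ := Finset.card_pos.1 h1
    rw [Finset.mem_erase, Finset.mem_erase] at hd
    exact ⟨d, hd.2.2, hd.2.1, hd.1⟩
  -- (A1)
  have A1 : ∀ u : V n, hammingDist u (φ u) = k → ∀ a ∈ D φ u, ∀ b ∈ D φ u, b ≠ a →
      col c (flip u a) b = !(col c u a) := by
    intro u hu a ha b hb hba
    by_contra hne
    have hcol : col c (flip u a) b = col c u a := by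
      cases h1 : col c (flip u a) b <;> cases h2 : col c u a <;> simp_all
    have h1 : Comp c (col c u a) u (flip (flip u a) b) :=
      (comp_flip rfl).trans (comp_flip hcol)
    have e1 := hammingDist_flip_left ((mem_D φ).1 ha)
    have hb' : flip u a b ≠ φ u b := by
      rw [flip_of_ne _ hba]; exact (mem_D φ).1 hb
    have e2 := hammingDist_flip_left hb'
    obtain ⟨κ, hκ⟩ := RK.extend (c := c) (φ u) (k - 2) 0 _ u _ h1 (by omega)
    rw [Nat.zero_add] at hκ
    exact hcon u κ hκ
  -- (A2)
  have A2 : ∀ u : V n, hammingDist u (φ u) = k → ∀ a ∈ D φ u, ∀ b ∈ D φ u,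
      col c u a = col c u b := by
    intro u hu a ha b hb
    obtain ⟨d, hd, hda, hdb⟩ := hthree u hu a b
    obtain ⟨p, rfl⟩ := π.surjective d
    obtain ⟨w1, w2, w3⟩ := BW hu hd
    have ha' := w3 a ha hda.symm
    have hb' := w3 b hb hdb.symm
    have e1 := A1 _ w1 p w2 a ha'.1 ha'.2
    have e2 := A1 _ w1 p w2 b hb'.1 hb'.2
    rw [flip_flip] at e1 e2
    rw [e1, e2]
  have Dne : ∀ u : V n, hammingDist u (φ u) = k → ∃ a, a ∈ D φ u := by
    intro u hu
    have : 0 < (D φ u).card := by rw [card_D, hu]; omega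
    exact Finset.card_pos.1 this
  -- equivalence generated by the two forward moves of a minimiser
  let Rel : V n → V n → Prop := fun x y => ∃ w p q, hammingDist w (φ w) = k ∧ p ∈ D φ w ∧
    q ∈ D φ w ∧ x = flip w p ∧ y = flip w q
  let E : V n → V n → Prop := Relation.ReflTransGen Rel
  have Estep1 : ∀ x y, Rel x y → ∀ r ∈ D φ x, ∀ s ∈ D φ y, E (flip x r) (flip y s) := by
    rintro x y ⟨w, p, q, hw, hp, hq, rfl, rfl⟩ r hr s hs
    by_cases hpq : p = q
    · subst hpq
      exact Relation.ReflTransGen.single ⟨flip w p, r, s, (FW hw hp).1, hr, hs, rfl, rfl⟩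
    · have h1 := ((FW hw hp).2.2 q hq (Ne.symm hpq)).1
      have h2 := ((FW hw hq).2.2 p hp hpq).1
      refine (Relation.ReflTransGen.single ⟨flip w p, r, q, (FW hw hp).1, hr, h1, rfl, rfl⟩).trans ?_
      rw [flip_comm w p q]
      exact Relation.ReflTransGen.single ⟨flip w q, p, s, (FW hw hq).1, h2, hs, rfl, rfl⟩
  have Emz : ∀ x y, E x y → hammingDist x (φ x) = k → hammingDist y (φ y) = k := by
    intro x y h hx
    induction h with
    | refl => exact hx
    | tail _ h2 _ =>
      obtain ⟨w, p, q, hw, hp, hq, rfl, rfl⟩ := h2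
      exact (FW hw hq).1
  have Estep : ∀ x y, E x y → hammingDist x (φ x) = k → ∀ r ∈ D φ x, ∀ s ∈ D φ y,
      E (flip x r) (flip y s) := by
    intro x y h hx r hr
    induction h with
    | refl =>
      intro s hs
      exact Relation.ReflTransGen.single ⟨x, r, s, hx, hr, hs, rfl, rfl⟩
    | @tail y' y h1 h2 ih =>
      intro s hs
      obtain ⟨t, ht⟩ := Dne y' (Emz x y' h1 hx)
      exact (ih t ht).trans (Estep1 y' y h2 t ht s hs)
  have Ecomp : ∀ x y, E x y → hammingDist x (φ x) = k → ∀ r ∈ D φ x, ∀ s ∈ D φ y,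
      col c x r = col c y s ∧ Comp c (col c x r) x y := by
    intro x y h hx r hr
    induction h with
    | refl =>
      intro s hs
      exact ⟨A2 x hx r hr s hs, Comp.refl _⟩
    | @tail y' y h1 h2 ih =>
      intro s hs
      obtain ⟨w, p, q, hw, hp, hq, rfl, rfl⟩ := h2
      by_cases hpq : p = q
      · subst hpq
        exact ih s hs
      · have h3 := ((FW hw hp).2.2 q hq (Ne.symm hpq)).1
        have h4 := ((FW hw hq).2.2 p hp hpq).1
        obtain ⟨i1, i2⟩ := ih q h3
        have e1 := A1 w hw p hp q hq (Ne.symm hpq)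
        have e2 := A1 w hw q hq p hp hpq
        have e3 := A2 w hw p hp q hq
        have e4 := A2 _ (FW hw hq).1 s hs p h4
        refine ⟨?_, ?_⟩
        · rw [i1, e1, e4, e2, e3]
        · refine i2.trans ?_
          have c1 : Comp c (col c x r) (flip w p) (flip (flip w p) q) := comp_flip (by rw [i1])
          have c2 : Comp c (col c x r) (flip w q) (flip (flip w q) p) :=
            comp_flip (by rw [i1, e1, e2, e3])
          rw [flip_comm w p q] at c1
          exact c1.trans c2.symm
  -- forward walks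
  let Fwd : ℕ → V n → V n → Prop := fun j x y =>
    Nat.rec (motive := fun _ => V n → Prop) (fun y => x = y)
      (fun _ ih y => ∃ z, ih z ∧ ∃ r ∈ D φ z, y = flip z r) j y
  have Fmz : ∀ j x y, Fwd j x y → hammingDist x (φ x) = k → hammingDist y (φ y) = k := by
    intro j
    induction j with
    | zero => rintro x y h hx; have h : x = y := h; exact h ▸ hx
    | succ j ih =>
      rintro x y ⟨z, hz, r, hr, rfl⟩ hx
      exact (FW (ih x z hz hx) hr).1
  have FE : ∀ j x y y', Fwd j x y → Fwd j x y' → hammingDist x (φ x) = k → E y y' := by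
    intro j
    induction j with
    | zero =>
      intro x y y' h h' _
      have h : x = y := h
      have h' : x = y' := h'
      subst h; subst h'
      exact Relation.ReflTransGen.refl
    | succ j ih =>
      rintro x y y' ⟨z, hz, r, hr, rfl⟩ ⟨z', hz', r', hr', rfl⟩ hx
      exact Estep z z' (ih x z z' hz hz' hx) (Fmz j x z hz hx) r hr r' hr'
  -- to reach `φ x`
  have Fφ : ∀ j (x y : V n), hammingDist x (φ x) = k → (∀ i, x i ≠ y i → i ∈ D φ x) →
      hammingDist x y = j → Fwd j x y ∧ ∀ b ∈ D φ x, x b = y b → b ∈ D φ y := by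
    intro j
    induction j with
    | zero =>
      intro x y hx _ hd
      rw [hammingDist_eq_zero] at hd
      subst hd
      exact ⟨rfl, fun b hb _ => hb⟩
    | succ j ih =>
      intro x y hx hsub hd
      obtain ⟨i, hi⟩ := exists_ne_of_hammingDist hd
      have e1 := hammingDist_flip_left (x := y) (y := x) (i := i) (Ne.symm hi)
      rw [hammingDist_comm y x, hammingDist_comm (flip y i) x, hd] at e1
      have hxi : x i = flip y i i := by
        rw [flip_same]
        cases h1 : x i <;> cases h2 : y i <;> simp_all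
      obtain ⟨f1, f2⟩ := ih x (flip y i) hx (by
        intro b hb
        by_cases hbi : b = i
        · subst hbi; exact hsub _ hi
        · rw [flip_of_ne _ hbi] at hb
          exact hsub b hb) (by omega)
      have hiD := f2 i (hsub i hi) hxi
      refine ⟨⟨flip y i, f1, i, hiD, (flip_flip y i).symm⟩, ?_⟩
      intro b hb hxb
      have hbi : b ≠ i := by rintro rfl; exact hi hxb
      have h3 := f2 b hb (by rw [flip_of_ne _ hbi]; exact hxb)
      have h4 := ((FW (Fmz j x _ f1 hx) hiD).2.2 b h3 hbi).1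
      rwa [flip_flip] at h4
  -- the sequence
  obtain ⟨a₀, ha₀⟩ := Dne u₀ hu₀
  let a : ℕ → Fin n := fun i => (π ^ i) a₀
  have ha_succ : ∀ i, a (i + 1) = π (a i) := by
    intro i
    simp only [a, pow_succ', Equiv.Perm.mul_apply]
  let v : ℕ → V n := fun i => Nat.rec u₀ (fun i x => flip x (a i)) i
  have hv_succ : ∀ i, v (i + 1) = flip (v i) (a i) := fun i => rfl
  have hv : ∀ i, hammingDist (v i) (φ (v i)) = k ∧ a i ∈ D φ (v i) := by
    intro i
    induction i with
    | zero => exact ⟨hu₀, ha₀⟩
    | succ i ih =>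
      have := FW ih.1 ih.2
      rw [hv_succ, ha_succ]
      exact ⟨this.1, this.2.1⟩
  let κ : ℕ → Bool := fun i => col c (v i) (a i)
  have hκ : ∀ i, κ (i + 1) = !(κ i) := by
    intro i
    obtain ⟨b, hb, hba, -⟩ := hthree (v i) (hv i).1 (a i) (a i)
    have h1 := (FW (hv i).1 (hv i).2).2.2 b hb hba
    have h2 := A1 (v i) (hv i).1 (a i) (hv i).2 b hb hba
    show col c (v (i+1)) (a (i+1)) = _
    rw [A2 (v (i+1)) (hv (i+1)).1 (a (i+1)) (hv (i+1)).2 b (by rw [hv_succ]; exact h1.1),
      hv_succ, h2]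
  have hκ2 : ∀ i, κ (i + 2) = κ i := fun i => (hκ (i + 1)).trans (by rw [hκ i]; simp)
  have hκ3 : ∀ i, κ (i + 3) = !(κ i) := fun i => (hκ (i + 2)).trans (by rw [hκ2 i])
  have hedge : ∀ i, Comp c (κ i) (v i) (v (i + 1)) := by
    intro i
    rw [hv_succ]
    exact comp_flip rfl
  have Fv : ∀ i j, Fwd j (v i) (v (i + j)) := by
    intro i j
    induction j with
    | zero => exact rfl
    | succ j ih =>
      exact ⟨v (i + j), ih, a (i + j), (hv (i + j)).2, rfl⟩
  -- φ (v i) lies in the component K_{i+k-1}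
  have hend : ∀ i, Comp c (κ (i + (k - 1))) (v (i + (k - 1))) (φ (v i)) := by
    intro i
    obtain ⟨m, rfl⟩ : ∃ m, k = m + 1 := ⟨k - 1, by omega⟩
    obtain ⟨⟨z, hz, r, hr, hzr⟩, -⟩ := Fφ (m + 1) (v i) (φ (v i)) (hv i).1
      (fun b hb => (mem_D φ).2 hb) (hv i).1
    have hE := FE m (v i) _ z (Fv i m) hz (hv i).1
    obtain ⟨h1, h2⟩ := Ecomp _ _ hE (hv (i + m)).1 _ (hv (i + m)).2 r hr
    rw [Nat.add_sub_cancel]
    show Comp c (κ (i + m)) _ _
    rw [hzr]
    exact h2.trans (comp_flip h1.symm)
  -- walking along the sequence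
  have hchain : ∀ (x : V n) (m j : ℕ), RK c m (κ j) x (v j) → ∀ s,
      RK c (m + s) (κ (j + s)) x (v (j + s)) := by
    intro x m j h s
    induction s with
    | zero => exact h
    | succ s ih =>
      have := (ih.comp (hedge (j + s))).succ
      rw [← hκ] at this
      exact this
  have M2 : ∀ i y, Comp c (κ i) (v i) y → Comp c (κ (i + 3)) (v (i + 3)) y → False := by
    intro i y h1 h2
    have h3 : RK c 0 (κ i) (v (i + 1)) y := (hedge i).symm.trans h1
    have h4 : RK c 1 (κ (i + 3)) (v (i + 1)) (v (i + 3)) := by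
      rw [hκ3 i] at h2 ⊢
      exact h3.succ.comp h2.symm
    have h5 := hchain (v (i + 1)) 1 (i + 3) h4 (k - 3)
    have e1 : i + 3 + (k - 3) = (i + 1) + (k - 1) := by omega
    rw [e1, show 1 + (k - 3) = k - 2 by omega] at h5
    exact hcon _ _ (h5.comp (hend (i + 1)))
  have M1 : ∀ i, ¬ Comp c (κ i) (v i) (v (i + 2)) := by
    intro i h1
    have h4 : RK c 0 (κ (i + 2)) (v i) (v (i + 2)) := by rw [hκ2 i]; exact h1
    have h5 := hchain (v i) 0 (i + 2) h4 (k - 3)
    have e1 : i + 2 + (k - 3) = i + (k - 1) := by omega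
    rw [e1] at h5
    have h6 := (h5.comp (hend i)).succ
    rw [show 0 + (k - 3) + 1 = k - 2 by omega] at h6
    exact hcon _ _ h6
  have M1' : ∀ i y, Comp c (κ i) (v i) y → Comp c (κ (i + 2)) (v (i + 2)) y → False := by
    intro i y h1 h2
    rw [hκ2 i] at h2
    exact M1 i (h1.trans h2.symm)
  -- the sweep
  obtain ⟨L, hL, hπL⟩ : ∃ L : ℕ, 0 < L ∧ π ^ L = 1 := ⟨orderOf π, orderOf_pos π, pow_orderOf_eq_one π⟩
  have haL : ∀ i, a (i + L) = a i := by
    intro i
    simp only [a, pow_add, hπL, mul_one]
  set e : Fin n := a 1 with he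
  have hsweep : ∀ s : ℕ, s < L → ∀ j, j + s + 1 = 2 + L →
      Comp c (κ j) (v j) (flip (v j) e) ∧ Comp c (κ (j + 1)) (v (j + 1)) (flip (v j) e) := by
    intro s
    induction s with
    | zero =>
      intro _ j hj
      have : e = a j := by
        have : j = 1 + L := by omega
        rw [this, haL]
      rw [this, ← hv_succ]
      exact ⟨hedge j, Comp.refl _⟩
    | succ s ih =>
      intro hs j hj
      obtain ⟨i1, i2⟩ := ih (by omega) (j + 1) (by omega)
      -- x = flip (v j) e ; x' = flip (v (j+1)) e = flip x (a j)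
      have hx' : flip (v (j + 1)) e = flip (flip (v j) e) (a j) := by
        rw [hv_succ, flip_comm]
      rw [hx'] at i1 i2
      obtain ⟨j', rfl⟩ : ∃ j', j = j' + 1 := ⟨j - 1, by omega⟩
      -- colours
      have k2 : κ (j' + 2) = κ j' := hκ2 j'
      have k1 : κ (j' + 1) = !(κ j') := hκ j'
      have k3 : κ (j' + 3) = !(κ j') := hκ3 j'
      by_cases hα : col c (v (j' + 1)) e = κ (j' + 1)
      · have hxK : Comp c (κ (j' + 1)) (v (j' + 1)) (flip (v (j' + 1)) e) := comp_flip hα
        by_cases hβ : col c (flip (v (j' + 1)) e) (a (j' + 1)) = κ (j' + 2)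
        · refine ⟨hxK, ?_⟩
          exact i1.trans (comp_flip (by rw [hβ])).symm
        · exfalso
          have hβ' : col c (flip (v (j' + 1)) e) (a (j' + 1)) = κ (j' + 3) := by
            rw [k3]; rw [k2] at hβ
            cases h1 : col c (flip (v (j' + 1)) e) (a (j' + 1)) <;> cases h2 : κ j' <;> simp_all
          exact M1' (j' + 1) _ hxK (i2.trans (comp_flip hβ').symm)
      · exfalso
        have hα' : col c (v (j' + 1)) e = κ j' := by
          rw [k1] at hα
          cases h1 : col c (v (j' + 1)) e <;> cases h2 : κ j' <;> simp_all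
        have hxK : Comp c (κ j') (v j') (flip (v (j' + 1)) e) := (hedge j').trans (comp_flip hα')
        by_cases hβ : col c (flip (v (j' + 1)) e) (a (j' + 1)) = κ (j' + 2)
        · exact M1' j' _ hxK (i1.trans (comp_flip hβ).symm)
        · have hβ' : col c (flip (v (j' + 1)) e) (a (j' + 1)) = κ (j' + 3) := by
            rw [k3]; rw [k2] at hβ
            cases h1 : col c (flip (v (j' + 1)) e) (a (j' + 1)) <;> cases h2 : κ j' <;> simp_all
          exact M2 j' _ hxK (i2.trans (comp_flip hβ').symm)
  obtain ⟨f1, f2⟩ := hsweep (L - 1) (by omega) 2 (by omega)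
  have hx : flip (v 2) e = v 1 := by
    show flip (flip (v 1) (a 1)) (a 1) = v 1
    rw [flip_flip]
  rw [hx] at f2
  exact M1' 1 (v 1) (Comp.refl _) f2

end Pool.Agent.CubeHom
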