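import Pool.Agent.Lib_MP_a0ec0b_co.Walks

set_option autoImplicit false

namespace Pool.Agent.Results.MP_a0ec0b_co.Displacement

open Pool.Agent.CubeHom

/-- The cube graph on `Fin n → Bool`: two vertices are adjacent when they differ in exactly one
coordinate. -/
def Cube (n : ℕ) : SimpleGraph (Fin n → Bool) :=
  SimpleGraph.fromRel fun x y : Fin n → Bool => hammingDist x y = 1

/-- Number of colour changes in a list of colours: the number of places where two consecutive
entries are different. -/
def colourChanges : List Bool → ℕ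
  | [] => 0
  | [_] => 0
  | a :: b :: l => (if a = b then 0 else 1) + colourChanges (b :: l)

theorem colourChanges_eq : ∀ l : List Bool, colourChanges l = changes l
  | [] => rfl
  | [_] => rfl
  | a :: b :: l => by
    simp only [colourChanges, changes]
    rw [colourChanges_eq (b :: l)]

/-- If an automorphism `φ` of the cube moves some vertex by distance `k`, then for every
2-colouring of the edges some vertex `u` is joined to `φ u` by a path with at most
`max 1 (k - 2)` colour changes. In particular there is such a path with at most one colour change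
whenever `φ` moves some vertex by distance at most three. -/
theorem result : ∀ (n : ℕ) (φ : Cube n ≃g Cube n) (u₀ : Fin n → Bool)
    (c : Sym2 (Fin n → Bool) → Bool),
    ∃ (u : Fin n → Bool) (p : (Cube n).Walk u (φ u)), p.IsPath ∧
      colourChanges (p.edges.map c) ≤ max 1 (hammingDist u₀ (φ u₀) - 2) := by
  intro n φ u₀ c
  simp only [colourChanges_eq]
  obtain ⟨π, hπ⟩ := aut_structure φ
  -- a minimiser of the displacement
  obtain ⟨u, -, hu⟩ := Finset.exists_min_image (Finset.univ : Finset (Fin n → Bool))
    (fun x => hammingDist x (φ x)) ⟨u₀, Finset.mem_univ _⟩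
  have hu' : ∀ x, hammingDist u (φ u) ≤ hammingDist x (φ x) := fun x => hu x (Finset.mem_univ _)
  have hle := hu' u₀
  suffices h : ∃ (u : Fin n → Bool) (m : ℕ) (κ : Bool),
      m ≤ max 1 (hammingDist u₀ (φ u₀) - 2) ∧ RK c m κ u (φ u) by
    obtain ⟨u, m, κ, hm, h⟩ := h
    obtain ⟨p, hp, hp'⟩ := path_of_RK h
    exact ⟨u, p, hp, hp'.trans hm⟩
  by_cases h3 : 3 ≤ hammingDist u (φ u)
  · obtain ⟨w, κ, hw⟩ := disp_core (c := c) (fun x => φ x) π hπ _ h3 hu' u rfl
    exact ⟨w, _, κ, by omega, hw⟩
  · -- displacement at most two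
    rcases Nat.eq_zero_or_pos (hammingDist u (φ u)) with h0 | h0
    · obtain ⟨κ, h⟩ := RK.extend (c := c) (φ u) 0 0 true u u (Comp.refl u) h0
      exact ⟨u, 0, κ, by omega, h⟩
    · obtain ⟨m, hm⟩ : ∃ m, hammingDist u (φ u) = m + 1 := ⟨_, (Nat.succ_pred_eq_of_pos h0).symm⟩
      obtain ⟨i, hi⟩ := exists_ne_of_hammingDist hm
      have h1 := hammingDist_flip_left hi
      obtain ⟨κ, h⟩ := RK.extend (c := c) (φ u) m 0 (col c u i) u (flip u i) (comp_flip rfl)
        (by omega)
      exact ⟨u, 0 + m, κ, by omega, h⟩

end Pool.Agent.Results.MP_a0ec0b_co.Displacement
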