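import Pool.Agent.Lib_MP_a0ec0b_co.Cube

set_option autoImplicit false

namespace Pool.Agent.CubeHom

variable {n : ℕ}

/-- colour of the edge of direction `i` at `x` -/
def col (c : Sym2 (V n) → Bool) (x : V n) (i : Fin n) : Bool := c s(x, flip x i)

theorem col_flip (c : Sym2 (V n) → Bool) (x : V n) (i : Fin n) :
    col c (flip x i) i = col c x i := by
  unfold col
  rw [flip_flip, Sym2.eq_swap]

/-- a step of colour `k` -/
def Step (c : Sym2 (V n) → Bool) (k : Bool) (a b : V n) : Prop := ∃ i, b = flip a i ∧ col c a i = k

/-- same component of colour `k` -/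
def Comp (c : Sym2 (V n) → Bool) (k : Bool) (x y : V n) : Prop :=
  Relation.ReflTransGen (Step c k) x y

variable {c : Sym2 (V n) → Bool} {k : Bool}

theorem Step.symm {a b : V n} (h : Step c k a b) : Step c k b a := by
  obtain ⟨i, rfl, h⟩ := h
  exact ⟨i, by simp, by rw [col_flip, h]⟩

theorem Comp.refl (x : V n) : Comp c k x x := Relation.ReflTransGen.refl

theorem Comp.symm {a b : V n} (h : Comp c k a b) : Comp c k b a := by
  unfold Comp at h ⊢
  induction h with
  | refl => exact Relation.ReflTransGen.refl
  | tail _ h2 ih => exact (Relation.ReflTransGen.single h2.symm).trans ih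

theorem Comp.trans {a b d : V n} (h : Comp c k a b) (h' : Comp c k b d) : Comp c k a d :=
  Relation.ReflTransGen.trans h h'

theorem comp_flip {x : V n} {i : Fin n} (h : col c x i = k) : Comp c k x (flip x i) :=
  Relation.ReflTransGen.single ⟨i, rfl, h⟩

theorem comp_congr {a b x : V n} (h : Comp c k a b) : Comp c k x a ↔ Comp c k x b :=
  ⟨fun h' => h'.trans h, fun h' => h'.trans h.symm⟩

/-- `x` lies in both monochromatic components of `u` -/
def Both (c : Sym2 (V n) → Bool) (u x : V n) : Prop := Comp c true u x ∧ Comp c false u x

theorem both_congr {a b u : V n} (h1 : Comp c true a b) (h2 : Comp c false a b) :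
    Both c u a ↔ Both c u b := by
  unfold Both
  rw [comp_congr h1, comp_congr h2]

open Classical in
/-- indicator -/
noncomputable def ind (c : Sym2 (V n) → Bool) (u x : V n) : ℤ := if Both c u x then 1 else 0

theorem ind_congr {a b u : V n} (h1 : Comp c true a b) (h2 : Comp c false a b) :
    ind c u a = ind c u b := by
  have h := both_congr (u := u) h1 h2
  unfold ind
  by_cases ha : Both c u a
  · rw [if_pos ha, if_pos (h.1 ha)]
  · rw [if_neg ha, if_neg fun hb => ha (h.2 hb)]

/-- no properly coloured 4-cycle -/
def NoProper (c : Sym2 (V n) → Bool) : Prop := ∀ x : V n, ∀ i j : Fin n, i ≠ j →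
  ¬ (col c x i ≠ col c (flip x i) j ∧ col c (flip x i) j ≠ col c (flip x j) i ∧
     col c (flip x j) i ≠ col c x j)

theorem side_exists (hc : NoProper c) (u : V n) :
    ∃ σ : V n → Bool,
      (∀ x i, ¬ Both c u x → ¬ Both c u (flip x i) → σ (flip x i) = σ x) ∧
      (∀ x i, Both c u x → ¬ Both c u (flip x i) → σ (flip x i) = col c x i) := by
  classical
  let w : V n → Fin n → ℤ := fun x i =>
    if col c x i = true then ind c u x - ind c u (flip x i) else 0
  obtain ⟨F, hF⟩ := exists_potential n w
    (by
      intro x i
      simp only [w, col_flip, flip_flip]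
      split_ifs <;> ring)
    (by
      intro x i j
      by_cases hij : i = j
      · subst hij; rfl
      simp only [w]
      have hsq : flip (flip x i) j = flip (flip x j) i := flip_comm x i j
      rw [hsq]
      -- abbreviations
      have hP := hc x i j hij
      have e1 : Comp c (col c x i) x (flip x i) := comp_flip rfl
      have e2 : Comp c (col c (flip x i) j) (flip x i) (flip (flip x j) i) := by
        have := comp_flip (c := c) (x := flip x i) (i := j) rfl
        rwa [hsq] at this
      have e3 : Comp c (col c x j) x (flip x j) := comp_flip rfl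
      have e4 : Comp c (col c (flip x j) i) (flip x j) (flip (flip x j) i) := comp_flip rfl
      revert hP e1 e2 e3 e4
      generalize col c x i = c1
      generalize col c (flip x i) j = c2
      generalize col c x j = c3
      generalize col c (flip x j) i = c4
      generalize flip (flip x j) i = d
      generalize flip x i = a
      generalize flip x j = b
      intro hP e1 e2 e3 e4
      cases c1 <;> cases c2 <;> cases c3 <;> cases c4 <;> simp at hP <;>
        simp only [if_true, if_false, Bool.false_eq_true]
      · -- F F F T : c4 true : b d true; d-a-x-b false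
        rw [ind_congr e4 (((e3.symm.trans e1).trans e2))]; ring
      · -- F F T F : x b true; x a d b false
        rw [ind_congr e3 ((e1.trans e2).trans e4.symm)]; ring
      · -- F F T T
        rw [ind_congr (e3.trans e4) (e1.trans e2)]; ring
      · -- F T F F
        rw [ind_congr e2 ((e1.symm.trans e3).trans e4)]; ring
      · -- F T F T
        rw [ind_congr (e2.trans e4.symm) (e1.symm.trans e3)]
      · -- F T T T : x a false ; x b d a true
        rw [ind_congr ((e3.trans e4).trans e2.symm) e1]; ring
      · -- T F F F
        rw [ind_congr e1 ((e3.trans e4).trans e2.symm)]; ring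
      · -- T F T F : a x b true ; a d b false
        rw [ind_congr (e1.symm.trans e3) (e2.trans e4.symm)]
      · -- T F T T
        rw [ind_congr ((e1.symm.trans e3).trans e4) e2]; ring
      · -- T T F F
        rw [ind_congr (e1.trans e2) (e3.trans e4)]; ring
      · -- T T F T
        rw [ind_congr ((e1.trans e2).trans e4.symm) e3]; ring
      · -- T T T F
        rw [ind_congr ((e3.symm.trans e1).trans e2) e4]; ring
      · -- T T T T
        ring)
  -- normalise
  set G : V n → ℤ := fun x => F x - F u with hG
  have hGs : ∀ x i, G (flip x i) = G x + w x i := by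
    intro x i
    simp only [hG, hF]; ring
  have hblue : ∀ x y, Comp c false x y → G y = G x := by
    intro x y h
    unfold Comp at h
    induction h with
    | refl => rfl
    | tail _ h2 ih =>
      obtain ⟨i, rfl, h2⟩ := h2
      rw [hGs, ih]
      simp [w, h2]
  have hu : G u = 0 := by simp [hG]
  have hboth : ∀ x, Both c u x → G x = 0 := fun x hx => by rw [hblue u x hx.2, hu]
  have hval : ∀ x, G x = 0 ∨ G x = 1 := by
    intro x
    refine closed_univ (P := fun x => G x = 0 ∨ G x = 1) ?_ (x := u) (y := x) (Or.inl hu)
    intro x i hx
    by_cases hb : Both c u (flip x i)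
    · exact Or.inl (hboth _ hb)
    · rw [hGs]
      by_cases hcol : col c x i = true
      · have h0 : ind c u (flip x i) = 0 := by simp [ind, hb]
        by_cases hbx : Both c u x
        · have h1 : ind c u x = 1 := by simp [ind, hbx]
          right
          simp only [w, hcol, if_true, h0, h1, hboth x hbx]
          norm_num
        · have h1 : ind c u x = 0 := by simp [ind, hbx]
          simpa only [w, hcol, if_true, h0, h1, sub_zero, add_zero] using hx
      · have h0 : w x i = 0 := if_neg hcol
        rw [h0, add_zero]
        exact hx
  refine ⟨fun x => decide (G x = 1), ?_, ?_⟩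
  · intro x i h1 h2
    have : w x i = 0 := by
      simp only [w]
      split_ifs
      · simp [ind, h1, h2]
      · rfl
    simp only [hGs, this, add_zero]
  · intro x i h1 h2
    have hx := hboth x h1
    by_cases hcol : col c x i = true
    · have : w x i = 1 := by
        simp only [w, hcol, if_true]
        simp [ind, h1, h2]
      simp [hGs, this, hx, hcol]
    · have : w x i = 0 := if_neg hcol
      simp [hGs, this, hx, hcol]

/-- Main combinatorial theorem : a colouring without properly coloured 4-cycles and any map that
sends adjacent vertices to adjacent or equal vertices. -/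
theorem mono_core (hc : NoProper c) (φ : V n → V n)
    (hφ : ∀ x i, φ (flip x i) = φ x ∨ ∃ j, φ (flip x i) = flip (φ x) j) :
    ∃ (u : V n) (k : Bool), Comp c k u (φ u) := by
  classical
  by_contra hcon
  push Not at hcon
  choose σ hσ1 hσ2 using fun u => side_exists hc u
  -- `σ` depends only on the class of `u`
  have bothsymm : ∀ {u u'}, Both c u u' → Both c u' u := fun h => ⟨h.1.symm, h.2.symm⟩
  have bothtrans : ∀ {u u' x}, Both c u u' → (Both c u' x ↔ Both c u x) := by
    intro u u' x h
    exact ⟨fun h' => ⟨h.1.trans h'.1, h.2.trans h'.2⟩,
      fun h' => ⟨h.1.symm.trans h'.1, h.2.symm.trans h'.2⟩⟩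
  have hdep : ∀ u u', Both c u u' → ∀ x, ¬ Both c u x → σ u' x = σ u x := by
    intro u u' huu
    by_contra hne
    push Not at hne
    obtain ⟨x, hx, hne⟩ := hne
    have := closed_univ (P := fun x => ¬ Both c u x ∧ σ u' x ≠ σ u x) (x := x) (y := u) ?_ ⟨hx, hne⟩
    · exact this.1 ⟨Comp.refl _, Comp.refl _⟩
    · rintro y i ⟨h1, h2⟩
      have h1' : ¬ Both c u' y := fun h => h1 ((bothtrans huu).1 h)
      by_cases hb : Both c u (flip y i)
      · exfalso
        have e1 := hσ2 u (flip y i) i hb (by rwa [flip_flip])
        have e2 := hσ2 u' (flip y i) i ((bothtrans huu).2 hb) (by rwa [flip_flip])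
        rw [flip_flip] at e1 e2
        exact h2 (e2.trans e1.symm)
      · refine ⟨hb, ?_⟩
        rw [hσ1 u y i h1 hb, hσ1 u' y i h1' (fun h => hb ((bothtrans huu).1 h))]
        exact h2
  have bself : ∀ u, Both c u u := fun u => ⟨Comp.refl _, Comp.refl _⟩
  have hnb : ∀ u x, Both c u x → ∀ k, Comp c k u x := by
    intro u x h k; cases k
    · exact h.2
    · exact h.1
  -- if `y` is in the `k`-component of `u` but not in both, it is on the `k`-side
  have hside : ∀ (k : Bool) (u y : V n), Comp c k u y → ¬ Both c u y → σ u y = k := by
    intro k u y h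
    unfold Comp at h
    induction h with
    | refl => intro h; exact absurd (bself u) h
    | @tail b d hb hs ih =>
      intro hnot
      obtain ⟨i, rfl, hi⟩ := hs
      by_cases hbb : Both c u b
      · rw [hσ2 u b i hbb hnot, hi]
      · rw [hσ1 u b i hbb hnot, ih hbb]
  have hcl : ∀ (k : Bool) (x : V n) (i : Fin n), ∀ r, Comp c k r x → ¬ Comp c k r (flip x i) →
      col c x i = !k := by
    intro k x i r h1 h2
    by_contra h
    apply h2
    refine h1.trans (comp_flip ?_)
    cases k <;> cases hh : col c x i <;> simp_all
  -- the minimal counterexample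
  let S : V n → Finset (V n) := fun u =>
    Finset.univ.filter fun w => ¬ Both c u w ∧ σ u w = σ u (φ u)
  obtain ⟨u, -, hmin⟩ := Finset.exists_min_image (Finset.univ : Finset (V n))
    (fun u => (S u).card) ⟨fun _ => false, Finset.mem_univ _⟩
  set k := σ u (φ u) with hk
  -- a vertex u' of the k-component of u that sees φ u on its other side
  obtain ⟨u', hu', hu'2⟩ : ∃ u', Comp c k u u' ∧ σ u' (φ u) = !k := by
    by_contra hno
    push Not at hno
    have := closed_univ (P := fun x => ¬ Comp c k u x ∧ ∀ u', Comp c k u u' → σ u' x = k)
      (x := φ u) (y := u) ?_ ⟨hcon u k, ?_⟩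
    · exact this.1 (Comp.refl _)
    · rintro x i ⟨h1, h2⟩
      by_cases hy : Comp c k u (flip x i)
      · exfalso
        have h3 : col c (flip x i) i = !k := hcl k (flip x i) i u hy (by rwa [flip_flip])
        have h4 := h2 (flip x i) hy
        by_cases hb : Both c (flip x i) x
        · exact h1 (hy.trans (hnb _ _ hb k))
        · have h5 := hσ2 (flip x i) (flip x i) i (bself _) (by rwa [flip_flip])
          rw [flip_flip, h3] at h5
          rw [h5] at h4
          cases k <;> simp at h4
      · refine ⟨hy, fun u' hu' => ?_⟩
        rw [hσ1 u' x i, h2 u' hu']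
        · intro h; exact h1 (hu'.trans (hnb _ _ h k))
        · intro h; exact hy (hu'.trans (hnb _ _ h k))
    · intro u' hu'
      have := hno u' hu'
      revert this
      cases σ u' (φ u) <;> cases k <;> simp
  have hφu : ∀ x, ¬ Both c x (φ x) := fun x h => hcon x k (hnb _ _ h k)
  have hnotboth : ¬ Both c u u' := by
    intro h
    have := hdep u u' h (φ u) (hφu u)
    rw [hu'2, ← hk] at this
    cases k <;> simp at this
  -- φ u' is on the same side of u' as φ u
  have hmove : σ u' (φ u') = !k := by
    -- all φ x, x in the k-component of u, have the same σ u'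
    have : ∀ x, Comp c k u x → σ u' (φ x) = !k := by
      intro x hx
      have hx' := hx
      unfold Comp at hx
      induction hx with
      | refl => exact hu'2
      | @tail b d hb hs ih =>
        have ihb := ih hb
        obtain ⟨i, rfl, hi⟩ := hs
        rcases hφ b i with h | ⟨j, h⟩
        · rw [h, ihb]
        · rw [h, hσ1, ihb]
          · intro hB
            exact hcon b k ((Comp.symm hb).trans (hu'.trans (hnb _ _ hB k)))
          · intro hB
            rw [← h] at hB
            exact hcon _ k ((Comp.symm hx').trans (hu'.trans (hnb _ _ hB k)))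
    exact this u' hu'
  -- S u' is strictly contained in S u
  have hsub : S u' ⊂ S u := by
    rw [Finset.ssubset_iff_of_subset]
    · refine ⟨u', ?_, ?_⟩
      · simp only [S, Finset.mem_filter, Finset.mem_univ, true_and]
        exact ⟨hnotboth, hside k u u' hu' hnotboth⟩
      · simp only [S, Finset.mem_filter, Finset.mem_univ, true_and, not_and]
        intro h; exact absurd (bself u') h
    · intro x hx
      simp only [S, Finset.mem_filter, Finset.mem_univ, true_and] at hx ⊢
      rw [hmove] at hx
      by_contra hbad
      have hxr : ¬ Comp c k u x := by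
        intro h
        have := hside k u' x (hu'.symm.trans h) hx.1
        rw [hx.2] at this
        cases k <;> simp at this
      have hxb : ¬ Both c u x := fun h => hxr (hnb _ _ h k)
      have hx2 : σ u x ≠ k := fun h => hbad ⟨hxb, h⟩
      have := closed_univ (P := fun x => ¬ Comp c k u x ∧ σ u' x = (!k) ∧ σ u x ≠ k)
        (x := x) (y := u) ?_ ⟨hxr, hx.2, hx2⟩
      · exact this.1 (Comp.refl _)
      · rintro y i ⟨h1, h2, h3⟩
        have n1 : ¬ Both c u y := fun h => h1 (hnb _ _ h k)
        have n2 : ¬ Both c u' y := fun h => h1 (hu'.trans (hnb _ _ h k))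
        by_cases hy : Comp c k u (flip y i)
        · exfalso
          -- then `flip y i` is in both classes
          have b1 : Both c u (flip y i) := by
            by_contra hb
            have e1 := hside k u _ hy hb
            rw [hσ1 u y i n1 hb] at e1
            exact h3 e1
          have b2 : Both c u' (flip y i) := by
            by_contra hb
            have e1 := hside k u' _ (hu'.symm.trans hy) hb
            rw [hσ1 u' y i n2 hb, h2] at e1
            cases k <;> simp at e1
          exact hnotboth ((bothtrans b1).1 (bothsymm b2))
        · refine ⟨hy, ?_, ?_⟩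
          · rw [hσ1 u' y i n2 (fun h => hy (hu'.trans (hnb _ _ h k))), h2]
          · rw [hσ1 u y i n1 (fun h => hy (hnb _ _ h k))]
            exact h3
  have := Finset.card_lt_card hsub
  have := hmin u' (Finset.mem_univ _)
  omega

end Pool.Agent.CubeHom
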