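import Pool.Agent.Lib_MP_a0ec0b_co.OneVan

/-!
# The core theorem for antipodal labellings

If `r` is a labelling of the vertices of the cube such that for every edge `vw` either
`r v = r w` or `r v̄ = r w̄`, then `r v = r v̄` for some `v`.
-/

set_option autoImplicit false

namespace Pool.Agent.TwoChanges

open Finset Matrix

variable {n : ℕ} {r : Finset (Fin n) → ℕ} {M : ℕ}

/-- support without hypotheses -/
theorem e_congr0 (hM : ∀ v, r v < M) (v w : Finset (Fin n)) (Ψ Φ : Finset ℕ → ZMod 2)
    (h : ∀ A, r w ∈ A → (∀ a ∈ A, a < M) → (1 ≤ (w \ v).card → ∃ a ∈ A, ∃ b ∈ A, a ≠ b) →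
      Ψ A = Φ A) : e r v w Ψ = e r v w Φ :=
  e_congr (N := fun _ => Set.univ) (fun _ => trivial) hM (fun _ _ _ _ => rfl) v w Ψ Φ
    (fun A hA => h A hA.2.1 hA.2.2.1 hA.2.2.2)

theorem e_smul (v w : Finset (Fin n)) (c : ZMod 2) (Ψ : Finset ℕ → ZMod 2) :
    e r v w (fun A => c * Ψ A) = c * e r v w Ψ := by
  have hc : c = 0 ∨ c = 1 := by revert c; decide
  rcases hc with rfl | rfl
  · simp only [zero_mul]; exact e_zero r v w
  · simp only [one_mul]

theorem e_expand (hM : ∀ v, r v < M) (v w : Finset (Fin n)) (Ψ : Finset ℕ → ZMod 2) :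
    e r v w Ψ = ∑ A ∈ (range M).powerset, Ψ A * e r v w (ind A) := by
  have h1 : e r v w Ψ = e r v w (fun B => ∑ A ∈ (range M).powerset, Ψ A * ind A B) := by
    refine e_congr0 hM v w _ _ fun B _ hB _ => ?_
    have hB' : B ∈ (range M).powerset := by
      rw [mem_powerset]
      intro b hb
      exact mem_range.2 (hB b hb)
    unfold ind
    simp only [mul_ite, mul_one, mul_zero]
    rw [sum_ite_eq (range M).powerset B Ψ, if_pos hB']
  rw [h1, e_sum]
  simp only [e_smul]

theorem sum_h_zero (hE : EdgeC r) (hne : ∀ v, r v ≠ r vᶜ) (hM : ∀ v, r v < M)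
    (h : Finset ℕ → Finset ℕ → ZMod 2)
    (hh : ∀ A ∈ (range M).powerset, ∀ B ∈ (range M).powerset, Disjoint A B → h A B = 0)
    (v w : Finset (Fin n)) :
    ∑ x ∈ Icc v w, e r v x (fun A => e r wᶜ xᶜ (fun B => h A B)) = 0 := by
  have h1 : ∀ x ∈ Icc v w, e r v x (fun A => e r wᶜ xᶜ (fun B => h A B)) =
      ∑ A ∈ (range M).powerset, ∑ B ∈ (range M).powerset,
        h A B * (EMat r A v x * FMat r B x w) := by
    intro x hx
    rw [mem_Icc] at hx
    rw [e_expand hM]
    refine sum_congr rfl fun A _ => ?_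
    rw [e_expand hM wᶜ xᶜ, sum_mul]
    refine sum_congr rfl fun B _ => ?_
    have e1 : EMat r A v x = e r v x (ind A) := by unfold EMat; rw [if_pos hx.1]
    have e2 : FMat r B x w = e r wᶜ xᶜ (ind B) := by
      unfold FMat
      rw [tau_apply]
      unfold EMat
      rw [if_pos (compl_subset_compl.2 hx.2)]
    rw [e1, e2]
    ring
  rw [sum_congr rfl h1, sum_comm]
  refine sum_eq_zero fun A hA => ?_
  rw [sum_comm]
  refine sum_eq_zero fun B hB => ?_
  rw [← mul_sum]
  by_cases hd : Disjoint A B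
  · rw [hh A hA B hB hd, zero_mul]
  · have h2 : ∑ x ∈ Icc v w, EMat r A v x * FMat r B x w = (EMat r A * FMat r B) v w := by
      rw [Matrix.mul_apply]
      refine sum_subset (subset_univ _) fun x _ hx => ?_
      rw [mem_Icc, not_and_or] at hx
      rcases hx with hx | hx
      · have : EMat r A v x = 0 := by unfold EMat; rw [if_neg hx]
        rw [this, zero_mul]
      · have : FMat r B x w = 0 := by
          unfold FMat
          rw [tau_apply]
          unfold EMat
          rw [if_neg (fun h => hx (compl_subset_compl.1 h))]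
        rw [this, mul_zero]
    obtain ⟨c, hcA, hcB⟩ := Finset.not_disjoint_iff.1 hd
    rw [h2, vanish hE hne hcB _ A rfl hcA]
    simp

/-- the defect of the boundary identity -/
def hdef (M : ℕ) (A B : Finset ℕ) : ZMod 2 :=
  q M A B + q M B A + (bd (fun A' => q M A' B) A + bd (fun B' => q M A B') B)

theorem hdef_zero {A B : Finset ℕ} (hA : A ∈ (range M).powerset) (hB : B ∈ (range M).powerset)
    (hd : Disjoint A B) : hdef M A B = 0 := by
  unfold hdef bd
  rw [q_identity' hd (fun a ha => mem_range.1 (mem_powerset.1 hA ha))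
    (fun b hb => mem_range.1 (mem_powerset.1 hB hb))]
  exact add_self_zmod2 _

theorem term_identity1 (hM : ∀ v, r v < M) {v w x : Finset (Fin n)} (hvx : v ⊆ x) (hxw : x ⊆ w)
    (hne : v ≠ w) :
    G r M v x w x + G r M wᶜ xᶜ vᶜ xᶜ +
      e r v x (fun A => e r wᶜ xᶜ (fun B => hdef M A B)) =
      ∑ i ∈ x \ v, (G r M v (x.erase i) w x + G r M (insert i v) x w x) +
      ∑ i ∈ w \ x, (G r M v x w (insert i x) + G r M v x (w.erase i) x) := by
  have h1 : G r M wᶜ xᶜ vᶜ xᶜ = e r v x (fun A => e r wᶜ xᶜ (fun B => q M B A)) := by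
    unfold G
    rw [compl_compl, compl_compl, e_comm]
  have h2 : G r M v x w x + G r M wᶜ xᶜ vᶜ xᶜ +
      e r v x (fun A => e r wᶜ xᶜ (fun B => hdef M A B)) =
      e r v x (fun A => e r wᶜ xᶜ (fun B => bd (fun A' => q M A' B) A)) +
      e r v x (fun A => e r wᶜ xᶜ (bd (fun B => q M A B))) := by
    rw [h1]
    unfold G
    rw [← e_add, ← e_add, ← e_add]
    congr 1
    funext A
    rw [← e_add, ← e_add, ← e_add]
    congr 1
    funext B
    unfold hdef
    have := add_self_zmod2 (q M A B + q M B A)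
    linear_combination this
  rw [h2]
  congr 1
  · rw [e_comm]
    by_cases hx : v = x
    · subst hx
      simp only [e_self, Finset.sdiff_self, sum_empty]
      rw [← e_zero r wᶜ vᶜ]
      refine e_congr0 hM _ _ _ _ fun B hB hB2 _ => ?_
      simp only [bd, sum_singleton, erase_singleton]
      exact q_empty_left ⟨_, hB, hM _⟩
    · have h3 : (fun B => e r v x (fun A => bd (fun A' => q M A' B) A)) = fun B =>
          ∑ i ∈ x \ v, (e r v (x.erase i) (fun A => q M A B) +
            e r (insert i v) x (fun A => q M A B)) := by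
        funext B
        exact e_bd r hvx hx _
      rw [h3, e_sum]
      refine sum_congr rfl fun i _ => ?_
      rw [e_add]
      unfold G
      rw [e_comm, e_comm r wᶜ xᶜ (insert i v) x]
  · by_cases hx : x = w
    · subst hx
      simp only [e_self, Finset.sdiff_self, sum_empty]
      rw [← e_zero r v x]
      refine e_congr0 hM _ _ _ _ fun A hA hA2 hA3 => ?_
      simp only [bd, sum_singleton, erase_singleton]
      have hcard : 1 ≤ (x \ v).card := by
        rw [Nat.one_le_iff_ne_zero, Ne, card_eq_zero, sdiff_eq_empty_iff_subset]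
        intro h
        exact hne (Subset.antisymm hvx h)
      obtain ⟨a, ha, b, hb, hab⟩ := hA3 hcard
      exact q_empty_right ⟨a, ha, b, hb, hab, hA2 a ha, hA2 b hb⟩
    · have hcc : wᶜ ⊆ xᶜ := compl_subset_compl.2 hxw
      have hcn : wᶜ ≠ xᶜ := fun h => hx (compl_injective h).symm
      have hsd : xᶜ \ wᶜ = w \ x := by
        ext j; simp only [mem_sdiff, mem_compl]; tauto
      have h3 : (fun A => e r wᶜ xᶜ (bd (fun B => q M A B))) = fun A =>
          ∑ i ∈ w \ x, (e r wᶜ (insert i x)ᶜ (fun B => q M A B) +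
            e r (w.erase i)ᶜ xᶜ (fun B => q M A B)) := by
        funext A
        rw [e_bd r hcc hcn, hsd]
        refine sum_congr rfl fun i _ => ?_
        rw [compl_insert', compl_erase']
      rw [h3, e_sum]
      refine sum_congr rfl fun i _ => ?_
      rw [e_add]
      rfl

/-- summation of the interior terms (only combinatorics of the cube) -/
theorem Th_sum (r : Finset (Fin n) → ℕ) (M : ℕ) (v w : Finset (Fin n)) :
    ∑ x ∈ Icc v w, (∑ i ∈ x \ v, (G r M v (x.erase i) w x + G r M (insert i v) x w x) +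
      ∑ i ∈ w \ x, (G r M v x w (insert i x) + G r M v x (w.erase i) x)) =
      ∑ i ∈ w \ v, (Th r M (insert i v) w + Th r M v (w.erase i)) := by
  unfold Th
  simp only [sum_add_distrib]
  have hT : ∑ x ∈ Icc v w, ∑ i ∈ x \ v, G r M v (x.erase i) w x =
      ∑ x ∈ Icc v w, ∑ i ∈ w \ x, G r M v x w (insert i x) := by
    rw [sum_sigma', sum_sigma']
    refine sum_bij' (fun p _ => ⟨p.1.erase p.2, p.2⟩) (fun p _ => ⟨insert p.2 p.1, p.2⟩)
      ?_ ?_ ?_ ?_ ?_
    · rintro ⟨x, i⟩ h
      simp only [mem_sigma, mem_Icc, mem_sdiff] at h ⊢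
      refine ⟨⟨fun j hj => mem_erase.2 ⟨fun hji => h.2.2 (hji ▸ hj), h.1.1 hj⟩,
        (erase_subset _ _).trans h.1.2⟩, h.1.2 h.2.1, by simp⟩
    · rintro ⟨x, i⟩ h
      simp only [mem_sigma, mem_Icc, mem_sdiff] at h ⊢
      refine ⟨⟨h.1.1.trans (subset_insert _ _), insert_subset h.2.1 h.1.2⟩, by simp, ?_⟩
      intro hi
      exact h.2.2 (h.1.1 hi)
    · rintro ⟨x, i⟩ h
      simp only [mem_sigma, mem_Icc, mem_sdiff] at h
      simp [insert_erase h.2.1]
    · rintro ⟨x, i⟩ h
      simp only [mem_sigma, mem_Icc, mem_sdiff] at h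
      simp [erase_insert h.2.2]
    · rintro ⟨x, i⟩ h
      simp only [mem_sigma, mem_Icc, mem_sdiff] at h
      simp [insert_erase h.2.1]
  have hT2 : ∑ x ∈ Icc v w, ∑ i ∈ x \ v, G r M (insert i v) x w x =
      ∑ i ∈ w \ v, ∑ x ∈ Icc (insert i v) w, G r M (insert i v) x w x := by
    refine sum_comm' ?_
    intro x i
    simp only [mem_Icc, mem_sdiff, insert_subset_iff]
    constructor
    · rintro ⟨⟨h1, h2⟩, h3, h4⟩; exact ⟨⟨⟨h3, h1⟩, h2⟩, h2 h3, h4⟩
    · rintro ⟨⟨⟨h3, h1⟩, h2⟩, _, h4⟩; exact ⟨⟨h1, h2⟩, h3, h4⟩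
  have hT4 : ∑ x ∈ Icc v w, ∑ i ∈ w \ x, G r M v x (w.erase i) x =
      ∑ i ∈ w \ v, ∑ x ∈ Icc v (w.erase i), G r M v x (w.erase i) x := by
    refine sum_comm' ?_
    intro x i
    simp only [mem_Icc, mem_sdiff, subset_erase]
    constructor
    · rintro ⟨⟨h1, h2⟩, h3, h4⟩; exact ⟨⟨h1, h2, h4⟩, h3, fun h => h4 (h1 h)⟩
    · rintro ⟨⟨h1, h2, h4⟩, h3, _⟩; exact ⟨⟨h1, h2⟩, h3, h4⟩
  rw [hT, hT2, hT4]
  have hcc : ∀ a b c : ZMod 2, a + b + (a + c) = b + c := by
    intro a b c
    have := add_self_zmod2 a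
    linear_combination this
  exact hcc _ _ _

/-- the boundary identity for antipodal labellings -/
theorem Th_bd1 (hE : EdgeC r) (hne : ∀ v, r v ≠ r vᶜ) (hM : ∀ v, r v < M)
    {v w : Finset (Fin n)} (hvw : v ≠ w) :
    ∑ i ∈ w \ v, (Th r M (insert i v) w + Th r M v (w.erase i)) =
      Th r M v w + Th r M wᶜ vᶜ := by
  have h1 : Th r M wᶜ vᶜ = ∑ x ∈ Icc v w, G r M wᶜ xᶜ vᶜ xᶜ := by
    unfold Th
    refine sum_bij' (fun x _ => xᶜ) (fun x _ => xᶜ) ?_ ?_ ?_ ?_ ?_
    · intro x hx
      rw [mem_Icc] at hx ⊢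
      exact ⟨by rw [← compl_compl v]; exact compl_le_compl hx.2,
        by rw [← compl_compl w]; exact compl_le_compl hx.1⟩
    · intro x hx
      rw [mem_Icc] at hx ⊢
      exact ⟨compl_le_compl hx.2, compl_le_compl hx.1⟩
    · intro x _; exact compl_compl x
    · intro x _; exact compl_compl x
    · intro x _; rw [compl_compl]
  have h0 := sum_h_zero hE hne hM (hdef M) (fun A hA B hB hd => hdef_zero hA hB hd) v w
  rw [← Th_sum r M v w, h1]
  have h3 : ∑ x ∈ Icc v w, (G r M v x w x + G r M wᶜ xᶜ vᶜ xᶜ +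
      e r v x (fun A => e r wᶜ xᶜ (fun B => hdef M A B))) =
      ∑ x ∈ Icc v w, (∑ i ∈ x \ v, (G r M v (x.erase i) w x + G r M (insert i v) x w x) +
      ∑ i ∈ w \ x, (G r M v x w (insert i x) + G r M v x (w.erase i) x)) := by
    refine sum_congr rfl fun x hx => ?_
    rw [mem_Icc] at hx
    exact term_identity1 hM hx.1 hx.2 hvw
  rw [← h3, sum_add_distrib, h0, add_zero, sum_add_distrib]
  rfl

theorem Th_vertex1 (hne : ∀ v, r v ≠ r vᶜ) (hM : ∀ v, r v < M) (v : Finset (Fin n)) :
    Th r M v v + Th r M vᶜ vᶜ = 1 := by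
  unfold Th
  simp only [Icc_self, sum_singleton, G, e_self, compl_compl]
  exact q_singletons (hne v) (hM _) (hM _)

/-- the topological part: no function on faces with these two identities -/
theorem no_Th {n : ℕ} (Θ : Finset (Fin n) → Finset (Fin n) → ZMod 2)
    (h0 : ∀ v, Θ v v + Θ vᶜ vᶜ = 1)
    (h1 : ∀ v w, v ⊆ w → v ≠ w →
      ∑ i ∈ w \ v, (Θ (insert i v) w + Θ v (w.erase i)) = Θ v w + Θ wᶜ vᶜ) : False := by
  refine no_theta (fun σ : Face n => Θ (bot σ) (top σ)) fun σ => ?_
  simp only [bot_fl, top_fl]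
  have hD : DD (fun σ => Θ (bot σ) (top σ)) σ = ∑ i ∈ top σ \ bot σ,
      (Θ (insert i (bot σ)) (top σ) + Θ (bot σ) ((top σ).erase i)) := by
    unfold DD
    rw [← sum_filter]
    have hs : (univ.filter fun i => σ i = none) = top σ \ bot σ := by
      ext i
      simp only [bot, top, mem_filter, mem_univ, true_and, mem_sdiff]
      rcases σ i with _ | _ | _ <;> simp
    rw [hs]
    refine sum_congr rfl fun i hi => ?_
    have hi' : σ i = none := by
      rw [← hs] at hi
      simpa using hi
    have e1 : bot (Function.update σ i (some false)) = bot σ := by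
      ext j
      simp only [bot, mem_filter, mem_univ, true_and]
      by_cases h : j = i
      · subst h; simp [hi']
      · simp [Function.update_of_ne h]
    have e2 : top (Function.update σ i (some false)) = (top σ).erase i := by
      ext j
      simp only [top, mem_filter, mem_univ, true_and, mem_erase]
      by_cases h : j = i
      · subst h; simp
      · simp [h]
    have e3 : bot (Function.update σ i (some true)) = insert i (bot σ) := by
      ext j
      simp only [bot, mem_filter, mem_univ, true_and, mem_insert]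
      by_cases h : j = i
      · subst h; simp
      · simp [h]
    have e4 : top (Function.update σ i (some true)) = top σ := by
      ext j
      simp only [top, mem_filter, mem_univ, true_and]
      by_cases h : j = i
      · subst h; simp [hi']
      · simp [Function.update_of_ne h]
    beta_reduce
    rw [e1, e2, e3, e4, add_comm]
  rw [hD]
  by_cases hv : ∀ i, σ i ≠ none
  · have hbt : bot σ = top σ := by
      ext i
      simp only [bot, top, mem_filter, mem_univ, true_and]
      have := hv i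
      rcases h : σ i with _ | _ | _
      · exact absurd h this
      · simp
      · simp
    rw [hbt, Finset.sdiff_self, sum_empty, h0]
    unfold vert
    rw [if_pos hv, add_self_zmod2]
  · have hne : bot σ ≠ top σ := by
      intro h
      apply hv
      intro i hi
      have : i ∈ bot σ := by rw [h]; simp [top, hi]
      simp [bot, hi] at this
    have hsub : bot σ ⊆ top σ := by
      intro i hi
      simp only [bot, top, mem_filter, mem_univ, true_and] at hi ⊢
      rw [hi]
      simp
    rw [h1 _ _ hsub hne]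
    unfold vert
    rw [if_neg hv, add_zero]

/-- **Core theorem for antipodal labellings.** -/
theorem one_core (r : Finset (Fin n) → ℕ) (hE : EdgeC r) : ∃ v, r v = r vᶜ := by
  by_contra hcon
  have hne : ∀ v, r v ≠ r vᶜ := fun v hv => hcon ⟨v, hv⟩
  obtain ⟨M, hM⟩ : ∃ M, ∀ v, r v < M := by
    refine ⟨(univ.sup r) + 1, fun v => ?_⟩
    exact Nat.lt_succ_of_le (Finset.le_sup (f := r) (mem_univ v))
  exact no_Th (Th r M) (Th_vertex1 hne hM) (fun v w _ h => Th_bd1 hE hne hM h)

end Pool.Agent.TwoChanges
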