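import Pool.Agent.Lib_MP_a0ec0b_co.TwoFace

/-!
# Matrices over `ZMod 2` indexed by the vertices of the cube

`U` is the up operator (`U * U = 0`). For a labelling `r` with `r v ≠ r vᶜ` such that every edge
preserves `r` or the antipodal label, the products of label words sharing a label vanish.
-/

set_option autoImplicit false

namespace Pool.Agent.TwoChanges

open Finset Matrix

variable {n : ℕ}

/-- matrices indexed by the vertices -/
abbrev Mt (n : ℕ) := Matrix (Finset (Fin n)) (Finset (Fin n)) (ZMod 2)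

/-- the up operator -/
def U : Mt n := fun v w => ∑ i ∈ vᶜ, if w = insert i v then 1 else 0

theorem U_mul (X : Mt n) (v w : Finset (Fin n)) :
    ((U : Mt n) * X : Mt n) v w = ∑ i ∈ vᶜ, X (insert i v) w := by
  rw [Matrix.mul_apply]
  simp only [U, sum_mul, ite_mul, one_mul, zero_mul]
  rw [sum_comm]
  refine sum_congr rfl fun i _ => ?_
  rw [sum_ite_eq' univ (insert i v) (fun x => X x w), if_pos (mem_univ _)]

theorem U_eq (v w : Finset (Fin n)) : U v w = ∑ i ∈ w, if v = w.erase i then (1 : ZMod 2) else 0 := by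
  unfold U
  rw [← sum_filter, ← sum_filter]
  have : vᶜ.filter (fun i => w = insert i v) = w.filter (fun i => v = w.erase i) := by
    ext i
    simp only [mem_filter, mem_compl]
    constructor
    · rintro ⟨h1, rfl⟩
      exact ⟨by simp, by rw [erase_insert h1]⟩
    · rintro ⟨h1, rfl⟩
      exact ⟨by simp, by rw [insert_erase h1]⟩
  rw [this]

theorem mul_U (X : Mt n) (v w : Finset (Fin n)) :
    (X * (U : Mt n) : Mt n) v w = ∑ i ∈ w, X v (w.erase i) := by
  rw [Matrix.mul_apply]
  simp only [U_eq, mul_sum, mul_ite, mul_one, mul_zero]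
  rw [sum_comm]
  refine sum_congr rfl fun i _ => ?_
  rw [sum_ite_eq' univ (w.erase i) (fun x => X v x), if_pos (mem_univ _)]

theorem U_ne_zero {v w : Finset (Fin n)} (h : U v w ≠ 0) : ∃ i, i ∉ v ∧ w = insert i v := by
  obtain ⟨i, hi, h2⟩ := Finset.exists_ne_zero_of_sum_ne_zero h
  refine ⟨i, by simpa using hi, ?_⟩
  by_contra hc
  rw [if_neg hc] at h2
  exact h2 rfl

theorem U_mul_U : (U : Mt n) * U = 0 := by
  ext v w
  rw [U_mul]
  have h1 : ∀ i ∈ vᶜ, (U : Mt n) (insert i v) w =
      ∑ j ∈ vᶜ.erase i, if w = insert j (insert i v) then (1 : ZMod 2) else 0 := by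
    intro i _
    unfold U
    have : (insert i v)ᶜ = vᶜ.erase i := compl_insert' v i
    rw [this]
  rw [sum_congr rfl h1, sum_sum_symm vᶜ (fun i j => if w = insert j (insert i v) then 1 else 0)
    (fun i _ j _ => by rw [Finset.insert_comm])]
  rfl

/-- projection on a state -/
def Dg (f : Finset (Fin n) → Prop) [DecidablePred f] : Mt n :=
  Matrix.diagonal fun v => if f v then 1 else 0

theorem Dg_mul (f : Finset (Fin n) → Prop) [DecidablePred f] (X : Mt n) (v w : Finset (Fin n)) :
    (Dg f * X) v w = if f v then X v w else 0 := by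
  unfold Dg
  rw [Matrix.diagonal_mul]
  split_ifs <;> simp

theorem mul_Dg (f : Finset (Fin n) → Prop) [DecidablePred f] (X : Mt n) (v w : Finset (Fin n)) :
    (X * Dg f) v w = if f w then X v w else 0 := by
  unfold Dg
  rw [Matrix.mul_diagonal]
  split_ifs <;> simp

variable (r : Finset (Fin n) → ℕ)

/-- projection on the vertices with label `a` -/
def D (a : ℕ) : Mt n := Dg fun v => r v = a

/-- projection on the vertices with antipodal label `b` -/
def D' (b : ℕ) : Mt n := Dg fun v => r vᶜ = b

/-- both -/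
def P (a b : ℕ) : Mt n := Dg fun v => r v = a ∧ r vᶜ = b

theorem D_D' (a b : ℕ) : D r a * D' r b = P r a b := by
  ext v w
  unfold D D' P
  rw [Dg_mul]
  simp only [Dg, Matrix.diagonal_apply]
  by_cases h1 : r v = a <;> by_cases h2 : r vᶜ = b <;> simp [h1, h2]

theorem D'_D (a b : ℕ) : D' r b * D r a = P r a b := by
  ext v w
  unfold D D' P
  rw [Dg_mul]
  simp only [Dg, Matrix.diagonal_apply]
  by_cases h1 : r v = a <;> by_cases h2 : r vᶜ = b <;> simp [h1, h2]

/-- the edge condition -/
def EdgeC : Prop := ∀ v i, i ∉ v → r v = r (insert i v) ∨ r vᶜ = r (insert i v)ᶜ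

variable {r}

/-- row propagation -/
theorem row_prop (hE : EdgeC r) {a b b1 : ℕ} (hb : b ≠ b1) :
    P r a b * U * D' r b1 = P r a b * U * P r a b1 := by
  ext v w
  unfold P D'
  rw [mul_Dg, mul_Dg, Dg_mul]
  by_cases hU : U v w = 0
  · simp [hU]
  · obtain ⟨i, hi, rfl⟩ := U_ne_zero hU
    by_cases h1 : r v = a ∧ r vᶜ = b
    · by_cases h2 : r (insert i v)ᶜ = b1
      · have h3 : r (insert i v) = a := by
          rcases hE v i hi with h | h
          · rw [← h]; exact h1.1
          · exfalso; apply hb; rw [← h1.2, h, h2]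
        rw [if_pos h2, if_pos h1, if_pos ⟨h3, h2⟩]
      · rw [if_neg h2, if_neg (fun h => h2 h.2)]
    · rw [if_neg h1]; split_ifs <;> rfl

/-- column propagation -/
theorem col_prop (hE : EdgeC r) {a1 a b : ℕ} (ha : a1 ≠ a) :
    D r a1 * U * P r a b = P r a1 b * U * P r a b := by
  ext v w
  unfold P D
  rw [mul_Dg, mul_Dg, Dg_mul, Dg_mul]
  by_cases hU : U v w = 0
  · simp [hU]
  · obtain ⟨i, hi, rfl⟩ := U_ne_zero hU
    by_cases h1 : r (insert i v) = a ∧ r (insert i v)ᶜ = b
    · rw [if_pos h1, if_pos h1]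
      by_cases h2 : r v = a1
      · have h3 : r vᶜ = b := by
          rcases hE v i hi with h | h
          · exfalso; apply ha; rw [← h1.1, ← h, h2]
          · rw [h]; exact h1.2
        simp [h2, h3]
      · simp [h2]
    · rw [if_neg h1, if_neg h1]

/-- column propagation, other side -/
theorem col_prop' (hE : EdgeC r) {a1 a b : ℕ} (ha : a1 ≠ a) :
    P r a1 b * U * D r a = P r a1 b * U * P r a b := by
  ext v w
  unfold P D
  rw [mul_Dg, mul_Dg, Dg_mul]
  by_cases hU : U v w = 0
  · simp [hU]
  · obtain ⟨i, hi, rfl⟩ := U_ne_zero hU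
    by_cases h1 : r v = a1 ∧ r vᶜ = b
    · by_cases h2 : r (insert i v) = a
      · have h3 : r (insert i v)ᶜ = b := by
          rcases hE v i hi with h | h
          · exfalso; apply ha; rw [← h1.1, h, h2]
          · rw [← h]; exact h1.2
        rw [if_pos h2, if_pos h1, if_pos ⟨h2, h3⟩]
      · rw [if_neg h2, if_neg (fun h => h2 h.1)]
    · rw [if_neg h1]; split_ifs <;> rfl

/-- the flip -/
theorem flip_eq (hE : EdgeC r) {a1 a b b1 : ℕ} (ha : a1 ≠ a) (hb : b ≠ b1) :
    P r a1 b * U * P r a b * U * P r a b1 = P r a1 b * U * P r a1 b1 * U * P r a b1 := by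
  have h0 : P r a1 b * U * (P r a b + P r a1 b1) * U * P r a b1 =
      P r a1 b * (U * U) * P r a b1 := by
    have e1 : P r a1 b * U * (P r a b + P r a1 b1) * U * P r a b1 =
        P r a1 b * (U * (P r a b + P r a1 b1) * U) * P r a b1 := by
      simp only [Matrix.mul_assoc]
    rw [e1]
    ext v w
    unfold P
    rw [mul_Dg, mul_Dg, Dg_mul, Dg_mul]
    by_cases hw : r w = a ∧ r wᶜ = b1
    · rw [if_pos hw, if_pos hw]
      by_cases hv : r v = a1 ∧ r vᶜ = b
      · rw [if_pos hv, if_pos hv, Matrix.mul_apply, Matrix.mul_apply]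
        refine sum_congr rfl fun x _ => ?_
        have e2 : (U * (Dg (fun v => r v = a ∧ r vᶜ = b) + Dg fun v => r v = a1 ∧ r vᶜ = b1) :
            Mt n) v x = (if r x = a ∧ r xᶜ = b then U v x else 0) +
              (if r x = a1 ∧ r xᶜ = b1 then U v x else 0) := by
          rw [Matrix.mul_add, Matrix.add_apply, mul_Dg, mul_Dg]
        rw [e2]
        by_cases hU1 : U v x = 0
        · simp [hU1]
        by_cases hU2 : U x w = 0
        · simp [hU2]
        obtain ⟨i, hi, hx⟩ := U_ne_zero hU1
        obtain ⟨j, hj, hw'⟩ := U_ne_zero hU2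
        have c1 := hE v i hi
        have c2 := hE x j hj
        rw [← hx] at c1
        rw [← hw'] at c2
        rw [hv.1, hv.2] at c1
        rw [hw.1, hw.2] at c2
        congr 1
        by_cases h1 : r x = a ∧ r xᶜ = b
        · have h2 : ¬ (r x = a1 ∧ r xᶜ = b1) := fun h => ha (h.1.symm.trans h1.1)
          rw [if_pos h1, if_neg h2, add_zero]
        · have h2 : r x = a1 ∧ r xᶜ = b1 := by
            rcases c1 with c1 | c1
            · rcases c2 with c2 | c2
              · exact absurd (c1.trans c2) ha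
              · exact ⟨c1.symm, c2⟩
            · rcases c2 with c2 | c2
              · exact absurd ⟨c2, c1.symm⟩ h1
              · exact absurd (c1.trans c2) hb
          rw [if_neg h1, if_pos h2, zero_add]
      · rw [if_neg hv, if_neg hv]
    · rw [if_neg hw, if_neg hw]
  rw [U_mul_U, Matrix.mul_zero, Matrix.zero_mul] at h0
  have h1 : P r a1 b * U * P r a b * U * P r a b1 + P r a1 b * U * P r a1 b1 * U * P r a b1 = 0 := by
    rw [← h0]
    simp only [Matrix.mul_add, Matrix.add_mul]
  have h2 := eq_neg_of_add_eq_zero_left h1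
  rw [h2]
  ext v w
  rw [Matrix.neg_apply]
  exact CharTwo.neg_eq _

end Pool.Agent.TwoChanges
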