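import Pool.Agent.Lib_MP_a0ec0b_co.Disp

set_option autoImplicit false

namespace Pool.Agent.CubeHom

/-- number of colour changes in a sequence of colours -/
def changes : List Bool → ℕ
  | [] => 0
  | [_] => 0
  | a :: b :: l => (if a = b then 0 else 1) + changes (b :: l)

theorem changes_head (a b : Bool) (l : List Bool) : changes (a :: l) ≤ 1 + changes (b :: l) := by
  cases l with
  | nil => simp [changes]
  | cons d l => simp only [changes]; split_ifs <;> omega

theorem changes_tail (a : Bool) (l : List Bool) : changes l ≤ changes (a :: l) := by
  cases l with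
  | nil => simp [changes]
  | cons d l => simp only [changes]; omega

theorem changes_cons_sublist {l₁ l₂ : List Bool} (h : l₁.Sublist l₂) :
    ∀ a, changes (a :: l₁) ≤ changes (a :: l₂) := by
  induction h with
  | slnil => intro a; exact le_rfl
  | @cons l₁ l₂ b _ ih =>
    intro a
    by_cases hab : a = b
    · subst hab
      simp only [changes, if_true, Nat.zero_add]
      exact ih a
    · simp only [changes, if_neg hab]
      exact (changes_head a b l₁).trans (Nat.add_le_add_left (ih b) 1)
  | @cons_cons l₁ l₂ b _ ih =>
    intro a
    simp only [changes]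
    exact Nat.add_le_add_left (ih b) _

theorem changes_sublist {l₁ l₂ : List Bool} (h : l₁.Sublist l₂) : changes l₁ ≤ changes l₂ := by
  induction h with
  | slnil => exact le_rfl
  | @cons l₁ l₂ b _ ih => exact ih.trans (changes_tail b l₂)
  | @cons_cons l₁ l₂ b h _ => exact changes_cons_sublist h b

theorem changes_const (k : Bool) : ∀ l : List Bool, (∀ a ∈ l, a = k) → changes l = 0
  | [], _ => rfl
  | [_], _ => rfl
  | a :: b :: l, h => by
    have h1 := h a (by simp)
    have h2 := h b (by simp)
    simp only [changes]
    rw [if_pos (h1.trans h2.symm), changes_const k (b :: l) fun x hx => h x (by simp at hx ⊢; tauto)]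

theorem changes_append (l₁ l₂ : List Bool) :
    changes (l₁ ++ l₂) ≤ changes l₁ + 1 + changes l₂ := by
  induction l₁ with
  | nil => simp [changes]
  | cons a l₁ ih =>
    cases l₁ with
    | nil =>
      cases l₂ with
      | nil => simp [changes]
      | cons b l₂ => simp only [List.cons_append, List.nil_append, changes]; split_ifs <;> omega
    | cons b l₁ =>
      simp only [List.cons_append, changes] at ih ⊢
      omega

variable {n : ℕ} {c : Sym2 (V n) → Bool}

theorem walk_of_comp {k : Bool} {x y : V n} (h : Comp c k x y) :
    ∃ p : (Q n).Walk x y, ∀ e ∈ p.edges, c e = k := by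
  unfold Comp at h
  induction h with
  | refl => exact ⟨SimpleGraph.Walk.nil, by simp⟩
  | @tail b d _ h2 ih =>
    obtain ⟨p, hp⟩ := ih
    obtain ⟨i, rfl, hi⟩ := h2
    refine ⟨p.concat (adj_flip b i), ?_⟩
    intro e he
    rw [SimpleGraph.Walk.edges_concat] at he
    simp only [List.concat_eq_append, List.mem_append, List.mem_singleton] at he
    rcases he with he | rfl
    · exact hp e he
    · exact hi

theorem walk_of_RK : ∀ {m : ℕ} {k : Bool} {x y : V n}, RK c m k x y →
    ∃ p : (Q n).Walk x y, changes (p.edges.map c) ≤ m := by
  intro m
  induction m with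
  | zero =>
    intro k x y h
    obtain ⟨p, hp⟩ := walk_of_comp h
    refine ⟨p, ?_⟩
    rw [changes_const k]
    intro a ha
    rw [List.mem_map] at ha
    obtain ⟨e, he, rfl⟩ := ha
    exact hp e he
  | succ m ih =>
    rintro k x y ⟨z, h1, h2⟩
    obtain ⟨p, hp⟩ := ih h1
    obtain ⟨q, hq⟩ := walk_of_comp h2
    refine ⟨p.append q, ?_⟩
    rw [SimpleGraph.Walk.edges_append, List.map_append]
    have h3 : changes (q.edges.map c) = 0 := by
      refine changes_const k _ ?_
      intro a ha
      rw [List.mem_map] at ha
      obtain ⟨e, he, rfl⟩ := ha
      exact hq e he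
    have := changes_append (p.edges.map c) (q.edges.map c)
    omega

theorem path_of_RK {m : ℕ} {k : Bool} {x y : V n} (h : RK c m k x y) :
    ∃ p : (Q n).Walk x y, p.IsPath ∧ changes (p.edges.map c) ≤ m := by
  classical
  obtain ⟨p, hp⟩ := walk_of_RK h
  refine ⟨p.bypass, p.bypass_isPath, ?_⟩
  exact (changes_sublist ((p.edges_bypass_sublist_edges).map c)).trans hp

theorem split_of_changes_zero {α : Type*} (f : α → Bool) :
    ∀ E : List α, changes (E.map f) = 0 → ∀ e ∈ E, ∀ e' ∈ E, f e = f e' := by
  have key : ∀ (a : α) (E : List α), changes ((a :: E).map f) = 0 → ∀ e ∈ E, f e = f a := by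
    intro a E
    induction E generalizing a with
    | nil => intro _ e he; simp at he
    | cons b E ih =>
      intro h e he
      simp only [List.map_cons, changes] at h
      have h1 : f a = f b := by
        by_contra hne
        rw [if_neg hne] at h
        omega
      rw [if_pos h1] at h
      have h2 := ih b (by simpa using h)
      rcases List.mem_cons.1 he with rfl | he
      · exact h1.symm
      · rw [h2 e he, h1]
  intro E
  cases E with
  | nil => intro _ e he; simp at he
  | cons a E =>
    intro h e he e' he'
    have h1 : f e = f a := by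
      rcases List.mem_cons.1 he with rfl | he
      · rfl
      · exact key a E h e he
    have h2 : f e' = f a := by
      rcases List.mem_cons.1 he' with rfl | he'
      · rfl
      · exact key a E h e' he'
    rw [h1, h2]

theorem split_of_changes_one {α : Type*} (f : α → Bool) :
    ∀ E : List α, changes (E.map f) ≤ 1 → ∃ e₁ e₂ : List α, E = e₁ ++ e₂ ∧
      (∀ e ∈ e₁, ∀ e' ∈ e₁, f e = f e') ∧ (∀ e ∈ e₂, ∀ e' ∈ e₂, f e = f e') := by
  intro E
  induction E with
  | nil => intro _; exact ⟨[], [], rfl, by simp, by simp⟩
  | cons a E ih =>
    cases E with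
    | nil => intro _; exact ⟨[a], [], rfl, by simp, by simp⟩
    | cons b E =>
      intro h
      simp only [List.map_cons, changes] at h
      by_cases hab : f a = f b
      · rw [if_pos hab] at h
        obtain ⟨e₁, e₂, h1, h2, h3⟩ := ih (by simpa using h)
        cases e₁ with
        | nil =>
          simp only [List.nil_append] at h1
          exact ⟨[a], b :: E, rfl, by simp, by rw [h1]; exact h3⟩
        | cons d e₁ =>
          simp only [List.cons_append, List.cons.injEq] at h1
          obtain ⟨rfl, rfl⟩ := h1
          refine ⟨a :: b :: e₁, e₂, rfl, ?_, h3⟩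
          have key : ∀ e ∈ a :: b :: e₁, f e = f b := by
            intro e he
            rcases List.mem_cons.1 he with rfl | he
            · exact hab
            · exact h2 e he b (by simp)
          intro e he e' he'
          rw [key e he, key e' he']
      · rw [if_neg hab] at h
        exact ⟨[a], b :: E, rfl, by simp, split_of_changes_zero f _ (by
          have : changes (List.map f (b :: E)) = 0 := by
            simp only [List.map_cons]; omega
          exact this)⟩

/-- structure of the automorphisms of the cube -/
theorem aut_structure (φ : Q n ≃g Q n) :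
    ∃ π : Equiv.Perm (Fin n), ∀ x i, φ (flip x i) = flip (φ x) (π i) := by
  classical
  have hex : ∀ x i, ∃ j, φ (flip x i) = flip (φ x) j := by
    intro x i
    have := (φ.map_adj_iff).2 (adj_flip x i)
    rwa [adj_iff] at this
  choose g hg using hex
  have ginj : ∀ x i j, g x i = g x j → i = j := by
    intro x i j h
    have h1 : φ (flip x i) = φ (flip x j) := by rw [hg, hg, h]
    exact flip_inj x (φ.injective h1)
  -- two flips
  have two : ∀ (y : V n) (a b d e : Fin n), flip (flip y a) b = flip (flip y d) e → a ≠ b → a ≠ d →
      a = e ∧ b = d := by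
    intro y a b d e h hab had
    have h1 := congrFun h a
    rw [flip_of_ne _ hab, flip_same] at h1
    have hae : a = e := by
      by_contra hae
      rw [flip_of_ne _ hae, flip_of_ne _ had] at h1
      simp at h1
    refine ⟨hae, ?_⟩
    subst hae
    have h2 : flip (flip y a) b = flip (flip y a) d := by rw [h, flip_comm]
    exact flip_inj _ h2
  have hconst : ∀ x i j, g (flip x i) j = g x j := by
    intro x i j
    by_cases hij : i = j
    · subst hij
      have h1 : φ x = flip (flip (φ x) (g x i)) (g (flip x i) i) := by
        rw [← hg x i, ← hg (flip x i) i, flip_flip]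
      have h2 : flip (φ x) (g (flip x i) i) = flip (φ x) (g x i) := by
        conv_lhs => rw [h1]
        rw [flip_flip]
      exact flip_inj _ h2
    · have h1 : flip (flip (φ x) (g x i)) (g (flip x i) j)
          = flip (flip (φ x) (g x j)) (g (flip x j) i) := by
        rw [← hg, ← hg, ← hg, ← hg, flip_comm]
      have hne : g x i ≠ g x j := fun h => hij (ginj x i j h)
      have hne2 : g x i ≠ g (flip x i) j := by
        intro h
        rw [← h, flip_flip] at h1
        have h2 : φ x = φ (flip (flip x j) i) := by rw [hg, hg]; exact h1
        have h3 := congrFun (φ.injective h2) i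
        rw [flip_same, flip_of_ne _ hij] at h3
        simp at h3
      exact (two _ _ _ _ _ h1 hne2 hne).2
  have hall : ∀ x j, g x j = g (fun _ => false) j := by
    intro x j
    exact closed_univ (P := fun x => g x j = g (fun _ => false) j)
      (fun x i hx => by rw [hconst, hx]) (x := fun _ => false) rfl
  have hinj : Function.Injective (g fun _ => false) := fun i j h => ginj _ i j h
  refine ⟨Equiv.ofBijective _ (Finite.injective_iff_bijective.1 hinj), ?_⟩
  intro x i
  rw [hg, hall]
  rfl

end Pool.Agent.CubeHom
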