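import Pool.Agent.Lib_MP_a0ec0b_co.OneCore
import Pool.Agent.Lib_MP_a0ec0b_co.Walks

/-!
# From labellings to colourings of the edges of the cube
-/

set_option autoImplicit false

namespace Pool.Agent.CubeHom

open Finset

variable {n : ℕ}

/-- the setoid of the components of colour `k` -/
def cst (c : Sym2 (V n) → Bool) (k : Bool) : Setoid (V n) where
  r := Comp c k
  iseqv := ⟨Comp.refl, Comp.symm, Comp.trans⟩

/-- numbering of the components of colour `k` -/
noncomputable def lab (c : Sym2 (V n) → Bool) (k : Bool) (x : V n) : ℕ :=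
  (Finite.equivFin (Quotient (cst c k)) (Quotient.mk (cst c k) x) : ℕ)

theorem lab_eq (c : Sym2 (V n) → Bool) (k : Bool) (x y : V n) :
    lab c k x = lab c k y ↔ Comp c k x y := by
  unfold lab
  constructor
  · intro h
    have h1 := (Finite.equivFin (Quotient (cst c k))).injective (Fin.val_injective h)
    exact Quotient.exact h1
  · intro h
    have h1 : Quotient.mk (cst c k) x = Quotient.mk (cst c k) y := Quotient.sound h
    rw [h1]

/-- an antipodal face: a parametrised face on which the map acts as the antipodal map -/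
structure AntiFace (φ : V n → V n) (m : ℕ) where
  /-- parametrisation of the vertices of the face -/
  pt : Finset (Fin m) → V n
  /-- directions -/
  dir : Fin m → Fin n
  hpt : ∀ s i, i ∉ s → pt (insert i s) = flip (pt s) (dir i)
  hanti : ∀ s, φ (pt s) = pt sᶜ

/-- antipodal labellings on an antipodal face -/
theorem face_mono {φ : V n → V n} {m : ℕ} (F : AntiFace φ m) (c : Sym2 (V n) → Bool) (k : Bool)
    (hc : ∀ s i, i ∉ s → col c (F.pt s) (F.dir i) = k ∨
      c s(φ (F.pt s), φ (flip (F.pt s) (F.dir i))) = k) :
    ∃ x, Comp c k x (φ x) := by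
  obtain ⟨s, hs⟩ := Pool.Agent.TwoChanges.one_core (fun s => lab c k (F.pt s)) (by
    intro s i hi
    rcases hc s i hi with h | h
    · left
      simp only [lab_eq]
      rw [F.hpt s i hi]
      exact comp_flip h
    · right
      simp only [lab_eq]
      have h1 : i ∉ (insert i s)ᶜ := by simp
      have h2 : insert i (insert i s)ᶜ = sᶜ := by
        ext j; simp only [mem_insert, mem_compl]
        by_cases hj : j = i
        · subst hj; simp [hi]
        · simp [hj]
      have h3 := F.hpt (insert i s)ᶜ i h1
      rw [h2] at h3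
      have h4 : φ (flip (F.pt s) (F.dir i)) = F.pt (insert i s)ᶜ := by
        rw [← F.hpt s i hi, F.hanti]
      rw [F.hanti, h4, h3, Sym2.eq_swap] at h
      have h5 : Comp c k (F.pt (insert i s)ᶜ) (flip (F.pt (insert i s)ᶜ) (F.dir i)) := comp_flip h
      rw [h3]
      exact h5.symm)
  refine ⟨F.pt s, ?_⟩
  rw [F.hanti]
  exact (lab_eq c k _ _).1 hs

/-- two changes on an antipodal face -/
theorem face_two {φ : V n → V n} {m : ℕ} (F : AntiFace φ m) (c : Sym2 (V n) → Bool) (k : Bool) :
    ∃ x y z, Comp c k x y ∧ Comp c (!k) y z ∧ Comp c k z (φ x) := by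
  obtain ⟨s, b, ⟨y, hy1, hy2⟩, ⟨z, hz1, hz2⟩⟩ := Pool.Agent.TwoChanges.core
    (fun s => lab c (!k) (F.pt s)) (fun s => {b | ∃ y, Comp c k (F.pt s) y ∧ lab c (!k) y = b})
    ((univ.sup (fun s => lab c (!k) (F.pt s))) + 1)
    (fun s => ⟨F.pt s, Comp.refl _, rfl⟩)
    (fun s => Nat.lt_succ_of_le (Finset.le_sup (f := fun s => lab c (!k) (F.pt s)) (mem_univ s)))
    (by
      intro s i hi hne
      have h1 : Comp c k (F.pt s) (F.pt (insert i s)) := by
        rw [F.hpt s i hi]
        by_contra hcon
        apply hne
        simp only [lab_eq]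
        rw [F.hpt s i hi]
        apply comp_flip
        by_contra h2
        apply hcon
        apply comp_flip
        cases k <;> cases hh : col c (F.pt s) (F.dir i) <;> simp_all
      ext b
      constructor
      · rintro ⟨y, h2, h3⟩
        exact ⟨y, h1.symm.trans h2, h3⟩
      · rintro ⟨y, h2, h3⟩
        exact ⟨y, h1.trans h2, h3⟩)
  refine ⟨F.pt s, y, z, hy1, ?_, ?_⟩
  · rw [← lab_eq, hy2, hz2]
  · rw [F.hanti]
    exact hz1.symm

/-- list of the coordinates where `x` is flipped -/
def flipOn (x : V n) (t : Finset (Fin n)) : V n := fun i => if i ∈ t then !x i else x i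

theorem flipOn_insert (x : V n) {t : Finset (Fin n)} {i : Fin n} (hi : i ∉ t) :
    flipOn x (insert i t) = flip (flipOn x t) i := by
  funext j
  by_cases hj : j = i
  · subst hj
    rw [flip_same]
    simp [flipOn, hi]
  · rw [flip_of_ne _ hj]
    simp [flipOn, hj]

theorem flipOn_empty (x : V n) : flipOn x ∅ = x := by
  funext j; simp [flipOn]

/-- if `φ` has a vertex `u` such that every direction in which `u` and `φ u` differ is fixed by
`φ`, then `φ` has an antipodal face -/
theorem exists_antiFace (φ : V n → V n) (π : Equiv.Perm (Fin n))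
    (hπ : ∀ x i, φ (flip x i) = flip (φ x) (π i)) (u : V n)
    (hu : ∀ i, u i ≠ φ u i → π i = i) : ∃ m, Nonempty (AntiFace φ m) := by
  classical
  set D : Finset (Fin n) := univ.filter fun i => u i ≠ φ u i with hD
  let f : Fin D.card ≃ D := (D.equivFin).symm
  have hf : ∀ j, (f j : Fin n) ∈ D := fun j => (f j).2
  let g : Fin D.card → Fin n := fun j => (f j : Fin n)
  have hg : Function.Injective g := fun a b h => f.injective (Subtype.ext h)
  have hgD : ∀ i ∈ D, ∃ j, g j = i := fun i hi => ⟨f.symm ⟨i, hi⟩, by simp [g]⟩
  have hφ : ∀ t : Finset (Fin n), t ⊆ D → φ (flipOn u t) = flipOn (φ u) t := by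
    intro t
    induction t using Finset.induction_on with
    | empty => intro _; rw [flipOn_empty, flipOn_empty]
    | insert i t hi ih =>
      intro ht
      have hiD : i ∈ D := ht (mem_insert_self i t)
      rw [flipOn_insert _ hi, hπ, ih ((subset_insert i t).trans ht), flipOn_insert _ hi,
        hu i (by simpa [hD] using hiD)]
  refine ⟨D.card, ⟨⟨fun s => flipOn u (s.image g), g, ?_, ?_⟩⟩⟩
  · intro s i hi
    rw [image_insert]
    apply flipOn_insert
    rw [mem_image]
    rintro ⟨j, hj, hji⟩
    exact hi (hg hji ▸ hj)
  · intro s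
    have hsub : s.image g ⊆ D := by
      intro i hi
      obtain ⟨j, _, rfl⟩ := mem_image.1 hi
      exact hf j
    rw [hφ _ hsub]
    funext i
    unfold flipOn
    by_cases hi : i ∈ D
    · obtain ⟨j, rfl⟩ := hgD i hi
      have h1 : g j ∈ s.image g ↔ j ∈ s := by
        rw [mem_image]
        exact ⟨fun ⟨a, ha, hab⟩ => hg hab ▸ ha, fun h => ⟨j, h, rfl⟩⟩
      have h2 : g j ∈ sᶜ.image g ↔ j ∉ s := by
        rw [mem_image]
        refine ⟨fun ⟨a, ha, hab⟩ => ?_, fun h => ⟨j, by simpa using h, rfl⟩⟩
        have := hg hab
        subst this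
        simpa using ha
      have h3 : φ u (g j) = !u (g j) := by
        have : u (g j) ≠ φ u (g j) := by simpa [hD] using hi
        cases h4 : u (g j) <;> cases h5 : φ u (g j) <;> simp_all
      by_cases hj : j ∈ s
      · rw [if_pos (h1.2 hj), if_neg (fun h => (h2.1 h) hj), h3, Bool.not_not]
      · rw [if_neg (fun h => hj (h1.1 h)), if_pos (h2.2 hj), h3]
    · have h1 : i ∉ s.image g := fun h => hi (hsub h)
      have h2 : i ∉ sᶜ.image g := by
        intro h
        obtain ⟨j, _, rfl⟩ := mem_image.1 h
        exact hi (hf j)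
      rw [if_neg h1, if_neg h2]
      by_contra h
      exact hi (by simpa [hD] using fun h' => h h'.symm)

/-- every involutive automorphism has an antipodal face -/
theorem involution_antiFace (φ : V n → V n) (π : Equiv.Perm (Fin n))
    (hπ : ∀ x i, φ (flip x i) = flip (φ x) (π i)) (hinv : ∀ x, φ (φ x) = x) :
    ∃ m, Nonempty (AntiFace φ m) := by
  classical
  -- choose `u` with minimal displacement
  obtain ⟨u, _, hu⟩ := Finset.exists_min_image (univ : Finset (V n)) (fun x => hammingDist x (φ x))
    ⟨fun _ => true, mem_univ _⟩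
  refine exists_antiFace φ π hπ u fun i hi => ?_
  by_contra hne
  set j := π i with hj
  -- `u` and `φ u` differ at `i` ; flip `i`
  have h1 : φ (flip u i) = flip (φ u) j := hπ u i
  -- `π j = i`
  have hπj : π j = i := by
    have h2 : φ (φ (flip u i)) = flip u i := hinv _
    rw [h1, hπ, hinv] at h2
    exact flip_inj u h2
  have hji : j ≠ i := hne
  have hmin := hu (flip u i) (mem_univ _)
  rw [h1] at hmin
  -- at `j` they must be equal
  have hagree : u j = φ u j := by
    by_contra hd
    have e1 := hammingDist_flip_left (x := u) (y := φ u) (i := i) hi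
    have e3 : (φ u) j ≠ (flip u i) j := by
      rw [flip_of_ne _ hji]; exact fun h => hd h.symm
    have e4 := hammingDist_flip_left (x := φ u) (y := flip u i) (i := j) e3
    rw [hammingDist_comm (φ u) (flip u i), hammingDist_comm (flip (φ u) j) (flip u i)] at e4
    omega
  -- parity: the pair (i, j) is sign-even
  -- compare `φ` on `u` and on `φ u`
  -- `φ` restricted to coordinates i, j : (φ x) j depends only on x i
  have key : ∀ x y : V n, x i = y i → φ x j = φ y j := by
    intro x y hxy
    have : ∀ z, (z i = x i → φ z j = φ x j) ∧ (z i ≠ x i → φ z j ≠ φ x j) := by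
      intro z
      refine closed_univ (P := fun z => (z i = x i → φ z j = φ x j) ∧
        (z i ≠ x i → φ z j ≠ φ x j)) ?_ (x := x) ⟨fun _ => rfl, fun h => absurd rfl h⟩
      intro z l hz
      rw [hπ]
      by_cases hl : l = i
      · subst hl
        rw [flip_same, ← hj, flip_same]
        constructor
        · intro h
          have : z l ≠ x l := by rw [← h]; simp
          have := hz.2 this
          cases h3 : φ z j <;> cases h4 : φ x j <;> simp_all
        · intro h
          have : z l = x l := by cases h3 : z l <;> cases h4 : x l <;> simp_all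
          rw [hz.1 this]
          simp
      · have hlj : π l ≠ j := fun h => hl (π.injective (by rw [h, hj]))
        rw [flip_of_ne _ (fun h => hl h.symm), flip_of_ne _ (fun h => hlj h.symm)]
        exact hz
    exact ((this y).1 hxy.symm).symm
  have key' : ∀ x y : V n, x j = y j → φ x i = φ y i := by
    intro x y hxy
    have : ∀ z, (z j = x j → φ z i = φ x i) ∧ (z j ≠ x j → φ z i ≠ φ x i) := by
      intro z
      refine closed_univ (P := fun z => (z j = x j → φ z i = φ x i) ∧
        (z j ≠ x j → φ z i ≠ φ x i)) ?_ (x := x) ⟨fun _ => rfl, fun h => absurd rfl h⟩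
      intro z l hz
      rw [hπ]
      by_cases hl : l = j
      · rw [hl, flip_same, hπj, flip_same]
        constructor
        · intro h
          have : z j ≠ x j := by rw [← h]; simp
          have := hz.2 this
          cases h3 : φ z i <;> cases h4 : φ x i <;> simp_all
        · intro h
          have : z j = x j := by cases h3 : z j <;> cases h4 : x j <;> simp_all
          rw [hz.1 this]
          simp
      · have hlj : π l ≠ i := fun h => hl (π.injective (by rw [h, hπj]))
        rw [flip_of_ne _ (fun h => hl h.symm), flip_of_ne _ (fun h => hlj h.symm)]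
        exact hz
    exact ((this y).1 hxy.symm).symm
  -- u j = φ u j, hence φ u i = φ (φ u) i = u i
  have h3 : φ u i = φ (φ u) i := key' u (φ u) hagree
  rw [hinv] at h3
  exact hi h3.symm

end Pool.Agent.CubeHom
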