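import Pool.Agent.Lib_MP_a0ec0b_co.OneMat

/-!
# The vanishing lemma

For a labelling `r` with `r v ≠ r vᶜ` such that every edge preserves `r` or the antipodal label,
the number of chains whose lower part has label set `A` and whose upper part has antipodal label
set `B` is even as soon as `A` and `B` intersect.
-/

set_option autoImplicit false

namespace Pool.Agent.TwoChanges

open Finset Matrix

variable {n : ℕ}

/-- the antipodal transposition -/
def tau (X : Mt n) : Mt n := fun v w => X wᶜ vᶜ

theorem tau_apply (X : Mt n) (v w : Finset (Fin n)) : tau X v w = X wᶜ vᶜ := rfl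

theorem tau_mul (X Y : Mt n) : tau (X * Y) = tau Y * tau X := by
  ext v w
  rw [tau_apply, Matrix.mul_apply, Matrix.mul_apply]
  simp only [tau_apply]
  refine Finset.sum_bij' (fun x _ => xᶜ) (fun x _ => xᶜ) (fun _ _ => mem_univ _)
    (fun _ _ => mem_univ _) (fun x _ => compl_compl x) (fun x _ => compl_compl x) ?_
  intro x _
  rw [compl_compl, mul_comm]

theorem tau_sum {ι : Type*} (s : Finset ι) (X : ι → Mt n) :
    tau (∑ i ∈ s, X i) = ∑ i ∈ s, tau (X i) := by
  ext v w
  rw [tau_apply, Matrix.sum_apply, Matrix.sum_apply]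
  rfl

theorem tau_U : tau (U : Mt n) = U := by
  ext v w
  rw [U_eq]
  unfold tau U
  rw [compl_compl]
  refine sum_congr rfl fun i hi => ?_
  have : vᶜ = insert i wᶜ ↔ v = w.erase i := by
    rw [← compl_erase', compl_inj_iff]
  simp only [this]

variable (r : Finset (Fin n) → ℕ)

theorem tau_D (a : ℕ) : tau (D r a) = D' r a := by
  ext v w
  unfold tau D D' Dg
  simp only [Matrix.diagonal_apply]
  by_cases h : v = w
  · subst h; simp
  · rw [if_neg h, if_neg (fun h' => h (compl_injective h').symm)]

/-- indicator of a label set -/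
def ind (A : Finset ℕ) (B : Finset ℕ) : ZMod 2 := if B = A then 1 else 0

theorem adj_ind_mem {a : ℕ} {A : Finset ℕ} (h : a ∈ A) : adj a (ind A) = ind (A.erase a) := by
  funext B
  unfold adj ind
  by_cases hB : a ∈ B
  · rw [if_pos hB, if_neg]
    rintro rfl
    simp at hB
  · rw [if_neg hB]
    have : insert a B = A ↔ B = A.erase a := by
      constructor
      · rintro rfl; rw [erase_insert hB]
      · rintro rfl; rw [insert_erase h]
    simp only [this]

theorem adj_ind_notMem {a : ℕ} {A : Finset ℕ} (h : a ∉ A) : adj a (ind A) = fun _ => 0 := by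
  funext B
  unfold adj ind
  by_cases hB : a ∈ B
  · rw [if_pos hB]
  · rw [if_neg hB, if_neg]
    rintro rfl
    simp at h

theorem e_step {v x : Finset (Fin n)} (hvx : v ⊆ x) (hne : v ≠ x) (Ψ : Finset ℕ → ZMod 2) :
    e r v x Ψ = ∑ i ∈ x \ v, e r v (x.erase i) (adj (r x) Ψ) := by
  have hpos : 0 < (x \ v).card := by
    rw [card_pos]
    by_contra h
    rw [not_nonempty_iff_eq_empty, sdiff_eq_empty_iff_subset] at h
    exact hne (Subset.antisymm hvx h)
  obtain ⟨k, hk⟩ : ∃ k, (x \ v).card = k + 1 := ⟨(x \ v).card - 1, by omega⟩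
  unfold e
  rw [hk]
  simp only [E]
  refine sum_congr rfl fun i hi => ?_
  have h1 : (x.erase i \ v).card = k := by
    have : x.erase i \ v = (x \ v).erase i := by
      ext j; simp only [mem_sdiff, mem_erase]; tauto
    rw [this, card_erase_of_mem hi, hk]; rfl
  rw [h1]

theorem e_ind_empty (v x : Finset (Fin n)) (hvx : v ⊆ x) : e r v x (ind ∅) = 0 := by
  by_cases h : v = x
  · subst h
    rw [e_self]
    unfold ind
    rw [if_neg (by simp)]
  · rw [e_step r hvx h, adj_ind_notMem (by simp)]
    simp only [e_zero, sum_const_zero]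

/-- lower words with label set `A` -/
def EMat (A : Finset ℕ) : Mt n := fun v x => if v ⊆ x then e r v x (ind A) else 0

/-- upper words with antipodal label set `B` -/
def FMat (B : Finset ℕ) : Mt n := tau (EMat r B)

theorem EMat_zero {A : Finset ℕ} {v x : Finset (Fin n)} (h : r x ∉ A) : EMat r A v x = 0 := by
  unfold EMat
  split_ifs with hvx
  · by_cases hv : v = x
    · subst hv
      rw [e_self]
      unfold ind
      rw [if_neg]
      rintro rfl
      simp at h
    · rw [e_step r hvx hv, adj_ind_notMem h]
      simp only [e_zero, sum_const_zero]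
  · rfl

theorem EMat_end (A : Finset ℕ) : EMat r A = ∑ a ∈ A, EMat r A * D r a := by
  ext v x
  rw [Matrix.sum_apply]
  simp only [D, mul_Dg]
  by_cases h : r x ∈ A
  · rw [sum_ite_eq A (r x) (fun _ => EMat r A v x), if_pos h]
  · rw [EMat_zero r h]
    simp

theorem EMat_empty : EMat r ∅ = 0 := by
  rw [EMat_end]; simp

theorem EMat_single (a : ℕ) : EMat r {a} = D r a := by
  ext v x
  unfold D Dg
  rw [Matrix.diagonal_apply]
  unfold EMat
  by_cases hv : v = x
  · subst hv
    rw [if_pos (Subset.refl v), if_pos rfl, e_self]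
    unfold ind
    simp
  · rw [if_neg hv]
    split_ifs with hvx
    · rw [e_step r hvx hv]
      refine sum_eq_zero fun i hi => ?_
      have hi' : i ∈ x ∧ i ∉ v := by simpa using hi
      by_cases h : r x = a
      · rw [h, adj_ind_mem (by simp)]
        have : ({a} : Finset ℕ).erase a = ∅ := by simp
        rw [this]
        exact e_ind_empty r _ _ (fun j hj => mem_erase.2 ⟨fun h => hi'.2 (h ▸ hj), hvx hj⟩)
      · rw [adj_ind_notMem (by simpa using h), e_zero]
    · rfl

theorem EMat_rec {A : Finset ℕ} (hA : 2 ≤ A.card) :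
    EMat r A = ∑ a ∈ A, EMat r (A.erase a) * U * D r a := by
  ext v x
  rw [Matrix.sum_apply]
  simp only [D, mul_Dg, mul_U]
  by_cases h : r x ∈ A
  · rw [sum_ite_eq A (r x) (fun a => ∑ i ∈ x, EMat r (A.erase a) v (x.erase i)), if_pos h]
    by_cases hvx : v ⊆ x
    · have hL : EMat r A v x = e r v x (ind A) := by unfold EMat; rw [if_pos hvx]
      rw [hL]
      by_cases hv : v = x
      · subst hv
        rw [e_self]
        have h1 : ind A {r v} = 0 := by
          unfold ind
          rw [if_neg]
          rintro rfl
          simp at hA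
        rw [h1]
        symm
        refine sum_eq_zero fun i hi => ?_
        unfold EMat
        rw [if_neg]
        intro hs
        have := hs hi
        simp at this
      · rw [e_step r hvx hv, adj_ind_mem h]
        rw [← Finset.sum_sdiff (sdiff_subset : x \ v ⊆ x)]
        have h0 : ∑ i ∈ x \ (x \ v), EMat r (A.erase (r x)) v (x.erase i) = 0 := by
          refine sum_eq_zero fun i hi => ?_
          have hi' : i ∈ v := by
            simp only [mem_sdiff, not_and, not_not] at hi
            exact hi.2 hi.1
          unfold EMat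
          rw [if_neg]
          intro hs
          have := hs hi'
          simp at this
        rw [h0, zero_add]
        refine sum_congr rfl fun i hi => ?_
        have hi' : i ∈ x ∧ i ∉ v := by simpa using hi
        unfold EMat
        rw [if_pos]
        exact fun j hj => mem_erase.2 ⟨fun h => hi'.2 (h ▸ hj), hvx hj⟩
    · have hL : EMat r A v x = 0 := by unfold EMat; rw [if_neg hvx]
      rw [hL]
      symm
      refine sum_eq_zero fun i hi => ?_
      unfold EMat
      rw [if_neg]
      intro hs
      exact hvx (hs.trans (erase_subset _ _))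
  · rw [EMat_zero r h]
    symm
    refine sum_eq_zero fun a ha => ?_
    rw [if_neg]
    rintro rfl
    exact h ha

theorem FMat_single (b : ℕ) : FMat r {b} = D' r b := by
  unfold FMat; rw [EMat_single, tau_D]

theorem FMat_empty : FMat r ∅ = 0 := by
  unfold FMat; rw [EMat_empty]; rfl

theorem FMat_start (B : Finset ℕ) : FMat r B = ∑ b ∈ B, D' r b * FMat r B := by
  unfold FMat
  conv_lhs => rw [EMat_end, tau_sum]
  refine sum_congr rfl fun b _ => ?_
  rw [tau_mul, tau_D]

theorem FMat_rec {B : Finset ℕ} (hB : 2 ≤ B.card) :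
    FMat r B = ∑ b ∈ B, D' r b * U * FMat r (B.erase b) := by
  unfold FMat
  conv_lhs => rw [EMat_rec r hB, tau_sum]
  refine sum_congr rfl fun b _ => ?_
  rw [tau_mul, tau_mul, tau_D, tau_U, Matrix.mul_assoc]

variable {r}

theorem P_self (hne : ∀ v, r v ≠ r vᶜ) (c : ℕ) : P r c c = 0 := by
  ext v w
  unfold P Dg
  rw [Matrix.diagonal_apply]
  split_ifs with h1 h2
  · exact absurd (h2.1.trans h2.2.symm) (hne v)
  · rfl
  · rfl

/-- `P a b U F_B = P a b U D_a F_B` if `b ∉ B` -/
theorem P_U_F (hE : EdgeC r) {a b : ℕ} {B : Finset ℕ} (hb : b ∉ B) :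
    P r a b * U * FMat r B = P r a b * U * D r a * FMat r B := by
  conv_lhs => rw [FMat_start]
  conv_rhs => rw [FMat_start]
  rw [Matrix.mul_sum, Matrix.mul_sum]
  refine sum_congr rfl fun b1 hb1 => ?_
  have h1 : b ≠ b1 := fun h => hb (h ▸ hb1)
  have h2 := row_prop hE (a := a) h1
  rw [← Matrix.mul_assoc, h2, ← D_D', ← D_D']
  simp only [Matrix.mul_assoc]

theorem row_zero (hE : EdgeC r) (hne : ∀ v, r v ≠ r vᶜ) : ∀ (m : ℕ) (B : Finset ℕ),
    B.card = m → ∀ c ∈ B, D r c * FMat r B = 0 := by
  intro m
  induction m with
  | zero =>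
    intro B hB c hc
    rw [card_eq_zero] at hB
    rw [hB] at hc
    simp at hc
  | succ m ih =>
    intro B hB c hc
    by_cases hm : m = 0
    · subst hm
      obtain ⟨b, rfl⟩ := card_eq_one.1 hB
      rw [mem_singleton] at hc
      subst hc
      rw [FMat_single, D_D', P_self hne]
    · rw [FMat_rec r (by omega), Matrix.mul_sum]
      refine sum_eq_zero fun b hb => ?_
      have h1 : D r c * (D' r b * U * FMat r (B.erase b)) = P r c b * U * FMat r (B.erase b) := by
        rw [← Matrix.mul_assoc, ← Matrix.mul_assoc, D_D']
      rw [h1]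
      by_cases hbc : c = b
      · rw [← hbc, P_self hne]; simp
      · rw [P_U_F hE (by simp), Matrix.mul_assoc,
          ih (B.erase b) (by rw [card_erase_of_mem hb, hB]; rfl) c (mem_erase.2 ⟨hbc, hc⟩),
          Matrix.mul_zero]

theorem comm_rel (hE : EdgeC r) {a1 a : ℕ} (ha : a1 ≠ a) : ∀ (m : ℕ) (B : Finset ℕ),
    B.card = m → D r a1 * U * D r a * FMat r B = D r a1 * FMat r B * U * D r a := by
  intro m
  induction m with
  | zero =>
    intro B hB
    rw [card_eq_zero] at hB
    rw [hB, FMat_empty]
    simp
  | succ m ih =>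
    intro B hB
    by_cases hm : m = 0
    · subst hm
      obtain ⟨b, rfl⟩ := card_eq_one.1 hB
      rw [FMat_single, D_D', Matrix.mul_assoc, D_D', col_prop hE ha, ← col_prop' hE ha]
    · have hrec := FMat_rec r (B := B) (by omega)
      rw [hrec, Matrix.mul_sum, Matrix.mul_sum, Matrix.sum_mul, Matrix.sum_mul]
      refine sum_congr rfl fun b hb => ?_
      have hcard : (B.erase b).card = m := by rw [card_erase_of_mem hb, hB]; rfl
      -- left side
      have hL : D r a1 * U * D r a * (D' r b * U * FMat r (B.erase b)) =
          P r a1 b * U * (D r a1 * U * D r a * FMat r (B.erase b)) := by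
        have e1 : D r a1 * U * D r a * (D' r b * U * FMat r (B.erase b)) =
            (P r a1 b * U * P r a b) * U * FMat r (B.erase b) := by
          rw [← col_prop hE ha, ← D_D']
          simp only [Matrix.mul_assoc]
        rw [e1]
        conv_lhs => rw [FMat_start]
        conv_rhs => rw [FMat_start]
        rw [Matrix.mul_sum, Matrix.mul_sum, Matrix.mul_sum]
        refine sum_congr rfl fun b1 hb1 => ?_
        have hbb : b ≠ b1 := fun h => by rw [h] at hb1; simp at hb1
        have e2 : P r a1 b * U * P r a b * U * (D' r b1 * FMat r (B.erase b)) =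
            (P r a1 b * U * P r a b * U * P r a b1) * FMat r (B.erase b) := by
          have := row_prop hE (a := a) hbb
          calc P r a1 b * U * P r a b * U * (D' r b1 * FMat r (B.erase b))
              = P r a1 b * U * (P r a b * U * D' r b1) * FMat r (B.erase b) := by
                simp only [Matrix.mul_assoc]
            _ = _ := by rw [this]; simp only [Matrix.mul_assoc]
        rw [e2, flip_eq hE ha hbb]
        calc P r a1 b * U * P r a1 b1 * U * P r a b1 * FMat r (B.erase b)
            = P r a1 b * U * (P r a1 b1 * U * P r a b1) * FMat r (B.erase b) := by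
              simp only [Matrix.mul_assoc]
          _ = P r a1 b * U * (D r a1 * U * P r a b1) * FMat r (B.erase b) := by
              rw [col_prop hE ha]
          _ = _ := by rw [← D_D' r a b1]; simp only [Matrix.mul_assoc]
      rw [hL, ih _ hcard]
      have hR : D r a1 * (D' r b * U * FMat r (B.erase b)) * U * D r a =
          (P r a1 b * U * FMat r (B.erase b)) * U * D r a := by
        rw [← D_D']; simp only [Matrix.mul_assoc]
      rw [hR, P_U_F hE (by simp)]
      simp only [Matrix.mul_assoc]

/-- **The vanishing lemma.** -/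
theorem vanish (hE : EdgeC r) (hne : ∀ v, r v ≠ r vᶜ) {B : Finset ℕ} {c : ℕ} (hcB : c ∈ B) :
    ∀ (m : ℕ) (A : Finset ℕ), A.card = m → c ∈ A → EMat r A * FMat r B = 0 := by
  intro m
  induction m with
  | zero =>
    intro A hA hc
    rw [card_eq_zero] at hA
    rw [hA] at hc
    simp at hc
  | succ m ih =>
    intro A hA hc
    by_cases hm : m = 0
    · subst hm
      obtain ⟨a, rfl⟩ := card_eq_one.1 hA
      rw [mem_singleton] at hc
      subst hc
      rw [EMat_single]
      exact row_zero hE hne _ B rfl c hcB
    · rw [EMat_rec r (by omega), Matrix.sum_mul]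
      refine sum_eq_zero fun a ha => ?_
      by_cases hac : a = c
      · rw [hac, Matrix.mul_assoc, row_zero hE hne _ B rfl c hcB, Matrix.mul_zero]
      · have h1 : EMat r (A.erase a) * U * D r a * FMat r B =
            EMat r (A.erase a) * FMat r B * U * D r a := by
          conv_lhs => rw [EMat_end r (A.erase a)]
          conv_rhs => rw [EMat_end r (A.erase a)]
          simp only [Matrix.sum_mul]
          refine sum_congr rfl fun a1 ha1 => ?_
          have hne1 : a1 ≠ a := fun h => by rw [h] at ha1; simp at ha1
          calc EMat r (A.erase a) * D r a1 * U * D r a * FMat r B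
              = EMat r (A.erase a) * (D r a1 * U * D r a * FMat r B) := by
                simp only [Matrix.mul_assoc]
            _ = _ := by rw [comm_rel hE hne1 _ B rfl]; simp only [Matrix.mul_assoc]
        rw [h1, ih (A.erase a) (by rw [card_erase_of_mem ha, hA]; rfl)
          (mem_erase.2 ⟨fun h => hac h.symm, hc⟩)]
        simp

end Pool.Agent.TwoChanges
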