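import Pool.Agent.Lib_MP_801c1a_co.Avg
import Pool.Agent.Lib_MP_801c1a_co.PathA

/-!
The average over all starting vertices and all sets of directions of the least number of colour
changes (helper48): at most `(π/4) n / √(n-1) + 1/2`.
-/

set_option autoImplicit false

namespace Pool.MP_801c1a_co.Sub
open Finset

variable {n : ℕ}

theorem chg_tail_le (b : Bool) (l : List Bool) : chg l ≤ chg (b :: l) := by
  cases l with
  | nil => simp [chg]
  | cons c l => simp only [chg]; omega

/-- the indicator of a set of directions -/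
def ind (S : Finset (Fin n)) : V n := fun m => decide (m ∈ S)

theorem cost_ind_le_G (g : V n → Fin n → Bool) (x : V n) (S : Finset (Fin n)) (b : Bool) :
    cost g x (ind S) ≤ G g x S b := by
  obtain ⟨L, h1, h2, h3⟩ := G_spec g x S b
  rw [← h3]
  refine le_trans (Nat.sInf_le ⟨L, h1, ?_, rfl⟩) (chg_tail_le b _)
  intro m
  simp only [ind, decide_eq_true_eq]
  rw [← h2, List.mem_toFinset]

/-- the summand of the level bound -/
noncomputable def aa (n r : ℕ) : ℝ :=
  (n : ℝ) / 2 / Real.sqrt ((r : ℝ) * ((n - r : ℕ) : ℝ) * (n - 1))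

theorem aa_nonneg (n r : ℕ) : 0 ≤ aa n r := by unfold aa; positivity

theorem level_cost (g : V n → Fin n → Bool) (hg : ∀ x j, g (flip x j) j = g x j) (s : ℕ)
    (hsn : s < n) :
    ∑ x : V n, ∑ S ∈ powersetCard s (univ : Finset (Fin n)), (cost g x (ind S) : ℝ) ≤
      2 ^ n * (n.choose s : ℝ) * ∑ r ∈ Ico 1 (s + 1), aa n r := by
  have h1 := level_bound g hg s hsn
  have hC : (0 : ℝ) < (n.choose s : ℝ) := by exact_mod_cast Nat.choose_pos hsn.le
  have ht : (0 : ℝ) < ((n - s : ℕ) : ℝ) := by exact_mod_cast (by omega : 0 < n - s)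
  have h2 : ((n - s : ℕ) : ℝ) * ∑ x : V n, ∑ S ∈ powersetCard s (univ : Finset (Fin n)),
      (cost g x (ind S) : ℝ) ≤ W g s := by
    unfold W
    rw [mul_sum]
    refine sum_le_sum fun x _ => ?_
    rw [mul_sum]
    refine sum_le_sum fun S hS => ?_
    have hSc : S.card = s := (mem_powersetCard.1 hS).2
    have hScc : (Sᶜ).card = n - s := by rw [card_compl, Fintype.card_fin, hSc]
    calc ((n - s : ℕ) : ℝ) * (cost g x (ind S) : ℝ)
        = ∑ _i ∈ Sᶜ, (cost g x (ind S) : ℝ) := by rw [sum_const, hScc, nsmul_eq_mul]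
      _ ≤ _ := sum_le_sum fun i _ => by exact_mod_cast cost_ind_le_G g x S _
  rw [div_le_iff₀ (by positivity)] at h1
  have h3 := h2.trans h1
  have h4 : ((n - s : ℕ) : ℝ) * ∑ x : V n, ∑ S ∈ powersetCard s (univ : Finset (Fin n)),
      (cost g x (ind S) : ℝ) ≤
      ((n - s : ℕ) : ℝ) * (2 ^ n * (n.choose s : ℝ) * ∑ r ∈ Ico 1 (s + 1), aa n r) := by
    refine h3.trans (le_of_eq ?_)
    unfold aa
    ring
  exact le_of_mul_le_mul_left h4 ht

theorem top_cost (g : V n → Fin n → Bool) (hg : ∀ x j, g (flip x j) j = g x j) (hn : 2 ≤ n) :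
    ∑ x : V n, (cost g x (ind univ) : ℝ) ≤ 2 ^ n * ∑ r ∈ Ico 1 n, aa n r := by
  have h1 := level_bound g hg (n - 1) (by omega)
  have e1 : n.choose (n - 1) = n := by
    obtain ⟨m, rfl⟩ : ∃ m, n = m + 1 := ⟨n - 1, by omega⟩
    simp
  have e2 : n - (n - 1) = 1 := by omega
  have e3 : n - 1 + 1 = n := by omega
  rw [e1, e2, e3] at h1
  have hn0 : (0 : ℝ) < n := by exact_mod_cast (by omega : 0 < n)
  have hi : (ind (univ : Finset (Fin n))) = (fun _ => true) := by
    funext m; simp [ind]
  have h2 : (n : ℝ) * ∑ x : V n, (cost g x (ind univ) : ℝ) ≤ W g (n - 1) := by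
    have hW : W g (n - 1) = ∑ x : V n, ∑ S ∈ powersetCard (n - 1 + 1) (univ : Finset (Fin n)),
        ∑ j ∈ S, (G g (flip x j) (S.erase j) (g x j) : ℝ) := by
      unfold W
      rw [← shift (fun x S j => (G g x S (g x j) : ℝ)) (n - 1)]
      simp only [hg]
    rw [hW, e3, mul_sum]
    refine sum_le_sum fun x _ => ?_
    have e4 : powersetCard n (univ : Finset (Fin n)) = {univ} := by
      have := powersetCard_self (univ : Finset (Fin n))
      rwa [card_univ, Fintype.card_fin] at this
    rw [e4, sum_singleton, hi]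
    calc (n : ℝ) * (cost g x (fun _ => true) : ℝ)
        = ∑ _j : Fin n, (cost g x (fun _ => true) : ℝ) := by
          rw [sum_const, card_univ, Fintype.card_fin, nsmul_eq_mul]
      _ ≤ _ := sum_le_sum fun j _ => by exact_mod_cast cost_le_G g x j
  rw [div_le_iff₀ (by positivity)] at h1
  have h3 := h2.trans h1
  have h4 : (n : ℝ) * ∑ x : V n, (cost g x (ind univ) : ℝ) ≤
      (n : ℝ) * (2 ^ n * ∑ r ∈ Ico 1 n, aa n r) := by
    refine h3.trans (le_of_eq ?_)
    unfold aa
    push_cast
    ring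
  exact le_of_mul_le_mul_left h4 hn0

/-- the level bound, extended to the top level -/
noncomputable def bb (n s : ℕ) : ℝ := ∑ r ∈ Ico 1 (min s (n - 1) + 1), aa n r

theorem all_cost (g : V n → Fin n → Bool) (hg : ∀ x j, g (flip x j) j = g x j) (hn : 2 ≤ n) :
    ∑ x : V n, ∑ S : Finset (Fin n), (cost g x (ind S) : ℝ) ≤
      2 ^ n * ∑ s ∈ range (n + 1), (n.choose s : ℝ) * bb n s := by
  have h1 : ∀ x : V n, ∑ S : Finset (Fin n), (cost g x (ind S) : ℝ) =
      ∑ s ∈ range (n + 1), ∑ S ∈ powersetCard s (univ : Finset (Fin n)),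
        (cost g x (ind S) : ℝ) := by
    intro x
    have := sum_powerset_apply_card_aux g x
    exact this
  rw [sum_congr rfl (fun x _ => h1 x), sum_comm, mul_sum]
  refine sum_le_sum fun s hs => ?_
  rw [mem_range] at hs
  by_cases h : s < n
  · have e : min s (n - 1) = s := by omega
    unfold bb
    rw [e]
    have := level_cost g hg s h
    calc _ ≤ _ := this
      _ = _ := by ring
  · have hsn : s = n := by omega
    subst hsn
    have e : min s (s - 1) + 1 = s := by omega
    unfold bb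
    rw [e]
    have e4 : powersetCard s (univ : Finset (Fin s)) = {univ} := by
      have := powersetCard_self (univ : Finset (Fin s))
      rwa [card_univ, Fintype.card_fin] at this
    rw [e4]
    simp only [sum_singleton, Nat.choose_self, Nat.cast_one, one_mul]
    exact top_cost g hg hn
  where
    sum_powerset_apply_card_aux (g : V n → Fin n → Bool) (x : V n) :
        ∑ S : Finset (Fin n), (cost g x (ind S) : ℝ) =
          ∑ s ∈ range (n + 1), ∑ S ∈ powersetCard s (univ : Finset (Fin n)),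
            (cost g x (ind S) : ℝ) := by
      have h := sum_powerset (univ : Finset (Fin n)) (fun S => (cost g x (ind S) : ℝ))
      rw [card_univ, Fintype.card_fin] at h
      rw [← h, powerset_univ]

theorem aa_symm (r : ℕ) (hr : r ≤ n) : aa n (n - r) = aa n r := by
  unfold aa
  have : n - (n - r) = r := by omega
  rw [this]
  congr 2
  ring

theorem aa_le_one (hn : 2 ≤ n) (r : ℕ) (hr : 1 ≤ r) (hrn : r < n) : aa n r ≤ 1 := by
  unfold aa
  have hn1 : (0 : ℝ) < (n : ℝ) - 1 := by
    have : (1 : ℝ) < n := by exact_mod_cast (by omega : 1 < n)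
    linarith
  have hr1 : (1 : ℝ) ≤ r := by exact_mod_cast hr
  have hrn' : (r : ℝ) + 1 ≤ n := by exact_mod_cast hrn
  rw [Nat.cast_sub hrn.le]
  have h1 : ((n : ℝ) - 1) ^ 2 ≤ (r : ℝ) * (n - r) * (n - 1) := by
    have : (n : ℝ) - 1 ≤ (r : ℝ) * (n - r) := by nlinarith
    nlinarith
  have h2 : (n : ℝ) - 1 ≤ Real.sqrt ((r : ℝ) * (n - r) * (n - 1)) := Real.le_sqrt_of_sq_le h1
  rw [div_le_one (by linarith)]
  have : (2 : ℝ) ≤ n := by exact_mod_cast hn
  linarith

theorem bb_add (hn : 2 ≤ n) (s : ℕ) (hs : s ≤ n) :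
    bb n s + bb n (n - s) ≤ ∑ r ∈ Ico 1 n, aa n r + 1 := by
  rcases Nat.eq_zero_or_pos s with h0 | h0
  · subst h0
    unfold bb
    have e1 : min 0 (n - 1) + 1 = 1 := by omega
    have e2 : min (n - 0) (n - 1) + 1 = n := by omega
    rw [e1, e2]; simp
  rcases Nat.lt_or_ge s n with h1 | h1
  · have e1 : min s (n - 1) + 1 = s + 1 := by omega
    have e2 : min (n - s) (n - 1) + 1 = n - s + 1 := by omega
    unfold bb
    rw [e1, e2]
    have h2 : ∑ r ∈ Ico 1 (n - s + 1), aa n r = ∑ r ∈ Ico s n, aa n r := by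
      have h3 := sum_Ico_reflect (fun r => aa n r) s (m := n) (n := n) (by omega)
      have e3 : n + 1 - n = 1 := by omega
      have e4 : n + 1 - s = n - s + 1 := by omega
      rw [e3, e4] at h3
      rw [← h3]
      refine sum_congr rfl fun r hr => ?_
      rw [mem_Ico] at hr
      exact aa_symm r (by omega)
    rw [h2, ← sum_Ico_consecutive (fun r => aa n r) h0 h1.le, sum_Ico_succ_top h0]
    have := aa_le_one hn s h0 h1
    linarith
  · have hs' : s = n := by omega
    subst hs'
    unfold bb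
    have e1 : min s (s - 1) + 1 = s := by omega
    have e2 : min (s - s) (s - 1) + 1 = 1 := by omega
    rw [e1, e2]; simp

theorem sum_aa_le (hn : 2 ≤ n) :
    ∑ r ∈ Ico 1 n, aa n r ≤ Real.pi / 2 * n / Real.sqrt (n - 1) := by
  have hn1 : (0 : ℝ) < (n : ℝ) - 1 := by
    have : (1 : ℝ) < n := by exact_mod_cast (by omega : 1 < n)
    linarith
  have h4 : ∀ r ∈ Ico 1 n, aa n r =
      (n : ℝ) / 2 / Real.sqrt (n - 1) * (1 / Real.sqrt ((r : ℝ) * ((n - r : ℕ) : ℝ))) := by
    intro r _
    unfold aa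
    rw [Real.sqrt_mul (by positivity)]
    rw [div_mul_div_comm, mul_one, div_div, div_div]
    congr 1
    ring
  rw [sum_congr rfl h4, ← mul_sum]
  calc _ ≤ (n : ℝ) / 2 / Real.sqrt (n - 1) * Real.pi :=
        mul_le_mul_of_nonneg_left (sum_inv_sqrt n (by omega)) (by positivity)
    _ = _ := by ring

theorem all_cost_le (g : V n → Fin n → Bool) (hg : ∀ x j, g (flip x j) j = g x j) (hn : 2 ≤ n) :
    ∑ x : V n, ∑ S : Finset (Fin n), (cost g x (ind S) : ℝ) ≤
      2 ^ n * (2 ^ n * (Real.pi / 4 * n / Real.sqrt (n - 1) + 1 / 2)) := by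
  refine (all_cost g hg hn).trans (mul_le_mul_of_nonneg_left ?_ (by positivity))
  have h1 : ∑ s ∈ range (n + 1), (n.choose s : ℝ) * bb n s =
      ∑ s ∈ range (n + 1), (n.choose s : ℝ) * bb n (n - s) := by
    rw [← sum_range_reflect]
    refine sum_congr rfl fun s hs => ?_
    rw [mem_range] at hs
    have e : n + 1 - 1 - s = n - s := by omega
    rw [e, Nat.choose_symm (by omega)]
  have h2 : 2 * ∑ s ∈ range (n + 1), (n.choose s : ℝ) * bb n s =
      ∑ s ∈ range (n + 1), (n.choose s : ℝ) * (bb n s + bb n (n - s)) := by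
    rw [two_mul]
    nth_rewrite 2 [h1]
    rw [← sum_add_distrib]
    refine sum_congr rfl fun s _ => ?_
    ring
  have h3 : ∑ s ∈ range (n + 1), (n.choose s : ℝ) * (bb n s + bb n (n - s)) ≤
      ∑ s ∈ range (n + 1), (n.choose s : ℝ) * (Real.pi / 2 * n / Real.sqrt (n - 1) + 1) := by
    refine sum_le_sum fun s hs => ?_
    rw [mem_range] at hs
    refine mul_le_mul_of_nonneg_left ?_ (by positivity)
    have := bb_add hn s (by omega)
    have := sum_aa_le hn
    linarith
  have h4 : ∑ s ∈ range (n + 1), (n.choose s : ℝ) = 2 ^ n := by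
    have := Nat.sum_range_choose n
    exact_mod_cast this
  rw [← sum_mul, h4] at h3
  have h5 : Real.pi / 4 * n / Real.sqrt (n - 1) = (Real.pi / 2 * n / Real.sqrt (n - 1)) / 2 := by
    ring
  rw [h5]
  nlinarith

end Pool.MP_801c1a_co.Sub
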