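import Pool.Agent.Lib_MP_a0ec0b_co.Sublinear

/-!
MP_a0ec0b_co: from sets of directions to walks in the cube; the midpoint argument.
-/

set_option autoImplicit false
set_option linter.unusedVariables false

namespace Pool.Agent.CubeHom

open Finset

variable {n : ℕ}

/-- colour of the edge of direction `m` at `z` -/
def gcol (c : Sym2 (V n) → Bool) (z : V n) (m : Fin n) : Bool := c s(z, flip z m)

theorem gcol_flip (c : Sym2 (V n) → Bool) (z : V n) (m : Fin n) :
    gcol c (Pool.MP_801c1a_co.Sub.flip z m) m = gcol c z m := by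
  show c s(flip z m, flip (flip z m) m) = c s(z, flip z m)
  rw [flip_flip, Sym2.eq_swap]

theorem chg_eq_changes : ∀ l : List Bool, Pool.MP_801c1a_co.Sub.chg l = changes l
  | [] => rfl
  | [_] => rfl
  | a :: b :: l => by
    simp only [Pool.MP_801c1a_co.Sub.chg, changes]
    rw [chg_eq_changes (b :: l)]

theorem walk_of_list (c : Sym2 (V n) → Bool) : ∀ (L : List (Fin n)) (x : V n),
    ∃ p : (Q n).Walk x (L.foldl flip x),
      p.edges.map c = Pool.MP_801c1a_co.Sub.cols (gcol c) x L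
  | [], x => ⟨SimpleGraph.Walk.nil, rfl⟩
  | m :: L, x => by
    obtain ⟨p, hp⟩ := walk_of_list c L (flip x m)
    have h : ((SimpleGraph.Walk.cons (adj_flip x m) p).edges.map c)
        = Pool.MP_801c1a_co.Sub.cols (gcol c) x (m :: L) := by
      rw [SimpleGraph.Walk.edges_cons, List.map_cons, hp]
      rfl
    exact ⟨SimpleGraph.Walk.cons (adj_flip x m) p, h⟩

theorem foldl_flip_of_notMem : ∀ (L : List (Fin n)) (x : V n) (m : Fin n), m ∉ L →
    (L.foldl flip x) m = x m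
  | [], x, m, _ => rfl
  | a :: L, x, m, h => by
    simp only [List.mem_cons, not_or] at h
    rw [List.foldl_cons, foldl_flip_of_notMem L _ m h.2, flip_of_ne _ h.1]

theorem foldl_flip : ∀ (L : List (Fin n)) (x : V n), L.Nodup → ∀ m,
    (L.foldl flip x) m = (x m ^^ decide (m ∈ L))
  | [], x, _, m => by simp
  | a :: L, x, h, m => by
    rw [List.nodup_cons] at h
    rw [List.foldl_cons]
    by_cases hm : m = a
    · subst hm
      rw [foldl_flip_of_notMem L _ m h.1, flip_same]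
      simp
    · rw [foldl_flip L _ h.2 m, flip_of_ne _ hm]
      simp [hm]

theorem walk_of_cost (c : Sym2 (V n) → Bool) (x y : V n) :
    ∃ p : (Q n).Walk x y, changes (p.edges.map c)
      ≤ Pool.MP_801c1a_co.Sub.cost (gcol c) x (fun m => x m ^^ y m) := by
  obtain ⟨L, h1, h2, h3⟩ := Pool.MP_801c1a_co.Sub.exists_cost (gcol c) x (fun m => x m ^^ y m)
  obtain ⟨p, hp⟩ := walk_of_list c L x
  have he : L.foldl flip x = y := by
    funext m
    rw [foldl_flip L x h1 m]
    have h4 := h2 m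
    by_cases hm : m ∈ L
    · have h5 := h4.mp hm
      simp only [hm, decide_true]
      revert h5
      cases x m <;> cases y m <;> simp
    · have h5 : ¬ ((x m ^^ y m) = true) := fun h => hm (h4.mpr h)
      simp only [hm, decide_false]
      revert h5
      cases x m <;> cases y m <;> simp
  subst he
  refine ⟨p, ?_⟩
  rw [hp, ← chg_eq_changes, h3]

/-- the double sum over start and end points -/
theorem sum_pairs (c : Sym2 (V n) → Bool) (hn : 2 ≤ n) :
    ∑ w : V n, ∑ u : V n,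
      (Pool.MP_801c1a_co.Sub.cost (gcol c) w (fun m => w m ^^ u m) : ℝ)
      ≤ 2 ^ n * (2 ^ n * (600 * ((n : ℝ) ^ (7 / 8 : ℝ) * Real.log n))) := by
  refine le_trans (le_of_eq ?_)
    (Pool.MP_801c1a_co.Sub.sum_sum_le hn (gcol c) (gcol_flip c))
  refine Finset.sum_congr rfl (fun w _ => ?_)
  have h := Pool.MP_801c1a_co.Sub.sum_xor w
    (fun S => (Pool.MP_801c1a_co.Sub.cost (gcol c) w S : ℝ))
  rw [← h]
  refine Finset.sum_congr rfl (fun u _ => ?_)
  congr 2
  funext m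
  exact Bool.xor_comm _ _

theorem main_paths (hn : 2 ≤ n) (f : Equiv.Perm (V n)) (c : Sym2 (V n) → Bool) :
    ∃ p : ∀ u : V n, (Q n).Walk u (f u), (∀ u, (p u).IsPath) ∧
      (∑ u : V n, (changes ((p u).edges.map c) : ℝ)) / 2 ^ n
        ≤ 1201 * (n : ℝ) ^ (7 / 8 : ℝ) * Real.log n := by
  classical
  set B : ℝ := 600 * ((n : ℝ) ^ (7 / 8 : ℝ) * Real.log n) with hB
  have hn' : (2 : ℝ) ≤ n := by exact_mod_cast hn
  have h2n : (0 : ℝ) < 2 ^ n := by positivity
  -- the two legs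
  have hleg1 : ∑ w : V n, ∑ u : V n,
      (Pool.MP_801c1a_co.Sub.cost (gcol c) u (fun m => u m ^^ w m) : ℝ) ≤ 2 ^ n * (2 ^ n * B) := by
    rw [Finset.sum_comm]
    exact sum_pairs c hn
  have hleg2 : ∑ w : V n, ∑ u : V n,
      (Pool.MP_801c1a_co.Sub.cost (gcol c) w (fun m => w m ^^ f u m) : ℝ)
        ≤ 2 ^ n * (2 ^ n * B) := by
    refine le_trans (le_of_eq ?_) (sum_pairs c hn)
    refine Finset.sum_congr rfl (fun w _ => ?_)
    exact Equiv.sum_comp f
      (fun v => (Pool.MP_801c1a_co.Sub.cost (gcol c) w (fun m => w m ^^ v m) : ℝ))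
  -- a good midpoint
  have hmid : ∃ w : V n, ∑ u : V n,
      ((Pool.MP_801c1a_co.Sub.cost (gcol c) u (fun m => u m ^^ w m) : ℝ) + 1 +
        (Pool.MP_801c1a_co.Sub.cost (gcol c) w (fun m => w m ^^ f u m) : ℝ))
        ≤ 2 ^ n * (2 * B + 1) := by
    by_contra hcon
    push Not at hcon
    have h1 : ∑ w : V n, (2 ^ n * (2 * B + 1) : ℝ) < ∑ w : V n, ∑ u : V n,
      ((Pool.MP_801c1a_co.Sub.cost (gcol c) u (fun m => u m ^^ w m) : ℝ) + 1 +
        (Pool.MP_801c1a_co.Sub.cost (gcol c) w (fun m => w m ^^ f u m) : ℝ)) :=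
      Finset.sum_lt_sum_of_nonempty ⟨fun _ => true, Finset.mem_univ _⟩ (fun w _ => hcon w)
    have h2 : ∑ w : V n, ∑ u : V n,
      ((Pool.MP_801c1a_co.Sub.cost (gcol c) u (fun m => u m ^^ w m) : ℝ) + 1 +
        (Pool.MP_801c1a_co.Sub.cost (gcol c) w (fun m => w m ^^ f u m) : ℝ))
        ≤ 2 ^ n * (2 ^ n * B) + 2 ^ n * 2 ^ n + 2 ^ n * (2 ^ n * B) := by
      simp only [Finset.sum_add_distrib]
      have h3 : ∑ w : V n, ∑ u : V n, (1 : ℝ) = 2 ^ n * 2 ^ n := by simp
      linarith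
    have h4 : ∑ w : V n, (2 ^ n * (2 * B + 1) : ℝ) = 2 ^ n * (2 ^ n * (2 * B + 1)) := by
      rw [Finset.sum_const, Finset.card_univ]; simp
    nlinarith
  obtain ⟨w, hw⟩ := hmid
  have hpath : ∀ u : V n, ∃ p : (Q n).Walk u (f u), p.IsPath ∧
      changes (p.edges.map c) ≤ Pool.MP_801c1a_co.Sub.cost (gcol c) u (fun m => u m ^^ w m) + 1 +
        Pool.MP_801c1a_co.Sub.cost (gcol c) w (fun m => w m ^^ f u m) := by
    intro u
    obtain ⟨p1, hp1⟩ := walk_of_cost c u w
    obtain ⟨p2, hp2⟩ := walk_of_cost c w (f u)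
    refine ⟨(p1.append p2).bypass, SimpleGraph.Walk.bypass_isPath _, ?_⟩
    have h1 : changes (((p1.append p2).bypass).edges.map c)
        ≤ changes ((p1.append p2).edges.map c) :=
      changes_sublist (((p1.append p2).edges_bypass_sublist_edges).map c)
    have h2 : changes ((p1.append p2).edges.map c)
        ≤ changes (p1.edges.map c) + 1 + changes (p2.edges.map c) := by
      rw [SimpleGraph.Walk.edges_append, List.map_append]
      exact changes_append _ _
    omega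
  choose p hp1 hp2 using hpath
  refine ⟨p, hp1, ?_⟩
  rw [div_le_iff₀ h2n]
  have h1 : ∑ u : V n, (changes ((p u).edges.map c) : ℝ) ≤ 2 ^ n * (2 * B + 1) := by
    refine le_trans (Finset.sum_le_sum (fun u _ => ?_)) hw
    exact_mod_cast hp2 u
  have hone : 1 ≤ (n : ℝ) ^ (7 / 8 : ℝ) * Real.log n := by
    have h2 : (0.69 : ℝ) ≤ Real.log n := by
      calc (0.69 : ℝ) ≤ Real.log 2 := by linarith [Real.log_two_gt_d9]
        _ ≤ Real.log n := Real.log_le_log (by norm_num) hn'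
    have h3 : (2 : ℝ) ^ (7 / 8 : ℝ) ≤ (n : ℝ) ^ (7 / 8 : ℝ) :=
      Real.rpow_le_rpow (by norm_num) hn' (by norm_num)
    have h4 : (1.6 : ℝ) ≤ (2 : ℝ) ^ (7 / 8 : ℝ) := by
      have h5 : ((1.6 : ℝ)) ^ (8 : ℕ) ≤ ((2 : ℝ) ^ (7 / 8 : ℝ)) ^ (8 : ℕ) := by
        rw [← Real.rpow_natCast ((2 : ℝ) ^ (7 / 8 : ℝ)), ← Real.rpow_mul (by norm_num)]
        norm_num
      exact le_of_pow_le_pow_left₀ (by norm_num) (by positivity) h5
    nlinarith
  have h5 : 2 * B + 1 ≤ 1201 * (n : ℝ) ^ (7 / 8 : ℝ) * Real.log n := by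
    rw [hB]; linarith
  calc ∑ u : V n, (changes ((p u).edges.map c) : ℝ) ≤ 2 ^ n * (2 * B + 1) := h1
    _ ≤ 2 ^ n * (1201 * (n : ℝ) ^ (7 / 8 : ℝ) * Real.log n) := by gcongr
    _ = 1201 * (n : ℝ) ^ (7 / 8 : ℝ) * Real.log n * 2 ^ n := by ring

end Pool.Agent.CubeHom
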