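import Pool.Agent.Lib_MP_a0ec0b_co.SqrtSum
import Pool.Agent.Lib_MP_a0ec0b_co.SubWalk
import Pool.Agent.Lib_MP_801c1a_co.Lower

/-!
Paths `u → f u` with `O(√n)` colour changes on average, and the sharpness for the antipodal map.
-/

set_option autoImplicit false

namespace Pool.Agent.CubeHom
open Finset

variable {n : ℕ}

/-- sets of directions as vectors -/
def indE (n : ℕ) : Finset (Fin n) ≃ V n where
  toFun := Pool.MP_801c1a_co.Sub.ind
  invFun W := univ.filter (fun m => W m = true)
  left_inv S := by ext m; simp [Pool.MP_801c1a_co.Sub.ind]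
  right_inv W := by funext m; simp [Pool.MP_801c1a_co.Sub.ind]

theorem sum_pairs_sqrt (c : Sym2 (V n) → Bool) (hn : 2 ≤ n) :
    ∑ w : V n, ∑ u : V n,
      (Pool.MP_801c1a_co.Sub.cost (gcol c) w (fun m => w m ^^ u m) : ℝ)
      ≤ 2 ^ n * (2 ^ n * (Real.pi / 4 * n / Real.sqrt (n - 1) + 1 / 2)) := by
  refine le_trans (le_of_eq ?_)
    (Pool.MP_801c1a_co.Sub.all_cost_le (gcol c) (gcol_flip c) hn)
  refine Finset.sum_congr rfl (fun w _ => ?_)
  have h := Pool.MP_801c1a_co.Sub.sum_xor w
    (fun S => (Pool.MP_801c1a_co.Sub.cost (gcol c) w S : ℝ))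
  have h2 := Equiv.sum_comp (indE n)
    (fun S : V n => (Pool.MP_801c1a_co.Sub.cost (gcol c) w S : ℝ))
  refine Eq.trans ?_ h2.symm
  rw [← h]
  refine Finset.sum_congr rfl (fun u _ => ?_)
  congr 2
  funext m
  exact Bool.xor_comm _ _

theorem main_paths_sqrt (hn : 2 ≤ n) (f : Equiv.Perm (V n)) (c : Sym2 (V n) → Bool) :
    ∃ p : ∀ u : V n, (Q n).Walk u (f u), (∀ u, (p u).IsPath) ∧
      (∑ u : V n, (changes ((p u).edges.map c) : ℝ)) / 2 ^ n
        ≤ Real.pi / 2 * n / Real.sqrt (n - 1) + 2 := by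
  classical
  set B : ℝ := Real.pi / 4 * n / Real.sqrt (n - 1) + 1 / 2 with hB
  have h2n : (0 : ℝ) < 2 ^ n := by positivity
  -- the two legs
  have hleg1 : ∑ w : V n, ∑ u : V n,
      (Pool.MP_801c1a_co.Sub.cost (gcol c) u (fun m => u m ^^ w m) : ℝ) ≤ 2 ^ n * (2 ^ n * B) := by
    rw [Finset.sum_comm]
    exact sum_pairs_sqrt c hn
  have hleg2 : ∑ w : V n, ∑ u : V n,
      (Pool.MP_801c1a_co.Sub.cost (gcol c) w (fun m => w m ^^ f u m) : ℝ)
        ≤ 2 ^ n * (2 ^ n * B) := by
    refine le_trans (le_of_eq ?_) (sum_pairs_sqrt c hn)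
    refine Finset.sum_congr rfl (fun w _ => ?_)
    exact Equiv.sum_comp f
      (fun v => (Pool.MP_801c1a_co.Sub.cost (gcol c) w (fun m => w m ^^ v m) : ℝ))
  -- a good midpoint
  have hmid : ∃ w : V n, ∑ u : V n,
      ((Pool.MP_801c1a_co.Sub.cost (gcol c) u (fun m => u m ^^ w m) : ℝ) + 1 +
        (Pool.MP_801c1a_co.Sub.cost (gcol c) w (fun m => w m ^^ f u m) : ℝ))
        ≤ 2 ^ n * (2 * B + 1) := by
    by_contra hcon
    push Not at hcon
    have h1 : ∑ w : V n, (2 ^ n * (2 * B + 1) : ℝ) < ∑ w : V n, ∑ u : V n,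
      ((Pool.MP_801c1a_co.Sub.cost (gcol c) u (fun m => u m ^^ w m) : ℝ) + 1 +
        (Pool.MP_801c1a_co.Sub.cost (gcol c) w (fun m => w m ^^ f u m) : ℝ)) :=
      Finset.sum_lt_sum_of_nonempty ⟨fun _ => true, Finset.mem_univ _⟩ (fun w _ => hcon w)
    have h2 : ∑ w : V n, ∑ u : V n,
      ((Pool.MP_801c1a_co.Sub.cost (gcol c) u (fun m => u m ^^ w m) : ℝ) + 1 +
        (Pool.MP_801c1a_co.Sub.cost (gcol c) w (fun m => w m ^^ f u m) : ℝ))
        ≤ 2 ^ n * (2 ^ n * B) + 2 ^ n * 2 ^ n + 2 ^ n * (2 ^ n * B) := by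
      simp only [Finset.sum_add_distrib]
      have h3 : ∑ w : V n, ∑ u : V n, (1 : ℝ) = 2 ^ n * 2 ^ n := by simp
      linarith
    have h4 : ∑ w : V n, (2 ^ n * (2 * B + 1) : ℝ) = 2 ^ n * (2 ^ n * (2 * B + 1)) := by
      rw [Finset.sum_const, Finset.card_univ]; simp
    nlinarith
  obtain ⟨w, hw⟩ := hmid
  have hpath : ∀ u : V n, ∃ p : (Q n).Walk u (f u), p.IsPath ∧
      changes (p.edges.map c) ≤ Pool.MP_801c1a_co.Sub.cost (gcol c) u (fun m => u m ^^ w m) + 1 +
        Pool.MP_801c1a_co.Sub.cost (gcol c) w (fun m => w m ^^ f u m) := by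
    intro u
    obtain ⟨p1, hp1⟩ := walk_of_cost c u w
    obtain ⟨p2, hp2⟩ := walk_of_cost c w (f u)
    refine ⟨(p1.append p2).bypass, SimpleGraph.Walk.bypass_isPath _, ?_⟩
    have h1 : changes (((p1.append p2).bypass).edges.map c)
        ≤ changes ((p1.append p2).edges.map c) :=
      changes_sublist (((p1.append p2).edges_bypass_sublist_edges).map c)
    have h2 : changes ((p1.append p2).edges.map c)
        ≤ changes (p1.edges.map c) + 1 + changes (p2.edges.map c) := by
      rw [SimpleGraph.Walk.edges_append, List.map_append]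
      exact changes_append _ _
    omega
  choose p hp1 hp2 using hpath
  refine ⟨p, hp1, ?_⟩
  rw [div_le_iff₀ h2n]
  have h1 : ∑ u : V n, (changes ((p u).edges.map c) : ℝ) ≤ 2 ^ n * (2 * B + 1) := by
    refine le_trans (Finset.sum_le_sum (fun u _ => ?_)) hw
    exact_mod_cast hp2 u
  refine h1.trans (le_of_eq ?_)
  rw [hB]; ring

/-! ### sharpness -/

open Pool.MP_801c1a_co.Sub (N N_update Sg sg)

/-- the level colouring of the edges: parity of the number of `true` coordinates of the lower
end -/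
def levc (n : ℕ) : Sym2 (V n) → Bool :=
  Sym2.lift ⟨fun x y => decide (min (N x) (N y) % 2 = 1), fun x y => by
    show decide (min (N x) (N y) % 2 = 1) = decide (min (N y) (N x) % 2 = 1)
    rw [min_comm]⟩

theorem N_adj {x y : V n} (h : (Q n).Adj x y) : N y = N x + 1 ∨ N x = N y + 1 := by
  obtain ⟨i, rfl⟩ := (adj_iff x y).1 h
  have h1 := N_update x i
  have h2 := N_update (flip x i) i
  have e : Function.update (flip x i) i false = Function.update x i false := by
    unfold flip
    rw [Function.update_idem]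
  rw [e, flip_same] at h2
  cases hx : x i <;> simp [hx] at h1 h2 <;> omega

/-- the lower level of the band of colour `k` at `x` -/
def band (x : V n) (k : Bool) : ℤ := if decide (N x % 2 = 1) = k then (N x : ℤ) else (N x : ℤ) - 1

theorem band_adj {x y : V n} (h : (Q n).Adj x y) :
    band x (levc n s(x, y)) = band y (levc n s(x, y)) := by
  have hc : levc n s(x, y) = decide (min (N x) (N y) % 2 = 1) := rfl
  rw [hc]
  unfold band
  rcases N_adj h with h1 | h1
  · have e : min (N x) (N y) = N x := by omega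
    rw [e, if_pos rfl, h1]
    have : ¬ (decide ((N x + 1) % 2 = 1) = decide (N x % 2 = 1)) := by
      intro hh
      rw [decide_eq_decide] at hh
      omega
    rw [if_neg this]; push_cast; ring
  · have e : min (N x) (N y) = N y := by omega
    rw [e, if_pos rfl, h1]
    have : ¬ (decide ((N y + 1) % 2 = 1) = decide (N y % 2 = 1)) := by
      intro hh
      rw [decide_eq_decide] at hh
      omega
    rw [if_neg this]; push_cast; ring

theorem band_change (x : V n) (k l : Bool) : |band x k - band x l| ≤ if k = l then 0 else 1 := by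
  unfold band
  by_cases h : k = l
  · subst h; simp
  · rw [if_neg h]
    split_ifs <;> rw [abs_le] <;> constructor <;> omega

theorem band_near (x : V n) (k : Bool) : band x k ≤ N x ∧ (N x : ℤ) ≤ band x k + 1 := by
  unfold band
  split_ifs <;> constructor <;> omega

theorem walk_band : ∀ {x z y : V n} (h : (Q n).Adj x z) (q : (Q n).Walk z y),
    ∃ k : Bool, |band x (levc n s(x, z)) - band y k| ≤
      (changes ((SimpleGraph.Walk.cons h q).edges.map (levc n)) : ℤ)
  | x, z, _, h, .nil => by
    refine ⟨levc n s(x, z), ?_⟩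
    rw [band_adj h]
    simp
  | x, z, y, h, .cons (v := v) h' q => by
    obtain ⟨k, hk⟩ := walk_band h' q
    refine ⟨k, ?_⟩
    have h1 := band_change z (levc n s(x, z)) (levc n s(z, v))
    rw [band_adj h]
    have h2 : (changes ((SimpleGraph.Walk.cons h (SimpleGraph.Walk.cons h' q)).edges.map
        (levc n)) : ℤ) = (if levc n s(x, z) = levc n s(z, v) then 0 else 1) +
        (changes ((SimpleGraph.Walk.cons h' q).edges.map (levc n)) : ℤ) := by
      simp only [SimpleGraph.Walk.edges_cons, List.map_cons, changes]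
      push_cast
      rfl
    rw [h2]
    have h3 := abs_sub_le (band z (levc n s(x, z))) (band z (levc n s(z, v))) (band y k)
    exact h3.trans (add_le_add h1 hk)

theorem walk_lower {x y : V n} (p : (Q n).Walk x y) :
    |(N x : ℤ) - N y| ≤ (changes (p.edges.map (levc n)) : ℤ) + 1 := by
  cases p with
  | nil => simp [changes]
  | @cons _ v _ h q =>
    obtain ⟨k, hk⟩ := walk_band h q
    have h1 := band_near x (levc n s(x, v))
    have h2 := band_near y k
    rw [abs_le] at hk ⊢
    constructor <;> omega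

/-- the antipode -/
def anti (u : V n) : V n := fun i => !u i

theorem Sg_eq (u : V n) : Sg u = (n : ℤ) - 2 * N u := by
  unfold Sg N
  rw [card_filter]
  push_cast
  have : ∀ d, sg (u d) = 1 - 2 * (if u d = true then 1 else 0 : ℤ) := by
    intro d; cases u d <;> simp [sg]
  rw [sum_congr rfl (fun d _ => this d), sum_sub_distrib, ← mul_sum]
  simp

theorem N_anti (u : V n) : (N (anti u) : ℤ) = n - N u := by
  have h : N (anti u) + N u = n := by
    unfold N anti
    have h1 := card_filter_add_card_filter_not (s := (univ : Finset (Fin n)))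
      (fun i => u i = true)
    rw [card_univ, Fintype.card_fin] at h1
    have h2 : (univ.filter (fun i => (!u i) = true)) = univ.filter (fun i => ¬ u i = true) := by
      ext i; simp
    rw [h2]; omega
  omega

theorem anti_lower (u : V n) (p : (Q n).Walk u (anti u)) :
    |((Sg u : ℤ) : ℝ)| - 1 ≤ (changes (p.edges.map (levc n)) : ℝ) := by
  have h1 := walk_lower p
  rw [N_anti, show (N u : ℤ) - ((n : ℤ) - N u) = -(Sg u) by rw [Sg_eq]; ring, abs_neg] at h1
  have h2 : (|((Sg u : ℤ) : ℝ)|) ≤ (changes (p.edges.map (levc n)) : ℝ) + 1 := by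
    exact_mod_cast h1
  linarith

end Pool.Agent.CubeHom
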