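import Pool.Agent.Lib_MP_801c1a_co.Main
import Pool.Agent.Lib_MP_a0ec0b_co.Walks

/-!
MP_a0ec0b_co: average number of colour changes between a uniformly random pair of vertices, from
the one step inequality of `Lib_MP_801c1a_co`.
-/

set_option autoImplicit false
set_option linter.unusedVariables false

namespace Pool.MP_801c1a_co.Sub
open Finset

/-- the estimate for sparse sets of directions -/
theorem avg_sparse {n : ℕ} (hn : 2 ≤ n) (g : V n → Fin n → Bool)
    (hg : ∀ z m, g (flip z m) m = g z m) (x : ℝ) (hx1 : 1 ≤ x) (hx : x ^ 8 = n)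
    (hη : 2 * Real.log n ≤ x) (q : ℝ) (hq0 : 0 ≤ q) (hq : q ≤ 1 / x ^ 4) (hq2 : q ≤ 1 / 2) :
    avg g q + 1 ≤ 300 * (x ^ 3 * Real.log n) := by
  have hne : NeZero n := ⟨by omega⟩
  have hx0 : 0 < x := by linarith
  have hn' : (2 : ℝ) ≤ n := by exact_mod_cast hn
  have hlog : (0.69 : ℝ) ≤ Real.log n := by
    calc (0.69 : ℝ) ≤ Real.log 2 := by linarith [Real.log_two_gt_d9]
      _ ≤ Real.log n := Real.log_le_log (by norm_num) hn'
  set L := Real.log n with hL
  have hL0 : 0 ≤ L := by linarith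
  -- parameters
  set R : ℕ := 2 * ⌈x ^ 3⌉₊ with hR
  set η : ℝ := 2 * L / x with hηdef
  set θ : ℝ := 1 / x ^ 2 with hθdef
  have hx4 : 1 < x ^ 4 := by
    by_contra hcon
    have h1 : x ^ 4 ≤ 1 := not_lt.mp hcon
    have h2 : x ^ 8 ≤ 1 := by
      calc x ^ 8 = x ^ 4 * x ^ 4 := by ring
        _ ≤ 1 * 1 := by
          apply mul_le_mul h1 h1 (by positivity) (by norm_num)
        _ = 1 := by norm_num
    rw [hx] at h2
    linarith
  have hRpos : 0 < R := by
    have : 0 < ⌈x ^ 3⌉₊ := Nat.ceil_pos.mpr (by positivity)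
    omega
  have hReven : Even R := ⟨⌈x ^ 3⌉₊, by omega⟩
  have hRge : 2 * x ^ 3 ≤ R := by
    have := Nat.le_ceil (x ^ 3)
    rw [hR]; push_cast; linarith
  have hRle : (R : ℝ) ≤ 4 * x ^ 3 := by
    have h1 : (⌈x ^ 3⌉₊ : ℝ) < x ^ 3 + 1 := Nat.ceil_lt_add_one (by positivity)
    have h2 : 1 ≤ x ^ 3 := one_le_pow₀ hx1
    rw [hR]; push_cast; linarith
  have hη0 : 0 ≤ η := by positivity
  have hη1 : η ≤ 1 := by
    rw [hηdef, div_le_one hx0]; exact hη
  have hθ0 : 0 ≤ θ := by positivity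
  have hθ1 : θ ≤ 1 := by
    rw [hθdef, div_le_one (by positivity)]
    exact one_le_pow₀ hx1
  -- the sequence of probabilities
  set p : ℕ → ℝ := fun k => q * ((1 - η) / 2) ^ k with hp
  have hp0 : ∀ k, 0 ≤ p k := by
    intro k
    have : 0 ≤ (1 - η) / 2 := by linarith
    positivity
  have hple : ∀ k, p k ≤ (1 / x ^ 4) * (1 / 2) ^ k := by
    intro k
    have h0 : 0 ≤ (1 - η) / 2 := by linarith
    apply mul_le_mul
    · exact hq
    · apply pow_le_pow_left₀ h0
      linarith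
    · positivity
    · positivity
  have hphalf : ∀ k, p k ≤ 1 / 2 := by
    intro k
    have h0 : 0 ≤ (1 - η) / 2 := by linarith
    have h2 : ((1 - η) / 2) ^ k ≤ 1 := pow_le_one₀ h0 (by linarith)
    calc p k = q * ((1 - η) / 2) ^ k := rfl
      _ ≤ (1 / 2) * 1 := mul_le_mul hq2 h2 (by positivity) (by norm_num)
      _ = 1 / 2 := by norm_num
  have hpsucc : ∀ k, p k * (1 - η) / 2 = p (k + 1) := by
    intro k
    simp only [hp]
    rw [pow_succ]; ring
  set a : ℕ → ℝ := fun k => avg g (p k) with ha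
  have ha0 : ∀ k, 0 ≤ a k := fun k => avg_nonneg g (p k) (hp0 k) (by linarith [hphalf k])
  have hxn : (n : ℝ) = x ^ 8 := hx.symm
  -- the one step inequality
  have hstep : ∀ k, a k ≤ (R + 16) + Real.exp ((1 / 4 : ℝ) ^ k) *
      (a (k + 1) + (2 * x ^ 3 * L + 2) * (1 / 2) ^ k) := by
    intro k
    have h1 := one_step hRpos hReven g hg (p k) η θ (hp0 k) (hphalf k) hη0 hη1 hθ0 hθ1
    rw [hpsucc k] at h1
    have hpk := hple k
    have hpk0 := hp0 k
    -- n p^2
    have h2 : (n : ℝ) * p k ^ 2 ≤ (1 / 4) ^ k := by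
      calc (n : ℝ) * p k ^ 2 ≤ x ^ 8 * ((1 / x ^ 4) * (1 / 2) ^ k) ^ 2 := by
            rw [hxn]
            gcongr
        _ = (1 / 4) ^ k := by
            have : ((1 / 4 : ℝ)) ^ k = ((1 / 2) ^ k) ^ 2 := by
              rw [← pow_mul, mul_comm k 2, pow_mul]; norm_num
            rw [this]
            field_simp
    have h3 : (n : ℝ) * (p k * η + 2 * p k ^ 2) ≤ (2 * x ^ 3 * L + 2) * (1 / 2) ^ k := by
      have e1 : (n : ℝ) * (p k * η) ≤ 2 * x ^ 3 * L * (1 / 2) ^ k := by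
        calc (n : ℝ) * (p k * η) ≤ x ^ 8 * (((1 / x ^ 4) * (1 / 2) ^ k) * η) := by
              rw [hxn]
              gcongr
          _ = 2 * x ^ 3 * L * (1 / 2) ^ k := by
              rw [hηdef]
              field_simp
      have e2 : (n : ℝ) * p k ^ 2 ≤ (1 / 2) ^ k := by
        refine h2.trans ?_
        exact pow_le_pow_left₀ (by norm_num) (by norm_num) k
      calc (n : ℝ) * (p k * η + 2 * p k ^ 2) = (n : ℝ) * (p k * η) + 2 * ((n : ℝ) * p k ^ 2) := by
            ring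
        _ ≤ 2 * x ^ 3 * L * (1 / 2) ^ k + 2 * (1 / 2) ^ k := by linarith
        _ = (2 * x ^ 3 * L + 2) * (1 / 2) ^ k := by ring
    -- the error term
    have h4 : (n : ℝ) * (n * (2 * Real.exp (2 * p k * n * θ ^ 2 - θ * (η * R / 2)))) ≤ 16 := by
      have e1 : 2 * p k * n * θ ^ 2 ≤ 2 := by
        have hk : p k ≤ 1 / x ^ 4 := by
          refine hpk.trans ?_
          have : ((1 / 2 : ℝ)) ^ k ≤ 1 := pow_le_one₀ (by norm_num) (by norm_num)
          calc (1 / x ^ 4) * (1 / 2 : ℝ) ^ k ≤ (1 / x ^ 4) * 1 := by gcongr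
            _ = 1 / x ^ 4 := by ring
        calc 2 * p k * n * θ ^ 2 ≤ 2 * (1 / x ^ 4) * x ^ 8 * (1 / x ^ 2) ^ 2 := by
              rw [hxn, hθdef]
              gcongr
          _ = 2 := by field_simp
      have e2 : 2 * L ≤ θ * (η * R / 2) := by
        calc 2 * L = (1 / x ^ 2) * ((2 * L / x) * (2 * x ^ 3) / 2) := by field_simp
          _ ≤ θ * (η * R / 2) := by
              rw [hθdef, hηdef]
              gcongr
      have e3 : Real.exp (2 * p k * n * θ ^ 2 - θ * (η * R / 2)) ≤ Real.exp 2 / (n : ℝ) ^ 2 := by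
        calc Real.exp (2 * p k * n * θ ^ 2 - θ * (η * R / 2)) ≤ Real.exp (2 - 2 * L) :=
              Real.exp_le_exp.mpr (by linarith)
          _ = Real.exp 2 / (n : ℝ) ^ 2 := by
              rw [Real.exp_sub]
              congr 1
              rw [hL, mul_comm, Real.exp_mul, Real.exp_log (by linarith)]
              norm_num
      have e4 : Real.exp 2 ≤ 8 := by
        have h1 : Real.exp 1 < 2.7182818286 := Real.exp_one_lt_d9
        have h2 : Real.exp 2 = Real.exp 1 ^ 2 := by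
          rw [← Real.exp_nat_mul]; norm_num
        rw [h2]
        have h0 : 0 ≤ Real.exp 1 := (Real.exp_pos 1).le
        calc Real.exp 1 ^ 2 ≤ 2.7182818286 ^ 2 := by gcongr
          _ ≤ 8 := by norm_num
      have hn0 : (0 : ℝ) < n := by linarith
      calc (n : ℝ) * (n * (2 * Real.exp (2 * p k * n * θ ^ 2 - θ * (η * R / 2))))
          ≤ (n : ℝ) * (n * (2 * (Real.exp 2 / (n : ℝ) ^ 2))) := by gcongr
        _ = 2 * Real.exp 2 := by field_simp
        _ ≤ 16 := by linarith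
    have h5 : Real.exp (n * p k ^ 2) * (avg g (p (k + 1)) + n * (p k * η + 2 * p k ^ 2))
        ≤ Real.exp ((1 / 4 : ℝ) ^ k) * (a (k + 1) + (2 * x ^ 3 * L + 2) * (1 / 2) ^ k) := by
      have h6 : 0 ≤ avg g (p (k + 1)) := ha0 (k + 1)
      apply mul_le_mul (Real.exp_le_exp.mpr h2)
      · simp only [ha]; linarith
      · positivity
      · positivity
    simp only [ha] at *
    linarith
  have hiter := iterate_bound a ha0 (R + 16) (2 * x ^ 3 * L + 2) (by positivity) (by positivity)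
    hstep (Nat.log 2 n + 1)
  -- the last term
  set K : ℕ := Nat.log 2 n + 1 with hK
  have hKpow : n < 2 ^ K := Nat.lt_pow_succ_log_self (by norm_num) n
  have haK : a K ≤ 1 := by
    have h1 : a K ≤ n * p K := avg_le g (p K) (hp0 K) (by linarith [hphalf K])
    have h2 : (n : ℝ) * p K ≤ x ^ 8 * ((1 / x ^ 4) * (1 / 2) ^ K) := by
      rw [hxn]
      have := hple K
      gcongr
    have h3 : ((1 / 2 : ℝ)) ^ K ≤ 1 / x ^ 8 := by
      rw [one_div_pow]
      apply one_div_le_one_div_of_le (by positivity)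
      rw [hx]
      exact_mod_cast hKpow.le
    have h4 : x ^ 8 * ((1 / x ^ 4) * (1 / 2) ^ K) ≤ x ^ 8 * ((1 / x ^ 4) * (1 / x ^ 8)) := by
      gcongr
    have h5 : x ^ 8 * ((1 / x ^ 4) * (1 / x ^ 8)) = 1 / x ^ 4 := by field_simp
    have h6 : 1 / x ^ 4 ≤ 1 := by
      rw [div_le_one (by positivity)]; exact hx4.le
    linarith
  have hKle : (K : ℝ) ≤ 3 * L := by
    have h1 : (2 : ℝ) ^ (Nat.log 2 n) ≤ n := by
      exact_mod_cast Nat.pow_log_le_self 2 (by omega)
    have h2 : (Nat.log 2 n : ℝ) * Real.log 2 ≤ L := by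
      rw [← Real.log_pow]
      exact Real.log_le_log (by positivity) h1
    have h3 : Real.log 2 ≤ L := Real.log_le_log (by norm_num) hn'
    have h4 := Real.log_two_gt_d9
    have h5 : (K : ℝ) * Real.log 2 ≤ 2 * L := by
      rw [hK]; push_cast; linarith
    have hK0 : (0 : ℝ) ≤ K := Nat.cast_nonneg _
    nlinarith [h5, h4, hK0]
  have ha00 : avg g q = a 0 := by
    simp [ha, hp]
  rw [ha00]
  -- final computation
  have hx3 : 1 ≤ x ^ 3 := one_le_pow₀ hx1
  have hxL : 0.69 ≤ x ^ 3 * L := by nlinarith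
  have h1 : (K : ℝ) * (R + 16) ≤ 3 * L * (20 * x ^ 3) := by
    apply mul_le_mul hKle _ (by positivity) (by positivity)
    linarith
  nlinarith [hiter, h1, haK, hxL]

theorem sum_half {n ρ : ℕ} (hρ : 0 < ρ) (F : V n → ℝ) :
    ∑ a : Fin n → Fin (2 * ρ), (∏ _m : Fin n, (1 / ((2 * ρ : ℕ) : ℝ))) *
        F (fun m => decide ((a m).val < ρ))
      = ∑ S : V n, (∏ m, bern (1 / 2) (S m)) * F S := by
  have hρ' : (ρ : ℝ) ≠ 0 := by
    have : (0 : ℝ) < ρ := by exact_mod_cast hρ
    exact this.ne'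
  have h := sum_push_rounds (n := n) (A := Fin (2 * ρ)) (B := Bool)
    (fun _ _ => (1 / ((2 * ρ : ℕ) : ℝ))) (fun _ a => decide (a.val < ρ)) F
  rw [h]
  refine Finset.sum_congr rfl (fun S _ => ?_)
  congr 1
  refine Finset.prod_congr rfl (fun m _ => ?_)
  have hc : (univ.filter (fun a : Fin (2 * ρ) => decide (a.val < ρ) = true)).card = ρ := by
    have h1 : univ.filter (fun a : Fin (2 * ρ) => decide (a.val < ρ) = true)
        = univ.filter (fun a : Fin (2 * ρ) => a.val < ρ) := by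
      ext a; simp
    rw [h1, Fin.card_filter_val_lt]
    omega
  cases hS : S m with
  | true =>
    rw [Finset.sum_const, hc, nsmul_eq_mul]
    simp only [bern]
    push_cast
    field_simp
  | false =>
    have hc2 : (univ.filter (fun a : Fin (2 * ρ) => decide (a.val < ρ) = false)).card = ρ := by
      have h3 := Finset.card_filter_add_card_filter_not (s := (univ : Finset (Fin (2 * ρ))))
        (fun a : Fin (2 * ρ) => decide (a.val < ρ) = true)
      rw [hc] at h3
      simp only [Finset.card_univ, Fintype.card_fin, Bool.not_eq_true] at h3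
      omega
    rw [Finset.sum_const, hc2, nsmul_eq_mul]
    simp only [bern]
    push_cast
    field_simp
    norm_num

theorem rounds_half {n ρ : ℕ} (hρ : 0 < ρ) (g : V n → Fin n → Bool) :
    avg g (1 / 2) ≤ ρ * (avg g (1 / ((2 * ρ : ℕ) : ℝ)) + 1) := by
  have hρ0 : (0 : ℝ) < ρ := by exact_mod_cast hρ
  have h2ρ : 0 < 2 * ρ := by omega
  have h2ρ0 : (0 : ℝ) < ((2 * ρ : ℕ) : ℝ) := by exact_mod_cast h2ρ
  have h2n : (0 : ℝ) < 2 ^ n := by positivity
  -- pointwise in a
  have key : ∀ a : Fin n → Fin (2 * ρ),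
      (∑ x : V n, (cost g x (fun m => decide ((a m).val < ρ)) : ℝ)) ≤
      ∑ i ∈ range ρ, ((∑ x : V n, (cost g x (fun m => decide ((a m).val = i)) : ℝ)) + 2 ^ n) := by
    intro a
    have h1 : ∀ x : V n, (cost g x (fun m => decide ((a m).val < ρ)) : ℝ) ≤
        ∑ i ∈ range ρ, ((cost g (fun m => x m ^^ decide ((a m).val < i))
          (fun m => decide ((a m).val = i)) : ℝ) + 1) := by
      intro x
      have h := cost_rounds_aux g a x ρ
      exact_mod_cast h
    refine (Finset.sum_le_sum (fun x _ => h1 x)).trans (le_of_eq ?_)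
    rw [Finset.sum_comm]
    refine Finset.sum_congr rfl (fun i _ => ?_)
    rw [Finset.sum_add_distrib]
    congr 1
    · exact sum_xor (fun m => decide ((a m).val < i))
        (fun y => (cost g y (fun m => decide ((a m).val = i)) : ℝ))
    · simp
  have hone : ∑ a : Fin n → Fin (2 * ρ), (∏ _m : Fin n, (1 / ((2 * ρ : ℕ) : ℝ))) = 1 := by
    simp only [Finset.prod_const, Finset.sum_const, Finset.card_univ, Fintype.card_fin,
      Fintype.card_pi, nsmul_eq_mul, Nat.cast_pow]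
    rw [← mul_pow, mul_one_div, div_self h2ρ0.ne', one_pow]
  have hlhs : ∑ a : Fin n → Fin (2 * ρ), (∏ _m : Fin n, (1 / ((2 * ρ : ℕ) : ℝ))) *
      (∑ x : V n, (cost g x (fun m => decide ((a m).val < ρ)) : ℝ)) = 2 ^ n * avg g (1 / 2) := by
    rw [sum_half hρ (fun S : V n => ∑ x : V n, (cost g x S : ℝ)), avg,
      mul_div_cancel₀ _ h2n.ne', Finset.sum_comm]
    simp only [Finset.mul_sum]
  have hmain : 2 ^ n * avg g (1 / 2) ≤
      ∑ a : Fin n → Fin (2 * ρ), (∏ _m : Fin n, (1 / ((2 * ρ : ℕ) : ℝ))) *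
        ∑ i ∈ range ρ, ((∑ x : V n, (cost g x (fun m => decide ((a m).val = i)) : ℝ)) + 2 ^ n) := by
    rw [← hlhs]
    exact Finset.sum_le_sum (fun a _ => mul_le_mul_of_nonneg_left (key a)
          (Finset.prod_nonneg (fun _ _ => by positivity)))
  have heq : ∑ a : Fin n → Fin (2 * ρ), (∏ _m : Fin n, (1 / ((2 * ρ : ℕ) : ℝ))) *
        ∑ i ∈ range ρ, ((∑ x : V n, (cost g x (fun m => decide ((a m).val = i)) : ℝ)) + 2 ^ n)
      = ρ * (2 ^ n * avg g (1 / ((2 * ρ : ℕ) : ℝ)) + 2 ^ n) := by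
    simp only [Finset.mul_sum]
    rw [Finset.sum_comm]
    have : ∀ i ∈ range ρ, ∑ a : Fin n → Fin (2 * ρ), (∏ _m : Fin n, (1 / ((2 * ρ : ℕ) : ℝ))) *
        ((∑ x : V n, (cost g x (fun m => decide ((a m).val = i)) : ℝ)) + 2 ^ n)
        = 2 ^ n * avg g (1 / ((2 * ρ : ℕ) : ℝ)) + 2 ^ n := by
      intro i hi
      rw [Finset.mem_range] at hi
      have h5 := sum_uniform h2ρ i (by omega)
        (fun S : V n => (∑ x : V n, (cost g x S : ℝ)) + 2 ^ n)
      rw [h5]
      have hbern : ∑ S : V n, (∏ m, bern (1 / ((2 * ρ : ℕ) : ℝ)) (S m)) = 1 := by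
        have h6 := sum_uniform (n := n) h2ρ i (by omega) (fun _ => (1 : ℝ))
        simp only [mul_one] at h6
        rw [← h6, hone]
      simp only [mul_add]
      rw [Finset.sum_add_distrib, ← Finset.sum_mul, hbern, one_mul, avg,
        mul_div_cancel₀ _ h2n.ne', Finset.sum_comm]
      simp only [Finset.mul_sum]
    rw [Finset.sum_congr rfl this, Finset.sum_const, Finset.card_range, nsmul_eq_mul]
  rw [heq] at hmain
  have h7 : 2 ^ n * avg g (1 / 2) ≤ 2 ^ n * (ρ * (avg g (1 / ((2 * ρ : ℕ) : ℝ)) + 1)) := by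
    refine hmain.trans (le_of_eq ?_)
    ring
  exact le_of_mul_le_mul_left h7 h2n

/-- average over uniformly random pairs -/
theorem avg_half {n : ℕ} (hn : 2 ≤ n) (g : V n → Fin n → Bool)
    (hg : ∀ z m, g (flip z m) m = g z m) :
    avg g (1 / 2) ≤ 600 * ((n : ℝ) ^ (7 / 8 : ℝ) * Real.log n) := by
  have hn' : (2 : ℝ) ≤ n := by exact_mod_cast hn
  have hn0 : (0 : ℝ) ≤ n := by linarith
  set x : ℝ := (n : ℝ) ^ (1 / 8 : ℝ) with hxdef
  have hx8 : x ^ 8 = n := by
    rw [hxdef, ← Real.rpow_natCast, ← Real.rpow_mul hn0]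
    norm_num
  have hx7 : x ^ 7 = (n : ℝ) ^ (7 / 8 : ℝ) := by
    rw [hxdef, ← Real.rpow_natCast, ← Real.rpow_mul hn0]
    norm_num
  have hx1 : 1 ≤ x := Real.one_le_rpow (by linarith) (by norm_num)
  rw [← hx7]
  by_cases hη : 2 * Real.log n ≤ x
  · have hL0 : 0 ≤ Real.log n := Real.log_nonneg (by linarith)
    set ρ : ℕ := ⌈x ^ 4⌉₊ with hρ
    have hρge : x ^ 4 ≤ ρ := Nat.le_ceil _
    have hx4 : 1 ≤ x ^ 4 := one_le_pow₀ hx1
    have hρle : (ρ : ℝ) ≤ 2 * x ^ 4 := by
      have h1 : (ρ : ℝ) < x ^ 4 + 1 := Nat.ceil_lt_add_one (by positivity)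
      linarith
    have hρ0 : (0 : ℝ) < ρ := by linarith
    have hρpos : 0 < ρ := by exact_mod_cast hρ0
    have hρ1 : (1 : ℝ) ≤ ρ := by linarith
    have hq : 1 / ((2 * ρ : ℕ) : ℝ) ≤ 1 / x ^ 4 := by
      apply one_div_le_one_div_of_le (by positivity)
      push_cast; linarith
    have hq2 : 1 / ((2 * ρ : ℕ) : ℝ) ≤ 1 / 2 := by
      apply one_div_le_one_div_of_le (by norm_num)
      push_cast; linarith
    have h1 := avg_sparse hn g hg x hx1 hx8 hη (1 / ((2 * ρ : ℕ) : ℝ)) (by positivity) hq hq2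
    have h2 := rounds_half hρpos g
    calc avg g (1 / 2) ≤ ρ * (avg g (1 / ((2 * ρ : ℕ) : ℝ)) + 1) := h2
      _ ≤ ρ * (300 * (x ^ 3 * Real.log n)) := by
          apply mul_le_mul_of_nonneg_left h1 hρ0.le
      _ ≤ (2 * x ^ 4) * (300 * (x ^ 3 * Real.log n)) := by
          apply mul_le_mul_of_nonneg_right hρle (by positivity)
      _ = 600 * (x ^ 7 * Real.log n) := by ring
  · have h1 := avg_le g (1 / 2) (by norm_num) (by norm_num)
    have h2 : (n : ℝ) * (1 / 2) ≤ 600 * (x ^ 7 * Real.log n) := by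
      have h3 : x ≤ 2 * Real.log n := le_of_lt (not_le.mp hη)
      calc (n : ℝ) * (1 / 2) ≤ n := by linarith
        _ = x ^ 7 * x := by rw [← hx8]; ring
        _ ≤ x ^ 7 * (2 * Real.log n) := by gcongr
        _ ≤ 600 * (x ^ 7 * Real.log n) := by
            have h4 : 0 ≤ x ^ 7 * Real.log n := by
              have : 0 ≤ Real.log n := Real.log_nonneg (by linarith)
              positivity
            nlinarith
    linarith

/-- the same as a plain double sum -/
theorem sum_sum_le {n : ℕ} (hn : 2 ≤ n) (g : V n → Fin n → Bool)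
    (hg : ∀ z m, g (flip z m) m = g z m) :
    ∑ x : V n, ∑ S : V n, (cost g x S : ℝ)
      ≤ 2 ^ n * (2 ^ n * (600 * ((n : ℝ) ^ (7 / 8 : ℝ) * Real.log n))) := by
  have h := avg_half hn g hg
  unfold avg at h
  rw [div_le_iff₀ (by positivity)] at h
  have hb : ∀ S : V n, (∏ m, bern (1 / 2) (S m)) = ((1 / 2 : ℝ)) ^ n := by
    intro S
    rw [← Fin.prod_const]
    refine Finset.prod_congr rfl (fun m _ => ?_)
    cases S m <;> norm_num [bern]
  simp only [hb, ← Finset.mul_sum] at h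
  have h2 : (∑ x : V n, ∑ S : V n, (cost g x S : ℝ))
      = 2 ^ n * ((1 / 2 : ℝ) ^ n * ∑ x : V n, ∑ S : V n, (cost g x S : ℝ)) := by
    rw [← mul_assoc, ← mul_pow]; norm_num
  rw [h2]
  apply mul_le_mul_of_nonneg_left _ (by positivity)
  linarith

end Pool.MP_801c1a_co.Sub
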