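import Pool.Agent.Lib_MP_a0ec0b_co.SubWalk

/-!
Paths with few colour changes from `u` to `f u`, for an arbitrary permutation `f` of the vertices
of the 2-edge-coloured cube.
-/

set_option autoImplicit false

namespace Pool.Agent.Results.MP_a0ec0b_co.SublinearPaths

open Pool.Agent.CubeHom

/-- The cube graph on `Fin n → Bool`: two vertices are adjacent when they differ in exactly one
coordinate. -/
def Cube (n : ℕ) : SimpleGraph (Fin n → Bool) :=
  SimpleGraph.fromRel fun x y : Fin n → Bool => hammingDist x y = 1

/-- Number of colour changes in a list of colours: the number of places where two consecutive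
entries are different. -/
def colourChanges : List Bool → ℕ
  | [] => 0
  | [_] => 0
  | a :: b :: l => (if a = b then 0 else 1) + colourChanges (b :: l)

theorem colourChanges_eq : ∀ l : List Bool, colourChanges l = changes l
  | [] => rfl
  | [_] => rfl
  | a :: b :: l => by
    simp only [colourChanges, changes]
    rw [colourChanges_eq (b :: l)]

/-- For every permutation `f` of the vertices of the `n`-cube (`n ≥ 2`) and every 2-colouring of
the edges one can choose for each vertex `u` a path from `u` to `f u` such that the average number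
of colour changes of these paths is at most `1201 n^(7/8) log n`. In particular some `u` is joined
to `f u` by a path with at most so many colour changes; the case of an automorphism `f` of the cube
is the second part. -/
theorem result : ∀ n : ℕ, 2 ≤ n → ∀ c : Sym2 (Fin n → Bool) → Bool,
    (∀ f : Equiv.Perm (Fin n → Bool),
      ∃ p : ∀ u : Fin n → Bool, (Cube n).Walk u (f u), (∀ u, (p u).IsPath) ∧
        (∑ u : Fin n → Bool, (colourChanges ((p u).edges.map c) : ℝ)) / 2 ^ n
          ≤ 1201 * (n : ℝ) ^ (7 / 8 : ℝ) * Real.log n) ∧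
    (∀ φ : Cube n ≃g Cube n, ∃ (u : Fin n → Bool) (p : (Cube n).Walk u (φ u)), p.IsPath ∧
      (colourChanges (p.edges.map c) : ℝ) ≤ 1201 * (n : ℝ) ^ (7 / 8 : ℝ) * Real.log n) := by
  intro n hn c
  have h1 : ∀ f : Equiv.Perm (Fin n → Bool),
      ∃ p : ∀ u : Fin n → Bool, (Cube n).Walk u (f u), (∀ u, (p u).IsPath) ∧
        (∑ u : Fin n → Bool, (colourChanges ((p u).edges.map c) : ℝ)) / 2 ^ n
          ≤ 1201 * (n : ℝ) ^ (7 / 8 : ℝ) * Real.log n := by
    intro f
    obtain ⟨p, hp1, hp2⟩ := main_paths hn f c
    refine ⟨p, hp1, ?_⟩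
    simp only [colourChanges_eq]
    exact hp2
  refine ⟨h1, ?_⟩
  intro φ
  obtain ⟨p, hp1, hp2⟩ := h1 φ.toEquiv
  by_contra hcon
  push Not at hcon
  have h2n : (0 : ℝ) < 2 ^ n := by positivity
  rw [div_le_iff₀ h2n] at hp2
  have h3 : ∑ u : Fin n → Bool, (1201 * (n : ℝ) ^ (7 / 8 : ℝ) * Real.log n)
      < ∑ u : Fin n → Bool, (colourChanges ((p u).edges.map c) : ℝ) :=
    Finset.sum_lt_sum_of_nonempty ⟨fun _ => true, Finset.mem_univ _⟩
      (fun u _ => hcon u (p u) (hp1 u))
  rw [Finset.sum_const, Finset.card_univ] at h3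
  simp only [Fintype.card_pi, Fintype.card_bool, Finset.prod_const, Finset.card_univ,
    Fintype.card_fin, nsmul_eq_mul, Nat.cast_pow, Nat.cast_ofNat] at h3
  linarith

end Pool.Agent.Results.MP_a0ec0b_co.SublinearPaths
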