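import Mathlib

/-!
# The alternation functional (mod 2)

`q M A B = 1` iff the labels `< M` of the (disjoint) sets `A`, `B` alternate, starting with a
maximal element in `A`.
-/

set_option autoImplicit false

namespace Pool.Agent.TwoChanges

open Finset

/-- the alternation functional -/
def q : ℕ → Finset ℕ → Finset ℕ → ZMod 2
  | 0, _, _ => 1
  | M + 1, A, B => if M ∈ A then q M B A else if M ∈ B then 0 else q M A B

theorem q_congr : ∀ (M : ℕ) {A A' B B' : Finset ℕ}, (∀ k < M, k ∈ A ↔ k ∈ A') →
    (∀ k < M, k ∈ B ↔ k ∈ B') → q M A B = q M A' B' := by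
  intro M
  induction M with
  | zero => intro A A' B B' _ _; rfl
  | succ M ih =>
    intro A A' B B' hA hB
    have h1 := hA M (Nat.lt_succ_self M)
    have h2 := hB M (Nat.lt_succ_self M)
    have hA' : ∀ k < M, k ∈ A ↔ k ∈ A' := fun k hk => hA k (Nat.lt_succ_of_lt hk)
    have hB' : ∀ k < M, k ∈ B ↔ k ∈ B' := fun k hk => hB k (Nat.lt_succ_of_lt hk)
    simp only [q, h1, h2]
    rw [ih hA' hB', ih hB' hA']

theorem q_erase_self (M : ℕ) (A B : Finset ℕ) : q M (A.erase M) B = q M A B :=
  q_congr M (fun k hk => by simp [hk.ne]) (fun _ _ => Iff.rfl)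

theorem q_erase_self' (M : ℕ) (A B : Finset ℕ) : q M A (B.erase M) = q M A B :=
  q_congr M (fun _ _ => Iff.rfl) (fun k hk => by simp [hk.ne])

theorem add_self_zmod2 (x : ZMod 2) : x + x = 0 := CharTwo.add_self_eq_zero x

theorem filter_lt_succ_of_notMem {M : ℕ} {A : Finset ℕ} (h : M ∉ A) :
    A.filter (· < M + 1) = A.filter (· < M) := by
  ext k
  simp only [mem_filter]
  constructor
  · rintro ⟨h1, h2⟩
    refine ⟨h1, lt_of_le_of_ne (Nat.lt_succ_iff.1 h2) ?_⟩
    rintro rfl
    exact h h1
  · rintro ⟨h1, h2⟩
    exact ⟨h1, Nat.lt_succ_of_lt h2⟩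

theorem filter_lt_succ_of_mem {M : ℕ} {A : Finset ℕ} (h : M ∈ A) :
    A.filter (· < M + 1) = insert M (A.filter (· < M)) := by
  ext k
  simp only [mem_filter, mem_insert]
  constructor
  · rintro ⟨h1, h2⟩
    rcases Nat.lt_succ_iff_lt_or_eq.1 h2 with h3 | h3
    · exact Or.inr ⟨h1, h3⟩
    · exact Or.inl h3
  · rintro (rfl | ⟨h1, h2⟩)
    · exact ⟨h, Nat.lt_succ_self _⟩
    · exact ⟨h1, Nat.lt_succ_of_lt h2⟩

/-- the boundary identity -/
theorem q_identity : ∀ (M : ℕ) {A B : Finset ℕ}, Disjoint A B →
    ∑ a ∈ A.filter (· < M), q M (A.erase a) B + ∑ b ∈ B.filter (· < M), q M A (B.erase b) =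
      q M A B + q M B A := by
  intro M
  induction M with
  | zero =>
    intro A B _
    simp only [q, Nat.not_lt_zero, filter_false, sum_empty]
    decide
  | succ M ih =>
    intro A B hAB
    by_cases hA : M ∈ A
    · have hB : M ∉ B := fun h => Finset.disjoint_left.1 hAB hA h
      rw [filter_lt_succ_of_mem hA, filter_lt_succ_of_notMem hB, sum_insert (by simp)]
      have e1 : q (M + 1) (A.erase M) B = q M A B := by
        simp only [q, mem_erase, ne_eq, not_true_eq_false, false_and, if_false, hB]
        exact q_erase_self M A B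
      have e2 : ∀ a ∈ A.filter (· < M), q (M + 1) (A.erase a) B = q M B (A.erase a) := by
        intro a ha
        have : M ≠ a := (mem_filter.1 ha).2.ne'
        simp only [q, mem_erase, ne_eq, this, not_false_eq_true, true_and, hA, if_true]
      have e3 : ∀ b ∈ B.filter (· < M), q (M + 1) A (B.erase b) = q M (B.erase b) A := by
        intro b _
        simp only [q, hA, if_true]
      rw [e1, sum_congr rfl e2, sum_congr rfl e3]
      have e4 : q (M + 1) A B = q M B A := by simp only [q, hA, if_true]
      have e5 : q (M + 1) B A = 0 := by simp only [q, hA, hB, if_true, if_false]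
      rw [e4, e5]
      have h := ih hAB.symm
      have e6 : q M A B + ∑ a ∈ A.filter (· < M), q M B (A.erase a) +
          ∑ b ∈ B.filter (· < M), q M (B.erase b) A =
          q M A B + (∑ b ∈ B.filter (· < M), q M (B.erase b) A +
            ∑ a ∈ A.filter (· < M), q M B (A.erase a)) := by ring
      rw [e6, h, add_zero, add_comm (q M B A), ← add_assoc, add_self_zmod2, zero_add]
    · by_cases hB : M ∈ B
      · rw [filter_lt_succ_of_notMem hA, filter_lt_succ_of_mem hB, sum_insert (by simp)]
        have e1 : q (M + 1) A (B.erase M) = q M A B := by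
          simp only [q, mem_erase, ne_eq, not_true_eq_false, false_and, if_false, hA]
          exact q_erase_self' M A B
        have e2 : ∀ a ∈ A.filter (· < M), q (M + 1) (A.erase a) B = 0 := by
          intro a _
          simp only [q, mem_erase, hA, and_false, if_false, hB, if_true]
        have e3 : ∀ b ∈ B.filter (· < M), q (M + 1) A (B.erase b) = 0 := by
          intro b hb
          have : M ≠ b := (mem_filter.1 hb).2.ne'
          simp only [q, hA, if_false, mem_erase, ne_eq, this, not_false_eq_true, true_and, hB,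
            if_true]
        rw [e1, sum_congr rfl e2, sum_congr rfl e3]
        have e4 : q (M + 1) A B = 0 := by simp only [q, hA, hB, if_true, if_false]
        have e5 : q (M + 1) B A = q M A B := by simp only [q, hB, if_true]
        rw [e4, e5]
        simp
      · rw [filter_lt_succ_of_notMem hA, filter_lt_succ_of_notMem hB]
        have e2 : ∀ a ∈ A.filter (· < M), q (M + 1) (A.erase a) B = q M (A.erase a) B := by
          intro a _
          simp only [q, mem_erase, hA, and_false, if_false, hB]
        have e3 : ∀ b ∈ B.filter (· < M), q (M + 1) A (B.erase b) = q M A (B.erase b) := by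
          intro b _
          simp only [q, mem_erase, hA, and_false, if_false, hB]
        rw [sum_congr rfl e2, sum_congr rfl e3, ih hAB]
        simp only [q, hA, hB, if_false]

/-- the identity when all labels are `< M` -/
theorem q_identity' {M : ℕ} {A B : Finset ℕ} (hAB : Disjoint A B) (hA : ∀ a ∈ A, a < M)
    (hB : ∀ b ∈ B, b < M) :
    ∑ a ∈ A, q M (A.erase a) B + ∑ b ∈ B, q M A (B.erase b) = q M A B + q M B A := by
  have h := q_identity M hAB
  rwa [Finset.filter_true_of_mem hA, Finset.filter_true_of_mem hB] at h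

theorem q_empty_left : ∀ {M : ℕ} {B : Finset ℕ}, (∃ b ∈ B, b < M) → q M ∅ B = 0 := by
  intro M
  induction M with
  | zero => rintro B ⟨b, _, h⟩; omega
  | succ M ih =>
    rintro B ⟨b, hb, hlt⟩
    simp only [q, notMem_empty, if_false]
    by_cases hM : M ∈ B
    · rw [if_pos hM]
    · rw [if_neg hM]
      refine ih ⟨b, hb, lt_of_le_of_ne (Nat.lt_succ_iff.1 hlt) ?_⟩
      rintro rfl
      exact hM hb

theorem q_empty_right : ∀ {M : ℕ} {A : Finset ℕ}, (∃ a ∈ A, ∃ b ∈ A, a ≠ b ∧ a < M ∧ b < M) →
    q M A ∅ = 0 := by
  intro M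
  induction M with
  | zero => rintro A ⟨a, _, b, _, _, h, _⟩; omega
  | succ M ih =>
    rintro A ⟨a, ha, b, hb, hab, hlta, hltb⟩
    simp only [q, notMem_empty, if_false]
    by_cases hM : M ∈ A
    · rw [if_pos hM]
      by_cases hMa : a = M
      · refine q_empty_left ⟨b, hb, ?_⟩
        omega
      · refine q_empty_left ⟨a, ha, ?_⟩
        omega
    · rw [if_neg hM]
      refine ih ⟨a, ha, b, hb, hab, ?_, ?_⟩
      · refine lt_of_le_of_ne (Nat.lt_succ_iff.1 hlta) ?_
        rintro rfl
        exact hM ha
      · refine lt_of_le_of_ne (Nat.lt_succ_iff.1 hltb) ?_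
        rintro rfl
        exact hM hb

theorem q_singletons {M a b : ℕ} (hab : a ≠ b) (ha : a < M) (hb : b < M) :
    q M {a} {b} + q M {b} {a} = 1 := by
  have h := q_identity' (M := M) (A := {a}) (B := {b}) (by simpa using hab)
    (by simpa using ha) (by simpa using hb)
  rw [← h, sum_singleton, sum_singleton]
  have e1 : ({a} : Finset ℕ).erase a = ∅ := by simp
  have e2 : ({b} : Finset ℕ).erase b = ∅ := by simp
  rw [e1, e2, q_empty_left ⟨b, by simp, hb⟩, zero_add]
  -- q M {a} ∅ = 1
  clear h e1 e2 hab hb
  induction M with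
  | zero => omega
  | succ M ih =>
    simp only [q, mem_singleton, notMem_empty, if_false]
    by_cases h : M = a
    · rw [if_pos h]
      subst h
      -- q M ∅ {M} = 1
      have : ∀ k ≤ M, q k ∅ {M} = 1 := by
        intro k
        induction k with
        | zero => intro _; rfl
        | succ k ihk =>
          intro hk
          simp only [q, notMem_empty, if_false, mem_singleton]
          rw [if_neg (by omega)]
          exact ihk (by omega)
      exact this M le_rfl
    · rw [if_neg h]
      exact ih (by omega)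

end Pool.Agent.TwoChanges
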