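import Pool.Agent.Lib_MP_a0ec0b_co.TwoAlt

/-!
# The chain functional

`E r k v w Ψ` sums `Ψ` over the label sets of all monotone chains from `v` to `w` (`k` steps) whose
labels are all new.
-/

set_option autoImplicit false

namespace Pool.Agent.TwoChanges

open Finset

/-- adjoin a label -/
def adj (a : ℕ) (Ψ : Finset ℕ → ZMod 2) (A : Finset ℕ) : ZMod 2 :=
  if a ∈ A then 0 else Ψ (insert a A)

/-- boundary -/
def bd (Ψ : Finset ℕ → ZMod 2) (A : Finset ℕ) : ZMod 2 := ∑ a ∈ A, Ψ (A.erase a)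

variable {n : ℕ}

/-- the chain functional -/
def E (r : Finset (Fin n) → ℕ) :
    ℕ → Finset (Fin n) → Finset (Fin n) → (Finset ℕ → ZMod 2) → ZMod 2
  | 0, _, w, Ψ => Ψ {r w}
  | k + 1, v, w, Ψ => ∑ i ∈ w \ v, E r k v (w.erase i) (adj (r w) Ψ)

variable (r : Finset (Fin n) → ℕ)

theorem adj_bd (a : ℕ) (Ψ : Finset ℕ → ZMod 2) (A : Finset ℕ) :
    adj a (bd Ψ) A = Ψ A + bd (adj a Ψ) A := by
  unfold adj bd
  by_cases ha : a ∈ A
  · rw [if_pos ha]
    have : ∑ b ∈ A, (if a ∈ A.erase b then 0 else Ψ (insert a (A.erase b))) = Ψ A := by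
      rw [Finset.sum_eq_single a]
      · rw [if_neg (by simp), insert_erase ha]
      · intro b _ hba
        rw [if_pos (mem_erase.2 ⟨hba.symm, ha⟩)]
      · intro h; exact absurd ha h
    rw [this, add_self_zmod2]
  · rw [if_neg ha, sum_insert ha, erase_insert ha]
    congr 1
    refine sum_congr rfl fun b hb => ?_
    have hab : a ≠ b := fun h => ha (h ▸ hb)
    beta_reduce
    rw [if_neg (fun h => ha (mem_of_mem_erase h)), erase_insert_of_ne hab]

theorem adj_add (a : ℕ) (Ψ Φ : Finset ℕ → ZMod 2) :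
    adj a (fun A => Ψ A + Φ A) = fun A => adj a Ψ A + adj a Φ A := by
  funext A
  unfold adj
  split_ifs <;> simp

theorem adj_zero (a : ℕ) : adj a (fun _ => 0) = fun _ => 0 := by
  funext A
  unfold adj
  split_ifs <;> rfl

theorem E_add : ∀ (k : ℕ) (v w : Finset (Fin n)) (Ψ Φ : Finset ℕ → ZMod 2),
    E r k v w (fun A => Ψ A + Φ A) = E r k v w Ψ + E r k v w Φ := by
  intro k
  induction k with
  | zero => intro v w Ψ Φ; rfl
  | succ k ih =>
    intro v w Ψ Φ
    simp only [E, adj_add, ih, sum_add_distrib]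

theorem E_zero : ∀ (k : ℕ) (v w : Finset (Fin n)), E r k v w (fun _ => 0) = 0 := by
  intro k
  induction k with
  | zero => intro v w; rfl
  | succ k ih =>
    intro v w
    simp only [E, adj_zero, ih, sum_const_zero]

theorem E_sum (k : ℕ) (v w : Finset (Fin n)) {ι : Type*} (s : Finset ι)
    (Ψ : ι → Finset ℕ → ZMod 2) :
    E r k v w (fun A => ∑ i ∈ s, Ψ i A) = ∑ i ∈ s, E r k v w (Ψ i) := by
  classical
  induction s using Finset.induction_on with
  | empty => simp only [sum_empty]; exact E_zero r k v w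
  | insert i s hi ih =>
    simp only [sum_insert hi]
    rw [E_add, ih]

theorem E_ite (k : ℕ) (v w : Finset (Fin n)) (p : Prop) [Decidable p]
    (Ψ : Finset ℕ → ZMod 2) :
    E r k v w (fun A => if p then 0 else Ψ A) = if p then 0 else E r k v w Ψ := by
  by_cases h : p
  · simp only [if_pos h]; exact E_zero r k v w
  · simp only [if_neg h]

/-- Fubini -/
theorem E_comm : ∀ (k : ℕ) (v w : Finset (Fin n)) (l : ℕ) (v' w' : Finset (Fin n))
    (F : Finset ℕ → Finset ℕ → ZMod 2),
    E r k v w (fun A => E r l v' w' (fun B => F A B)) =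
      E r l v' w' (fun B => E r k v w (fun A => F A B)) := by
  intro k
  induction k with
  | zero => intro v w l v' w' F; rfl
  | succ k ih =>
    intro v w l v' w' F
    simp only [E]
    rw [E_sum]
    refine sum_congr rfl fun i _ => ?_
    have h1 : adj (r w) (fun A => E r l v' w' (fun B => F A B)) =
        fun A => E r l v' w' (fun B => adj (r w) (fun A => F A B) A) := by
      funext A
      simp only [adj]
      rw [E_ite]
    rw [h1, ih]

/-- symmetric double sums vanish -/
theorem sum_sum_symm {ι : Type*} [DecidableEq ι] (s : Finset ι) (f : ι → ι → ZMod 2)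
    (hf : ∀ i ∈ s, ∀ j ∈ s, f i j = f j i) :
    ∑ i ∈ s, ∑ j ∈ s.erase i, f i j = 0 := by
  have h1 : ∑ i ∈ s, ∑ j ∈ s.erase i, f i j = ∑ x ∈ s.offDiag, f x.1 x.2 := by
    rw [Finset.sum_sigma']
    refine Finset.sum_bij' (fun x _ => (x.1, x.2)) (fun x _ => ⟨x.1, x.2⟩) ?_ ?_ ?_ ?_ ?_
    · rintro ⟨i, j⟩ h
      simp only [mem_sigma, mem_erase] at h
      simp only [mem_offDiag]
      exact ⟨h.1, h.2.2, h.2.1.symm⟩
    · rintro ⟨i, j⟩ h
      simp only [mem_offDiag] at h
      simp only [mem_sigma, mem_erase]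
      exact ⟨h.1, h.2.2.symm, h.2.1⟩
    · rintro ⟨i, j⟩ _; rfl
    · rintro ⟨i, j⟩ _; rfl
    · rintro ⟨i, j⟩ _; rfl
  rw [h1]
  refine Finset.sum_involution (fun x _ => (x.2, x.1)) ?_ ?_ ?_ ?_
  · rintro ⟨i, j⟩ h
    simp only [mem_offDiag] at h
    simp only
    rw [hf i h.1 j h.2.1, add_self_zmod2]
  · rintro ⟨i, j⟩ h _ he
    simp only [mem_offDiag] at h
    simp only [Prod.mk.injEq] at he
    exact h.2.2 he.2
  · rintro ⟨i, j⟩ h
    simp only [mem_offDiag] at h ⊢
    exact ⟨h.2.1, h.1, h.2.2.symm⟩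
  · rintro ⟨i, j⟩ _; rfl

/-- the chain lemma -/
theorem E_bd : ∀ (k : ℕ) (v w : Finset (Fin n)) (Ψ : Finset ℕ → ZMod 2), v ⊆ w →
    (w \ v).card = k + 1 →
    E r (k + 1) v w (bd Ψ) =
      ∑ i ∈ w \ v, (E r k v (w.erase i) Ψ + E r k (insert i v) w Ψ) := by
  intro k
  induction k with
  | zero =>
    intro v w Ψ hvw hcard
    obtain ⟨i, hi⟩ := card_eq_one.1 hcard
    have hiw : i ∈ w ∧ i ∉ v := by
      have : i ∈ w \ v := by rw [hi]; simp
      simpa using this
    have hwe : w = insert i v := by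
      ext j
      by_cases hj : j ∈ v
      · simp [hj, hvw hj]
      · have : j ∈ w \ v ↔ j = i := by rw [hi]; simp
        simp only [mem_sdiff, hj, not_false_eq_true, and_true] at this
        simp [this, hj]
    have hve : w.erase i = v := by rw [hwe, erase_insert hiw.2]
    simp only [E, hi, sum_singleton, hve]
    rw [adj_bd]
    congr 1
    simp only [bd, sum_singleton, adj]
    rw [if_neg (by simp)]
    congr 1
    simp
  | succ k ih =>
    intro v w Ψ hvw hcard
    have key : ∀ i ∈ w \ v, E r (k + 1) v (w.erase i) (adj (r w) (bd Ψ)) =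
        E r (k + 1) v (w.erase i) Ψ +
          (∑ j ∈ (w \ v).erase i, E r k v ((w.erase i).erase j) (adj (r w) Ψ) +
           ∑ j ∈ (w \ v).erase i, E r k (insert j v) (w.erase i) (adj (r w) Ψ)) := by
      intro i hi
      have hiw : i ∈ w ∧ i ∉ v := by simpa using hi
      have h1 : (adj (r w) (bd Ψ)) = fun A => Ψ A + bd (adj (r w) Ψ) A :=
        funext fun A => adj_bd _ _ _
      have h2 : (w.erase i) \ v = (w \ v).erase i := by
        ext j; simp only [mem_sdiff, mem_erase]; tauto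
      have h3 : ((w.erase i) \ v).card = k + 1 := by
        rw [h2, card_erase_of_mem hi, hcard]; rfl
      have h4 : v ⊆ w.erase i := fun j hj => mem_erase.2 ⟨fun h => hiw.2 (h ▸ hj), hvw hj⟩
      rw [h1, E_add, ih v (w.erase i) (adj (r w) Ψ) h4 h3, sum_add_distrib, h2]
    have step : E r (k + 1 + 1) v w (bd Ψ) =
        ∑ i ∈ w \ v, E r (k + 1) v (w.erase i) (adj (r w) (bd Ψ)) := rfl
    rw [step, sum_congr rfl key, sum_add_distrib, sum_add_distrib, sum_add_distrib]
    congr 1
    rw [sum_sum_symm (w \ v) (fun i j => E r k v ((w.erase i).erase j) (adj (r w) Ψ))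
      (fun i _ j _ => by rw [erase_right_comm]), zero_add]
    -- exchange
    have hex : ∑ i ∈ w \ v, ∑ j ∈ (w \ v).erase i, E r k (insert j v) (w.erase i) (adj (r w) Ψ) =
        ∑ j ∈ w \ v, ∑ i ∈ (w \ v).erase j, E r k (insert j v) (w.erase i) (adj (r w) Ψ) := by
      refine Finset.sum_comm' ?_
      intro i j
      simp only [mem_erase]
      constructor
      · rintro ⟨h1, h2, h3⟩; exact ⟨⟨fun h => h2 h.symm, h1⟩, h3⟩
      · rintro ⟨⟨h1, h2⟩, h3⟩; exact ⟨h2, fun h => h1 h.symm, h3⟩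
    rw [hex]
    refine sum_congr rfl fun j hj => ?_
    have h2 : w \ (insert j v) = (w \ v).erase j := by
      ext i; simp only [mem_sdiff, mem_erase, mem_insert]; tauto
    simp only [E, h2]

/-! ### support -/

/-- the admissible label sets -/
def Adm (N : Finset (Fin n) → Set ℕ) (M k : ℕ) (w : Finset (Fin n)) (A : Finset ℕ) : Prop :=
  (∀ a ∈ A, a ∈ N w) ∧ r w ∈ A ∧ (∀ a ∈ A, a < M) ∧ (1 ≤ k → ∃ a ∈ A, ∃ b ∈ A, a ≠ b)

variable {r}

theorem E_congr {N : Finset (Fin n) → Set ℕ} {M : ℕ} (hr : ∀ v, r v ∈ N v) (hM : ∀ v, r v < M)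
    (hN : ∀ v i, i ∉ v → r v ≠ r (insert i v) → N v = N (insert i v)) :
    ∀ (k : ℕ) (v w : Finset (Fin n)) (Ψ Φ : Finset ℕ → ZMod 2),
      (∀ A, Adm r N M k w A → Ψ A = Φ A) → E r k v w Ψ = E r k v w Φ := by
  intro k
  induction k with
  | zero =>
    intro v w Ψ Φ h
    refine h _ ⟨?_, ?_, ?_, ?_⟩
    · intro a ha; rw [mem_singleton] at ha; rw [ha]; exact hr w
    · simp
    · intro a ha; rw [mem_singleton] at ha; rw [ha]; exact hM w
    · intro h; omega
  | succ k ih =>
    intro v w Ψ Φ h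
    simp only [E]
    refine sum_congr rfl fun i hi => ?_
    have hiw : i ∈ w ∧ i ∉ v := by simpa using hi
    refine ih v (w.erase i) _ _ ?_
    intro A hA
    unfold adj
    by_cases ha : r w ∈ A
    · rw [if_pos ha, if_pos ha]
    · rw [if_neg ha, if_neg ha]
      have hne : r (w.erase i) ≠ r w := fun h => ha (h ▸ hA.2.1)
      have hNe : N (w.erase i) = N w := by
        have := hN (w.erase i) i (by simp)
        rw [insert_erase hiw.1] at this
        exact this hne
      refine h _ ⟨?_, ?_, ?_, ?_⟩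
      · intro a haa
        rcases mem_insert.1 haa with h1 | h1
        · rw [h1]; exact hr w
        · rw [← hNe]; exact hA.1 a h1
      · simp
      · intro a haa
        rcases mem_insert.1 haa with h1 | h1
        · rw [h1]; exact hM w
        · exact hA.2.2.1 a h1
      · intro _
        exact ⟨r w, by simp, r (w.erase i), mem_insert_of_mem hA.2.1, hne.symm⟩

end Pool.Agent.TwoChanges
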