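import Pool.Agent.Lib_MP_a0ec0b_co.TwoTheta

/-!
# Antipodal sums over faces of the cube

A face of the `n`-cube is a map `Fin n → Option Bool` (`none` = free coordinate).
There is no function `Θ` (mod 2) on faces whose boundary sum `DΘ` equals `Θ + Θ ∘ antipode` in
positive dimension with `Θ + Θ ∘ antipode = 1` on vertices.
-/

set_option autoImplicit false

namespace Pool.Agent.TwoChanges

open Finset

/-- faces -/
abbrev Face (n : ℕ) := Fin n → Option Bool

/-- the antipodal face -/
def fl {n : ℕ} (σ : Face n) : Face n := fun i => (σ i).map not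

/-- boundary sum -/
def DD {n : ℕ} (Θ : Face n → ZMod 2) (σ : Face n) : ZMod 2 :=
  ∑ i : Fin n, if σ i = none then Θ (Function.update σ i (some false)) +
    Θ (Function.update σ i (some true)) else 0

/-- the sum over the `2^n` chosen faces -/
def S : (n : ℕ) → (Face n → ZMod 2) → ZMod 2
  | 0, Θ => Θ (fun i => i.elim0)
  | n + 1, Θ => S n (fun τ => Θ (Fin.cons (some true) τ)) + S n (fun τ => Θ (Fin.cons none (fl τ)))

theorem S_add : ∀ (n : ℕ) (Θ Φ : Face n → ZMod 2), S n (fun σ => Θ σ + Φ σ) = S n Θ + S n Φ := by
  intro n
  induction n with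
  | zero => intro Θ Φ; rfl
  | succ n ih =>
    intro Θ Φ
    simp only [S, ih]
    ring

theorem S_zero : ∀ (n : ℕ), S n (fun _ => 0) = 0 := by
  intro n
  induction n with
  | zero => rfl
  | succ n ih => simp only [S, ih, add_zero]

theorem fl_fl {n : ℕ} (σ : Face n) : fl (fl σ) = σ := by
  funext i
  simp only [fl, Option.map_map]
  cases σ i <;> simp

theorem fl_cons {n : ℕ} (a : Option Bool) (τ : Face n) :
    fl (Fin.cons a τ : Face (n + 1)) = Fin.cons (a.map not) (fl τ) := by
  funext i
  refine Fin.cases ?_ (fun i => ?_) i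
  · simp [fl]
  · simp [fl]

theorem DD_cons_some {n : ℕ} (Θ : Face (n + 1) → ZMod 2) (b : Bool) (τ : Face n) :
    DD Θ (Fin.cons (some b) τ) = DD (fun σ => Θ (Fin.cons (some b) σ)) τ := by
  unfold DD
  rw [Fin.sum_univ_succ]
  simp only [Fin.cons_zero, Fin.cons_succ, reduceCtorEq, if_false, zero_add, Fin.cons_update]

theorem DD_cons_none {n : ℕ} (Θ : Face (n + 1) → ZMod 2) (τ : Face n) :
    DD Θ (Fin.cons none τ) = Θ (Fin.cons (some false) τ) + Θ (Fin.cons (some true) τ) +
      DD (fun σ => Θ (Fin.cons none σ)) τ := by
  unfold DD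
  rw [Fin.sum_univ_succ]
  simp only [Fin.cons_zero, Fin.cons_succ, if_true, Fin.cons_update, Fin.update_cons_zero]

theorem fl_update {n : ℕ} (τ : Face n) (i : Fin n) (b : Bool) :
    fl (Function.update τ i (some b)) = Function.update (fl τ) i (some (!b)) := by
  funext j
  by_cases h : j = i
  · subst h; simp [fl]
  · simp [fl, Function.update_of_ne h]

theorem DD_fl {n : ℕ} (Θ : Face n → ZMod 2) (τ : Face n) :
    DD Θ (fl τ) = DD (fun σ => Θ (fl σ)) τ := by
  unfold DD
  refine sum_congr rfl fun i _ => ?_
  have h1 : fl τ i = none ↔ τ i = none := by simp [fl]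
  simp only [h1, fl_update, Bool.not_false, Bool.not_true]
  by_cases h : τ i = none
  · rw [if_pos h, if_pos h, add_comm]
  · rw [if_neg h, if_neg h]

theorem S_DD : ∀ (n : ℕ) (Θ : Face n → ZMod 2),
    S n (DD Θ) = S n Θ + S n (fun σ => Θ (fl σ)) := by
  intro n
  induction n with
  | zero =>
    intro Θ
    have h : (fl (fun i => i.elim0) : Face 0) = fun i => i.elim0 := funext fun i => i.elim0
    simp only [S, DD, univ_eq_empty, sum_empty, h, add_self_zmod2]
  | succ n ih =>
    intro Θ
    have e1 : S (n + 1) (DD Θ) =
        S n (DD (fun σ => Θ (Fin.cons (some true) σ))) +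
        (S n (fun τ => Θ (Fin.cons (some false) (fl τ))) +
          S n (fun τ => Θ (Fin.cons (some true) (fl τ))) +
          S n (DD (fun σ => Θ (Fin.cons none (fl σ))))) := by
      simp only [S, DD_cons_some, DD_cons_none, S_add, DD_fl]
    rw [e1, ih, ih]
    have e2 : S (n + 1) Θ = S n (fun τ => Θ (Fin.cons (some true) τ)) +
        S n (fun τ => Θ (Fin.cons none (fl τ))) := rfl
    have e3 : S (n + 1) (fun σ => Θ (fl σ)) = S n (fun τ => Θ (Fin.cons (some false) (fl τ))) +
        S n (fun τ => Θ (Fin.cons none τ)) := by
      simp only [S, fl_cons, Option.map_some, Option.map_none, Bool.not_true, fl_fl]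
    rw [e2, e3]
    simp only [fl_fl]
    have := add_self_zmod2 (S n (fun τ => Θ (Fin.cons (some true) (fl τ))))
    linear_combination this

/-- the indicator of the vertices -/
def vert {n : ℕ} (σ : Face n) : ZMod 2 := if ∀ i, σ i ≠ none then 1 else 0

theorem S_vert : ∀ (n : ℕ), S n vert = 1 := by
  intro n
  induction n with
  | zero =>
    simp only [S, vert]
    rw [if_pos (fun i => i.elim0)]
  | succ n ih =>
    have h1 : (fun τ : Face n => vert (Fin.cons (some true) τ : Face (n + 1))) = vert := by
      funext τ
      unfold vert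
      congr 1
      rw [eq_iff_iff]
      constructor
      · intro h i
        have := h i.succ
        simpa using this
      · intro h i
        refine Fin.cases ?_ (fun i => ?_) i
        · simp
        · simpa using h i
    have h2 : (fun τ : Face n => vert (Fin.cons none (fl τ) : Face (n + 1))) = fun _ => 0 := by
      funext τ
      unfold vert
      rw [if_neg]
      intro h
      exact h 0 (by simp)
    simp only [S]
    rw [h1, h2, ih, S_zero, add_zero]

theorem no_theta {n : ℕ} (Θ : Face n → ZMod 2)
    (h : ∀ σ, DD Θ σ = Θ σ + Θ (fl σ) + vert σ) : False := by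
  have h1 := S_DD n Θ
  have h2 : DD Θ = fun σ => Θ σ + Θ (fl σ) + vert σ := funext h
  rw [h2, S_add, S_add, S_vert] at h1
  have : (1 : ZMod 2) = 0 := by linear_combination h1
  exact absurd this (by decide)

/-! ### the core theorem -/

/-- lower end of a face -/
def bot {n : ℕ} (σ : Face n) : Finset (Fin n) := univ.filter fun i => σ i = some true

/-- upper end of a face -/
def top {n : ℕ} (σ : Face n) : Finset (Fin n) := univ.filter fun i => σ i ≠ some false

theorem bot_fl {n : ℕ} (σ : Face n) : bot (fl σ) = (top σ)ᶜ := by
  ext i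
  simp only [bot, top, fl, mem_filter, mem_univ, true_and, mem_compl, not_not]
  rcases h : σ i with _ | _ | _ <;> simp [h]

theorem top_fl {n : ℕ} (σ : Face n) : top (fl σ) = (bot σ)ᶜ := by
  ext i
  simp only [bot, top, fl, mem_filter, mem_univ, true_and, mem_compl]
  rcases h : σ i with _ | _ | _ <;> simp [h]

/-- **Core theorem.** -/
theorem core {n : ℕ} (r : Finset (Fin n) → ℕ) (N : Finset (Fin n) → Set ℕ) (M : ℕ)
    (hr : ∀ v, r v ∈ N v) (hM : ∀ v, r v < M)
    (hN : ∀ v i, i ∉ v → r v ≠ r (insert i v) → N v = N (insert i v)) :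
    ∃ v, (N v ∩ N vᶜ).Nonempty := by
  by_contra hcon
  have hdis : ∀ v, ¬ (N v ∩ N vᶜ).Nonempty := fun v hv => hcon ⟨v, hv⟩
  refine no_theta (fun σ => Th r M (bot σ) (top σ)) fun σ => ?_
  simp only [bot_fl, top_fl]
  have hD : DD (fun σ => Th r M (bot σ) (top σ)) σ = ∑ i ∈ top σ \ bot σ,
      (Th r M (insert i (bot σ)) (top σ) + Th r M (bot σ) ((top σ).erase i)) := by
    unfold DD
    rw [← sum_filter]
    have hs : (univ.filter fun i => σ i = none) = top σ \ bot σ := by
      ext i
      simp only [bot, top, mem_filter, mem_univ, true_and, mem_sdiff]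
      rcases σ i with _ | _ | _ <;> simp
    rw [hs]
    refine sum_congr rfl fun i hi => ?_
    have hi' : σ i = none := by
      rw [← hs] at hi
      simpa using hi
    have e1 : bot (Function.update σ i (some false)) = bot σ := by
      ext j
      simp only [bot, mem_filter, mem_univ, true_and]
      by_cases h : j = i
      · subst h; simp [hi']
      · simp [Function.update_of_ne h]
    have e2 : top (Function.update σ i (some false)) = (top σ).erase i := by
      ext j
      simp only [top, mem_filter, mem_univ, true_and, mem_erase]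
      by_cases h : j = i
      · subst h; simp
      · simp [h]
    have e3 : bot (Function.update σ i (some true)) = insert i (bot σ) := by
      ext j
      simp only [bot, mem_filter, mem_univ, true_and, mem_insert]
      by_cases h : j = i
      · subst h; simp
      · simp [h]
    have e4 : top (Function.update σ i (some true)) = top σ := by
      ext j
      simp only [top, mem_filter, mem_univ, true_and]
      by_cases h : j = i
      · subst h; simp [hi']
      · simp [Function.update_of_ne h]
    beta_reduce
    rw [e1, e2, e3, e4, add_comm]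
  rw [hD]
  by_cases hv : ∀ i, σ i ≠ none
  · have hbt : bot σ = top σ := by
      ext i
      simp only [bot, top, mem_filter, mem_univ, true_and]
      have := hv i
      rcases h : σ i with _ | _ | _
      · exact absurd h this
      · simp
      · simp
    rw [hbt, Finset.sdiff_self, sum_empty, Th_vertex hr hM hdis]
    unfold vert
    rw [if_pos hv, add_self_zmod2]
  · have hne : bot σ ≠ top σ := by
      intro h
      apply hv
      intro i hi
      have : i ∈ bot σ := by rw [h]; simp [top, hi]
      simp [bot, hi] at this
    rw [Th_bd hr hM hN hdis hne]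
    unfold vert
    rw [if_neg hv, add_zero]

end Pool.Agent.TwoChanges
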