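import Pool.Agent.Lib_MP_a0ec0b_co.OnePaths

/-!
# Antipodal faces of automorphisms whose square fixes the face spanned by `w` and `φ w`

(the argument on the minimal displacement is taken from helper39's `Norine`)
-/

set_option autoImplicit false

namespace Pool.Agent.CubeHom

open Finset

variable {n : ℕ}

/-- distances along a face -/
theorem dist_face' (w z x : V n) (h : ∀ i, w i = z i → x i = w i) :
    hammingDist w x + hammingDist x z = hammingDist w z := by
  unfold hammingDist
  rw [← Finset.card_union_of_disjoint]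
  · congr 1
    ext i
    simp only [Finset.mem_union, Finset.mem_filter, Finset.mem_univ, true_and]
    have h1 := h i
    revert h1
    cases w i <;> cases z i <;> cases x i <;> decide
  · rw [Finset.disjoint_left]
    intro i hi hi'
    rw [Finset.mem_filter] at hi hi'
    have key : ∀ a b c : Bool, a ≠ c → c ≠ b → (a = b → c = a) → False := by decide
    exact key _ _ _ hi.2 hi'.2 (h i)

theorem geodesic_antiFace (φ : V n → V n) (π : Equiv.Perm (Fin n))
    (hπ : ∀ x i, φ (flip x i) = flip (φ x) (π i)) (w : V n)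
    (hw : ∀ x : V n, hammingDist w x + hammingDist x (φ w) = hammingDist w (φ w) →
      φ (φ x) = x) : ∃ m, Nonempty (AntiFace φ m) := by
  classical
  -- the difference of two vertices is mapped by π
  have key : ∀ x y : V n, ∀ i, xor (φ x (π i)) (x i) = xor (φ y (π i)) (y i) := by
    intro x y i
    refine closed_univ (P := fun x => xor (φ x (π i)) (x i) = xor (φ y (π i)) (y i)) ?_
      (x := y) rfl
    intro x k hx
    rw [hπ]
    by_cases hk : k = i
    · subst hk
      rw [flip_same, flip_same, ← hx]
      cases φ x (π k) <;> cases x k <;> rfl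
    · have hk' : π i ≠ π k := fun h => hk (π.injective h).symm
      rw [flip_of_ne _ hk', flip_of_ne _ (fun h => hk h.symm)]
      exact hx
  -- the face spanned by w and φ w
  let A : Fin n → Prop := fun i => w i ≠ φ w i
  let Fc : V n → Prop := fun x => ∀ i, ¬ A i → x i = w i
  have hinv : ∀ x, Fc x → φ (φ x) = x := by
    intro x hx
    apply hw x
    exact dist_face' w (φ w) x (fun i hi => hx i (fun h => h hi))
  have hFw : Fc w := fun i _ => rfl
  have hww : φ (φ w) = w := hinv w hFw
  have hA : ∀ i, A (π i) ↔ A i := by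
    intro i
    have h1 := key (φ w) w i
    rw [hww] at h1
    change (w (π i) ≠ φ w (π i)) ↔ (w i ≠ φ w i)
    revert h1
    cases w (π i) <;> cases φ w (π i) <;> cases w i <;> cases φ w i <;> decide
  have hFflip : ∀ x i, Fc x → A i → Fc (flip x i) := by
    intro x i hx hi j hj
    rw [flip_of_ne _ (fun h => hj (by rw [h]; exact hi))]
    exact hx j hj
  have hFφ : ∀ x, Fc x → Fc (φ x) := by
    intro x hx i hi
    obtain ⟨j, rfl⟩ := π.surjective i
    have hj : ¬ A j := fun h => hi ((hA j).mpr h)
    have h1 := key x w j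
    rw [hx j hj] at h1
    have h2 : φ x (π j) = φ w (π j) := by
      revert h1
      cases φ x (π j) <;> cases φ w (π j) <;> cases w j <;> decide
    rw [h2]
    by_contra h3
    exact hi (fun h4 => h3 h4.symm)
  obtain ⟨u, hFu, hu⟩ : ∃ u : V n, Fc u ∧ ∀ x : V n, Fc x →
      hammingDist u (φ u) ≤ hammingDist x (φ x) := by
    obtain ⟨u, hu1, hu⟩ := Finset.exists_min_image (Finset.univ.filter (fun x : V n => Fc x))
      (fun x => hammingDist x (φ x)) ⟨w, by simp [hFw]⟩
    exact ⟨u, (Finset.mem_filter.mp hu1).2,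
      fun x hx => hu x (Finset.mem_filter.mpr ⟨Finset.mem_univ x, hx⟩)⟩
  have hNA : ∀ i, u i ≠ φ u i → A i := by
    intro i hi h
    have h1 := hFu i (fun h' => h' h)
    have h2 := hFφ u hFu i (fun h' => h' h)
    exact hi (by rw [h1, h2])
  have huu : φ (φ u) = u := hinv u hFu
  refine exists_antiFace φ π hπ u ?_
  intro i hi'
  by_contra hne
  -- π i is in the displacement as well
  have hj' : u (π i) ≠ φ u (π i) := by
    intro hj'
    have h1 := key (φ u) u i
    rw [huu, ← hj'] at h1
    revert h1 hi'
    cases u (π i) <;> cases u i <;> cases φ u i <;> decide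
  have hlt : hammingDist (flip u i) (φ (flip u i)) < hammingDist u (φ u) := by
    rw [hπ]
    unfold hammingDist
    apply Finset.card_lt_card
    refine ⟨?_, ?_⟩
    · intro k hk
      rw [Finset.mem_filter] at hk ⊢
      refine ⟨Finset.mem_univ _, ?_⟩
      by_cases hki : k = i
      · subst hki; exact hi'
      · by_cases hkj : k = π i
        · subst hkj; exact hj'
        · have := hk.2
          rwa [flip_of_ne _ hki, flip_of_ne _ hkj] at this
    · intro hsub
      have h1 : i ∈ Finset.univ.filter (fun k => u k ≠ φ u k) := by simp [hi']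
      have h2 := (Finset.mem_filter.mp (hsub h1)).2
      rw [flip_same, flip_of_ne _ (fun h => hne h.symm)] at h2
      have key : ∀ x y : Bool, x ≠ y → (!x) ≠ y → False := by decide
      exact key _ _ hi' h2
  exact absurd (hu (flip u i) (hFflip u i hFu (hNA i hi'))) (not_le.mpr hlt)

theorem blocks_of_comp {c : Sym2 (V n) → Bool} {k : Bool} {x y z w : V n}
    (h1 : Comp c k x y) (h2 : Comp c (!k) y z) (h3 : Comp c k z w) :
    ∃ p : (Q n).Walk x w, p.IsPath ∧ ∃ l₁ l₂ l₃ : List (Sym2 (V n)),
      p.edges = l₁ ++ l₂ ++ l₃ ∧ (∀ e ∈ l₁, c e = k) ∧ (∀ e ∈ l₂, c e = !k) ∧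
        ∀ e ∈ l₃, c e = k := by
  classical
  obtain ⟨p, hp⟩ := walk_of_comp h1
  obtain ⟨q, hq⟩ := walk_of_comp h2
  obtain ⟨s, hs⟩ := walk_of_comp h3
  refine ⟨((p.append q).append s).bypass, ((p.append q).append s).bypass_isPath, ?_⟩
  have hsub := ((p.append q).append s).edges_bypass_sublist_edges
  rw [SimpleGraph.Walk.edges_append, SimpleGraph.Walk.edges_append,
    List.sublist_append_iff] at hsub
  obtain ⟨l, l₃, he, hl, hl3⟩ := hsub
  rw [List.sublist_append_iff] at hl
  obtain ⟨l₁, l₂, he2, hl1, hl2⟩ := hl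
  exact ⟨l₁, l₂, l₃, by rw [he, he2], fun e h => hp e (hl1.subset h),
    fun e h => hq e (hl2.subset h), fun e h => hs e (hl3.subset h)⟩

end Pool.Agent.CubeHom
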