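import Pool.Agent.Lib_MP_a0ec0b_co.TwoChain

/-!
# The function `Th` on faces of the cube and its boundary identity
-/

set_option autoImplicit false

namespace Pool.Agent.TwoChanges

open Finset

variable {n : ℕ} (r : Finset (Fin n) → ℕ)

/-- chain functional with all chains from `v` to `w` -/
def e (v w : Finset (Fin n)) (Ψ : Finset ℕ → ZMod 2) : ZMod 2 := E r (w \ v).card v w Ψ

theorem e_self (v : Finset (Fin n)) (Ψ : Finset ℕ → ZMod 2) : e r v v Ψ = Ψ {r v} := by
  simp [e, E]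

theorem e_add (v w : Finset (Fin n)) (Ψ Φ : Finset ℕ → ZMod 2) :
    e r v w (fun A => Ψ A + Φ A) = e r v w Ψ + e r v w Φ := E_add r _ v w Ψ Φ

theorem e_sum (v w : Finset (Fin n)) {ι : Type*} (s : Finset ι) (Ψ : ι → Finset ℕ → ZMod 2) :
    e r v w (fun A => ∑ i ∈ s, Ψ i A) = ∑ i ∈ s, e r v w (Ψ i) := E_sum r _ v w s Ψ

theorem e_zero (v w : Finset (Fin n)) : e r v w (fun _ => 0) = 0 := E_zero r _ v w

theorem e_comm (v w v' w' : Finset (Fin n)) (F : Finset ℕ → Finset ℕ → ZMod 2) :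
    e r v w (fun A => e r v' w' (fun B => F A B)) =
      e r v' w' (fun B => e r v w (fun A => F A B)) := E_comm r _ v w _ v' w' F

theorem e_bd {v w : Finset (Fin n)} (hvw : v ⊆ w) (hne : v ≠ w) (Ψ : Finset ℕ → ZMod 2) :
    e r v w (bd Ψ) = ∑ i ∈ w \ v, (e r v (w.erase i) Ψ + e r (insert i v) w Ψ) := by
  have hpos : 0 < (w \ v).card := by
    rw [card_pos]
    by_contra h
    rw [not_nonempty_iff_eq_empty, sdiff_eq_empty_iff_subset] at h
    exact hne (Subset.antisymm hvw h)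
  obtain ⟨k, hk⟩ : ∃ k, (w \ v).card = k + 1 := ⟨(w \ v).card - 1, by omega⟩
  have h0 : e r v w (bd Ψ) = E r (k + 1) v w (bd Ψ) := by unfold e; rw [hk]
  rw [h0, E_bd r k v w Ψ hvw hk]
  refine sum_congr rfl fun i hi => ?_
  have h1 : (w.erase i \ v).card = k := by
    have : w.erase i \ v = (w \ v).erase i := by
      ext j; simp only [mem_sdiff, mem_erase]; tauto
    rw [this, card_erase_of_mem hi, hk]; rfl
  have h2 : (w \ insert i v).card = k := by
    have : w \ insert i v = (w \ v).erase i := by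
      ext j; simp only [mem_sdiff, mem_erase, mem_insert]; tauto
    rw [this, card_erase_of_mem hi, hk]; rfl
  unfold e
  rw [h1, h2]

variable {r}

theorem e_congr {N : Finset (Fin n) → Set ℕ} {M : ℕ} (hr : ∀ v, r v ∈ N v) (hM : ∀ v, r v < M)
    (hN : ∀ v i, i ∉ v → r v ≠ r (insert i v) → N v = N (insert i v))
    (v w : Finset (Fin n)) (Ψ Φ : Finset ℕ → ZMod 2)
    (h : ∀ A, Adm r N M (w \ v).card w A → Ψ A = Φ A) : e r v w Ψ = e r v w Φ :=
  E_congr hr hM hN _ v w Ψ Φ h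

variable (r)

/-- the general term -/
def G (M : ℕ) (v x w y : Finset (Fin n)) : ZMod 2 :=
  e r v x (fun A => e r wᶜ yᶜ (fun B => q M A B))

/-- the function on faces -/
def Th (M : ℕ) (v w : Finset (Fin n)) : ZMod 2 := ∑ x ∈ Icc v w, G r M v x w x

variable {r}

section

variable {N : Finset (Fin n) → Set ℕ} {M : ℕ}

theorem compl_erase' (x : Finset (Fin n)) (i : Fin n) : (x.erase i)ᶜ = insert i xᶜ := by
  ext j; simp only [mem_compl, mem_erase, mem_insert]; tauto

theorem compl_insert' (x : Finset (Fin n)) (i : Fin n) : (insert i x)ᶜ = xᶜ.erase i := by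
  ext j; simp only [mem_compl, mem_erase, mem_insert]; tauto

theorem term_identity (hr : ∀ v, r v ∈ N v) (hM : ∀ v, r v < M)
    (hN : ∀ v i, i ∉ v → r v ≠ r (insert i v) → N v = N (insert i v))
    (hdis : ∀ v, ¬ (N v ∩ N vᶜ).Nonempty)
    {v w x : Finset (Fin n)} (hvx : v ⊆ x) (hxw : x ⊆ w) (hne : v ≠ w) :
    G r M v x w x + G r M wᶜ xᶜ vᶜ xᶜ =
      ∑ i ∈ x \ v, (G r M v (x.erase i) w x + G r M (insert i v) x w x) +
      ∑ i ∈ w \ x, (G r M v x w (insert i x) + G r M v x (w.erase i) x) := by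
  -- step 1
  have h1 : G r M wᶜ xᶜ vᶜ xᶜ = e r v x (fun A => e r wᶜ xᶜ (fun B => q M B A)) := by
    unfold G
    rw [compl_compl, compl_compl, e_comm]
  -- step 2
  have h2 : G r M v x w x + G r M wᶜ xᶜ vᶜ xᶜ =
      e r v x (fun A => e r wᶜ xᶜ (fun B => bd (fun A' => q M A' B) A)) +
      e r v x (fun A => e r wᶜ xᶜ (bd (fun B => q M A B))) := by
    rw [h1]
    unfold G
    rw [← e_add, ← e_add]
    refine e_congr hr hM hN v x _ _ fun A hA => ?_
    rw [← e_add, ← e_add]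
    refine e_congr hr hM hN wᶜ xᶜ _ _ fun B hB => ?_
    have hAB : Disjoint A B := by
      rw [Finset.disjoint_left]
      intro a ha hb
      exact hdis x ⟨a, hA.1 a ha, hB.1 a hb⟩
    exact (q_identity' hAB hA.2.2.1 hB.2.2.1).symm
  rw [h2]
  congr 1
  · rw [e_comm]
    by_cases hx : v = x
    · subst hx
      simp only [e_self, Finset.sdiff_self, sum_empty]
      rw [← e_zero r wᶜ vᶜ]
      refine e_congr hr hM hN _ _ _ _ fun B hB => ?_
      simp only [bd, sum_singleton, erase_singleton]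
      exact q_empty_left ⟨_, hB.2.1, hM _⟩
    · have h3 : (fun B => e r v x (fun A => bd (fun A' => q M A' B) A)) = fun B =>
          ∑ i ∈ x \ v, (e r v (x.erase i) (fun A => q M A B) +
            e r (insert i v) x (fun A => q M A B)) := by
        funext B
        exact e_bd r hvx hx _
      rw [h3, e_sum]
      refine sum_congr rfl fun i _ => ?_
      rw [e_add]
      unfold G
      rw [e_comm, e_comm r wᶜ xᶜ (insert i v) x]
  · by_cases hx : x = w
    · subst hx
      simp only [e_self, Finset.sdiff_self, sum_empty]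
      rw [← e_zero r v x]
      refine e_congr hr hM hN _ _ _ _ fun A hA => ?_
      simp only [bd, sum_singleton, erase_singleton]
      have hcard : 1 ≤ (x \ v).card := by
        rw [Nat.one_le_iff_ne_zero, Ne, card_eq_zero, sdiff_eq_empty_iff_subset]
        intro h
        exact hne (Subset.antisymm hvx h)
      obtain ⟨a, ha, b, hb, hab⟩ := hA.2.2.2 hcard
      exact q_empty_right ⟨a, ha, b, hb, hab, hA.2.2.1 a ha, hA.2.2.1 b hb⟩
    · have hcc : wᶜ ⊆ xᶜ := compl_subset_compl.2 hxw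
      have hcn : wᶜ ≠ xᶜ := fun h => hx (compl_injective h).symm
      have hsd : xᶜ \ wᶜ = w \ x := by
        ext j; simp only [mem_sdiff, mem_compl]; tauto
      have h3 : (fun A => e r wᶜ xᶜ (bd (fun B => q M A B))) = fun A =>
          ∑ i ∈ w \ x, (e r wᶜ (insert i x)ᶜ (fun B => q M A B) +
            e r (w.erase i)ᶜ xᶜ (fun B => q M A B)) := by
        funext A
        rw [e_bd r hcc hcn, hsd]
        refine sum_congr rfl fun i _ => ?_
        rw [compl_insert', compl_erase']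
      rw [h3, e_sum]
      refine sum_congr rfl fun i _ => ?_
      rw [e_add]
      rfl

/-- the boundary identity for faces of positive dimension -/
theorem Th_bd (hr : ∀ v, r v ∈ N v) (hM : ∀ v, r v < M)
    (hN : ∀ v i, i ∉ v → r v ≠ r (insert i v) → N v = N (insert i v))
    (hdis : ∀ v, ¬ (N v ∩ N vᶜ).Nonempty)
    {v w : Finset (Fin n)} (hne : v ≠ w) :
    ∑ i ∈ w \ v, (Th r M (insert i v) w + Th r M v (w.erase i)) =
      Th r M v w + Th r M wᶜ vᶜ := by
  have h1 : Th r M wᶜ vᶜ = ∑ x ∈ Icc v w, G r M wᶜ xᶜ vᶜ xᶜ := by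
    unfold Th
    refine sum_bij' (fun x _ => xᶜ) (fun x _ => xᶜ) ?_ ?_ ?_ ?_ ?_
    · intro x hx
      rw [mem_Icc] at hx ⊢
      exact ⟨by rw [← compl_compl v]; exact compl_le_compl hx.2,
        by rw [← compl_compl w]; exact compl_le_compl hx.1⟩
    · intro x hx
      rw [mem_Icc] at hx ⊢
      exact ⟨compl_le_compl hx.2, compl_le_compl hx.1⟩
    · intro x _; exact compl_compl x
    · intro x _; exact compl_compl x
    · intro x _; rw [compl_compl]
  rw [h1]
  unfold Th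
  rw [← sum_add_distrib]
  have h2 : ∀ x ∈ Icc v w, G r M v x w x + G r M wᶜ xᶜ vᶜ xᶜ =
      ∑ i ∈ x \ v, (G r M v (x.erase i) w x + G r M (insert i v) x w x) +
      ∑ i ∈ w \ x, (G r M v x w (insert i x) + G r M v x (w.erase i) x) := by
    intro x hx
    rw [mem_Icc] at hx
    exact term_identity hr hM hN hdis hx.1 hx.2 hne
  rw [sum_congr rfl h2]
  simp only [sum_add_distrib]
  -- T1 = T3
  have hT : ∑ x ∈ Icc v w, ∑ i ∈ x \ v, G r M v (x.erase i) w x =
      ∑ x ∈ Icc v w, ∑ i ∈ w \ x, G r M v x w (insert i x) := by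
    rw [sum_sigma', sum_sigma']
    refine sum_bij' (fun p _ => ⟨p.1.erase p.2, p.2⟩) (fun p _ => ⟨insert p.2 p.1, p.2⟩)
      ?_ ?_ ?_ ?_ ?_
    · rintro ⟨x, i⟩ h
      simp only [mem_sigma, mem_Icc, mem_sdiff] at h ⊢
      refine ⟨⟨fun j hj => mem_erase.2 ⟨fun hji => h.2.2 (hji ▸ hj), h.1.1 hj⟩,
        (erase_subset _ _).trans h.1.2⟩, h.1.2 h.2.1, by simp⟩
    · rintro ⟨x, i⟩ h
      simp only [mem_sigma, mem_Icc, mem_sdiff] at h ⊢
      refine ⟨⟨h.1.1.trans (subset_insert _ _), insert_subset h.2.1 h.1.2⟩, by simp, ?_⟩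
      intro hi
      exact h.2.2 (h.1.1 hi)
    · rintro ⟨x, i⟩ h
      simp only [mem_sigma, mem_Icc, mem_sdiff] at h
      simp [insert_erase h.2.1]
    · rintro ⟨x, i⟩ h
      simp only [mem_sigma, mem_Icc, mem_sdiff] at h
      simp [erase_insert h.2.2]
    · rintro ⟨x, i⟩ h
      simp only [mem_sigma, mem_Icc, mem_sdiff] at h
      simp [insert_erase h.2.1]
  have hT2 : ∑ x ∈ Icc v w, ∑ i ∈ x \ v, G r M (insert i v) x w x =
      ∑ i ∈ w \ v, ∑ x ∈ Icc (insert i v) w, G r M (insert i v) x w x := by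
    refine sum_comm' ?_
    intro x i
    simp only [mem_Icc, mem_sdiff, insert_subset_iff]
    constructor
    · rintro ⟨⟨h1, h2⟩, h3, h4⟩; exact ⟨⟨⟨h3, h1⟩, h2⟩, h2 h3, h4⟩
    · rintro ⟨⟨⟨h3, h1⟩, h2⟩, _, h4⟩; exact ⟨⟨h1, h2⟩, h3, h4⟩
  have hT4 : ∑ x ∈ Icc v w, ∑ i ∈ w \ x, G r M v x (w.erase i) x =
      ∑ i ∈ w \ v, ∑ x ∈ Icc v (w.erase i), G r M v x (w.erase i) x := by
    refine sum_comm' ?_
    intro x i
    simp only [mem_Icc, mem_sdiff, subset_erase]
    constructor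
    · rintro ⟨⟨h1, h2⟩, h3, h4⟩; exact ⟨⟨h1, h2, h4⟩, h3, fun h => h4 (h1 h)⟩
    · rintro ⟨⟨h1, h2, h4⟩, h3, _⟩; exact ⟨⟨h1, h2⟩, h3, h4⟩
  rw [hT, hT2, hT4]
  have hcc : ∀ a b c : ZMod 2, b + c = a + b + (a + c) := by
    intro a b c
    have := add_self_zmod2 a
    linear_combination -this
  exact hcc _ _ _

/-- vertices -/
theorem Th_vertex (hr : ∀ v, r v ∈ N v) (hM : ∀ v, r v < M)
    (hdis : ∀ v, ¬ (N v ∩ N vᶜ).Nonempty) (v : Finset (Fin n)) :
    Th r M v v + Th r M vᶜ vᶜ = 1 := by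
  unfold Th
  simp only [Icc_self, sum_singleton, G, e_self, compl_compl]
  refine q_singletons ?_ (hM _) (hM _)
  intro h
  exact hdis v ⟨r v, hr v, h ▸ hr vᶜ⟩

end

end Pool.Agent.TwoChanges
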